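import Pool.Agent.SNR.WSt

/-!
# SNR, module WSt2 (helper48): one more statement (the members in `R` do not generate `R`)
-/

set_option autoImplicit false

noncomputable section

open Finset Pool.Agent.Helper64.Rho
open scoped Classical Pointwise

namespace Pool.Agent.SNR

open Pool.Agent.SDG Pool.Agent.SNW Pool.Agent.SBN

/-- **WA2** (numbers; `crk R = m - 1`, the members in `R` generate a smaller group: `2 N Y ≤ X`), no exception. -/
def St_WA2 : Prop :=
  ∀ p E k τ N X Y y j : ℕ, 1 ≤ p → 2 ≤ E → 1 ≤ k → E + k = τ → 4 ≤ τ →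
    cf 2 k ≤ Y → k + 1 ≤ Y → Y + 1 ≤ y → X < 4 * p * y → 3 * p * E ≤ N → 2 * (N * Y) ≤ X →
      X < 2 * p * U τ → y * N ≤ X + j * (y - Y) → j + 2 * p * U (τ - 1) ≤ X → False

end Pool.Agent.SNR
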