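import Pool.Agent.SNR.WA
import Pool.Agent.SNR.WSt2

/-!
# SNR, module WA2 (helper91): numbers
-/

set_option autoImplicit false

noncomputable section

open Finset

namespace Pool.Agent.SNR

open Pool.Agent.SDG Pool.Agent.SBN

/-- the finite check -/
def WA2b (E k : ℕ) : Bool := decide (2 ≤ E → 1 ≤ k → 4 ≤ E + k →
    ((4 * ((E + k + 1) * (E + k + 1) / 4) - 4 * ((E + k) * (E + k) / 4) ≤ 3 * E ∧
      (4 * ((E + k + 1) * (E + k + 1) / 4) - 4 * ((E + k) * (E + k) / 4)) * (4 * ((E + k + 1) * (E + k + 1) / 4)) ≤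
        (3 * E - 4) * (4 * ((E + k + 1) * (E + k + 1) / 4)) +
          4 * ((4 * ((E + k + 1) * (E + k + 1) / 4) - 4 * ((E + k) * (E + k) / 4)) *
            max (1 + (k + 1) * (k + 1) / 4) (k + 1)))
      ∨ 4 * ((E + k + 1) * (E + k + 1) / 4) ≤
        6 * E * max (1 + (k + 1) * (k + 1) / 4) (k + 1)))

theorem WA2_fin : ∀ E < 24, ∀ k < 24, WA2b E k = true := by
  decide +kernel

/-- the alternative -/
theorem WA2_alt (E k Y w w' : ℕ) (hE : 2 ≤ E) (hk : 1 ≤ k) (hne : 4 ≤ E + k) (hY : cf 2 k ≤ Y)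
    (hY' : k + 1 ≤ Y) (hw : U (E + k) = 2 * w) (hw' : U (E + k - 1) = 2 * w') :
    (4 * w - 4 * w' ≤ 3 * E ∧ (4 * w - 4 * w') * (4 * w) ≤ (3 * E - 4) * (4 * w) + 4 * ((4 * w - 4 * w') * Y)) ∨
      4 * w ≤ 6 * E * Y := by
  have e1 : w = (E + k + 1) * (E + k + 1) / 4 := by
    unfold U at hw
    rw [pow_two] at hw
    omega
  have e2 : w' = (E + k) * (E + k) / 4 := by
    unfold U at hw'
    rw [pow_two] at hw'
    have : E + k - 1 + 1 = E + k := by omega
    rw [this] at hw'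
    omega
  have hY1 : 1 + (k + 1) * (k + 1) / 4 ≤ Y := by
    rw [thm_Nm1.2.2.1, pow_two] at hY
    exact hY
  have hY2 : k + 1 ≤ Y := hY'
  rcases Nat.lt_or_ge (E + k) 24 with h | h
  · have h1 := of_decide_eq_true (WA2_fin E (by omega) k (by omega)) hE hk hne
    rw [← e1, ← e2] at h1
    have hmax : max (1 + (k + 1) * (k + 1) / 4) (k + 1) ≤ Y := max_le hY1 hY2
    rcases h1 with ⟨h1, h2⟩ | h1
    · left
      exact ⟨h1, h2.trans (Nat.add_le_add_left (Nat.mul_le_mul_left _ (Nat.mul_le_mul_left _ hmax)) _)⟩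
    · right
      exact h1.trans (Nat.mul_le_mul_left _ hmax)
  · obtain ⟨w3, r3, hr3, -, hw3, hc3, -⟩ := U_quarter k
    have hY4 : (k + 1) * (k + 1) + 3 ≤ 4 * Y := by omega
    obtain ⟨u1, s1, hs1, hu1, hv1, -, hs1'⟩ := U_quarter (E + k)
    obtain ⟨u2, s2, hs2, hu2, hv2, -, hs2'⟩ := U_quarter (E + k - 1)
    have e3 : u1 = w := by omega
    have e4 : u2 = w' := by omega
    subst e3
    subst e4
    have e5 : E + k - 1 + 1 = E + k := by omega
    rw [e5] at hv2 hs2'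
    obtain ⟨τ, hτ⟩ : ∃ τ, τ = E + k := ⟨_, rfl⟩
    rw [← hτ] at hv1 hv2 hs1' hs2' h
    have e6 : (τ + 1) * (τ + 1) = τ * τ + 2 * τ + 1 := by ring
    obtain ⟨D, hD⟩ : ∃ D, D = 4 * u1 - 4 * u2 := ⟨_, rfl⟩
    have hD1 : D = 2 * τ + 2 * s2 := by omega
    have hP : 4 * u1 ≤ (τ + 1) * (τ + 1) := by omega
    rw [← hD]
    rcases Nat.lt_or_ge (3 * E) D with h1 | h1
    · right
      have h2 : E ≤ 2 * k + 1 := by omega
      have h3 : (E + k + 1) * (E + k + 1) * 4 ≤ 3 * E * ((k + 1) * (k + 1) + 3) := by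
        have hk8 : 8 ≤ k := by omega
        rcases Nat.lt_or_ge E 3 with h4 | h4
        · obtain rfl : E = 2 := by omega
          have h5 : 22 ≤ k := by omega
          nlinarith
        · have h5 : E * E ≤ E * (2 * k + 1) := Nat.mul_le_mul_left _ h2
          obtain ⟨a, rfl⟩ : ∃ a, E = a + 3 := ⟨E - 3, by omega⟩
          obtain ⟨b, rfl⟩ : ∃ b, k = b + 8 := ⟨k - 8, by omega⟩
          nlinarith [Nat.zero_le (a * b), Nat.zero_le (a * (b * b)), Nat.zero_le (b * b)]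
      have h4 : 3 * E * ((k + 1) * (k + 1) + 3) ≤ 3 * E * (4 * Y) := Nat.mul_le_mul_left _ hY4
      have h5 : 3 * E * (4 * Y) = 4 * (3 * E * Y) := by ring
      have h6 : 6 * E * Y = 2 * (3 * E * Y) := by ring
      rw [hτ] at hP
      omega
    · left
      refine ⟨h1, ?_⟩
      have h2 : D * (4 * u1) ≤ (3 * E - 4) * (4 * u1) + 4 * (4 * u1) := by
        have h3 : D ≤ 3 * E - 4 + 4 + (D - 3 * E) := by omega
        have h4 : D ≤ 3 * E - 4 + 4 := by omega
        calc D * (4 * u1) ≤ (3 * E - 4 + 4) * (4 * u1) := Nat.mul_le_mul_right _ h4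
          _ = _ := by ring
      by_cases h3 : D ≤ 3 * E - 4
      · exact (Nat.mul_le_mul_right _ h3).trans (Nat.le_add_right _ _)
      · have h4 : τ ≤ 3 * k + 5 := by omega
        have h5 : 4 * u1 ≤ D * Y := by
          have h6 : 2 * τ * (4 * Y) ≤ D * (4 * Y) := Nat.mul_le_mul_right _ (by omega)
          have h7 : 2 * τ * ((k + 1) * (k + 1) + 3) ≤ 2 * τ * (4 * Y) := Nat.mul_le_mul_left _ hY4
          have h8 : 4 * ((τ + 1) * (τ + 1)) ≤ 2 * τ * ((k + 1) * (k + 1) + 3) := by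
            obtain ⟨b, rfl⟩ : ∃ b, k = b + 7 := ⟨k - 7, by omega⟩
            have h9 : τ * τ ≤ τ * (3 * (b + 7) + 5) := Nat.mul_le_mul_left _ h4
            nlinarith [Nat.zero_le (τ * (b * b)), Nat.zero_le (τ * b)]
          nlinarith
        omega

theorem thm_WA2 : St_WA2 := by
  intro p E k τ N X Y y j hp hE hk hEk hne hY hY' hy hXy hN hNY2 hX hc hj
  have hNY : N * Y ≤ X := by omega
  subst hEk
  obtain ⟨w, hw⟩ : ∃ w, U (E + k) = 2 * w := ⟨_, rfl⟩
  obtain ⟨w', hw'⟩ : ∃ w', U (E + k - 1) = 2 * w' := ⟨_, rfl⟩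
  rw [hw] at hX
  rw [hw'] at hj
  rcases WA2_alt E k Y w w' hE hk hne hY hY' hw hw' with ⟨h1, h2⟩ | h1
  · obtain ⟨D, hD⟩ : ∃ D, D = 4 * w - 4 * w' := ⟨_, rfl⟩
    rw [← hD] at h1 h2
    have hjD : j < p * D := by
      rw [hD, Nat.mul_sub]
      have e1 : p * (4 * w) = 2 * p * (2 * w) := by ring
      have e2 : p * (4 * w') = 2 * p * (2 * w') := by ring
      omega
    have hXP : X < p * (4 * w) := by
      have e1 : p * (4 * w) = 2 * p * (2 * w) := by ring
      omega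
    obtain ⟨P, hP⟩ : ∃ P, P = 4 * w := ⟨_, rfl⟩
    rw [← hP] at h2 hXP
    obtain ⟨d, rfl⟩ : ∃ d, y = Y + 1 + d := ⟨y - Y - 1, by omega⟩
    have e1 : Y + 1 + d - Y = 1 + d := by omega
    rw [e1] at hc
    obtain ⟨a, rfl⟩ : ∃ a, E = a + 2 := ⟨E - 2, by omega⟩
    have e2 : 3 * (a + 2) - 4 = 3 * a + 2 := by omega
    rw [e2] at h2
    -- over the integers
    zify at *
    have s1 : (3 * (p : ℤ) * (a + 2) - j) ≤ N - j := by linarith
    have s0 : (0 : ℤ) < 3 * p * (a + 2) - j := by nlinarith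
    have s2 : ((Y : ℤ) + 1 + d) * (N - j) ≤ X - j * Y := by linarith
    have s3 : (X : ℤ) * (3 * p * (a + 2) - j) ≤ 4 * p * ((Y : ℤ) + 1 + d) * (3 * p * (a + 2) - j) :=
      mul_le_mul_of_nonneg_right hXy.le s0.le
    have s4 : ((Y : ℤ) + 1 + d) * (3 * p * (a + 2) - j) ≤ ((Y : ℤ) + 1 + d) * (N - j) :=
      mul_le_mul_of_nonneg_left s1 (by positivity)
    have s5 : (X : ℤ) * (3 * p * (a + 2) - j) ≤ 4 * p * (X - j * Y) := by
      calc (X : ℤ) * (3 * p * (a + 2) - j) ≤ 4 * p * (((Y : ℤ) + 1 + d) * (3 * p * (a + 2) - j)) := by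
            rw [← mul_assoc]; exact s3
        _ ≤ 4 * p * (X - j * Y) := mul_le_mul_of_nonneg_left (s4.trans s2) (by positivity)
    have hX0 : (0 : ℤ) < X := by
      have h5 : (0 : ℤ) < 3 * p * (a + 2) := by positivity
      have h6 : (0 : ℤ) < Y := by
        have := thm_Nm1.2.2.2.2.2 2 k
        have h7 : (k : ℤ) + 1 ≤ cf 2 k := by exact_mod_cast this
        linarith
      have h7 : (0 : ℤ) < N * Y := mul_pos (by linarith) h6
      linarith
    -- `X (3 a + 2) p ≤ j (X - 4 p Y)`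
    have s6 : (X : ℤ) * (p * (3 * a + 2)) ≤ j * (X - 4 * p * Y) := by linarith
    have s7 : (0 : ℤ) < X * (p * (3 * a + 2)) := by positivity
    have s8 : (0 : ℤ) < X - 4 * p * Y := by
      by_contra hcon
      push Not at hcon
      have := mul_nonpos_of_nonneg_of_nonpos (by positivity : (0 : ℤ) ≤ j) hcon
      linarith
    have s9 : (j : ℤ) * (X - 4 * p * Y) < p * D * (X - 4 * p * Y) := mul_lt_mul_of_pos_right hjD s8
    have s10 : (X : ℤ) * (3 * a + 2) < D * (X - 4 * p * Y) := by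
      have h5 : (p : ℤ) * (X * (3 * a + 2)) < p * (D * (X - 4 * p * Y)) := by linarith
      exact lt_of_mul_lt_mul_left h5 (by positivity)
    have hP0 : (0 : ℤ) < P := by
      by_contra hcon
      push Not at hcon
      have := mul_nonpos_of_nonneg_of_nonpos (by positivity : (0 : ℤ) ≤ p) hcon
      linarith
    have hD0 : (0 : ℤ) < D := by
      by_contra hcon
      have h5 : (0 : ℤ) ≤ D := by positivity
      have h6 : (D : ℤ) = 0 := by linarith
      rw [h6] at hjD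
      have : (0 : ℤ) ≤ j := by positivity
      linarith
    have s11 : (X : ℤ) * (3 * a + 2) * P < D * (X - 4 * p * Y) * P := mul_lt_mul_of_pos_right s10 hP0
    have s12 : (D : ℤ) * (4 * Y) * X ≤ D * (4 * Y) * (p * P) :=
      mul_le_mul_of_nonneg_left hXP.le (by positivity)
    have s13 : (D * P : ℤ) * X ≤ ((3 * a + 2) * P + 4 * (D * Y)) * X :=
      mul_le_mul_of_nonneg_right h2 hX0.le
    linarith
  · have h2 : p * (4 * w) ≤ p * (6 * E * Y) := Nat.mul_le_mul_left _ h1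
    have h3 : 3 * p * E * Y ≤ N * Y := Nat.mul_le_mul_right _ hN
    have h4 : p * (6 * E * Y) = 2 * (3 * p * E * Y) := by ring
    have h5 : 2 * p * (2 * w) = p * (4 * w) := by ring
    omega

end Pool.Agent.SNR
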