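import Pool.Agent.SNR.WSt

/-!
# SNR, module WB (helper91): numbers
-/

set_option autoImplicit false

noncomputable section

open Finset

namespace Pool.Agent.SNR

open Pool.Agent.SDG Pool.Agent.SBN

/-- the quarter of the square -/
theorem U_quarter (t : ℕ) : ∃ w r : ℕ, r ≤ 1 ∧ U t = 2 * w ∧ 4 * w + r = (t + 1) * (t + 1) ∧ cf 2 t = w + 1 ∧
    r = (t + 1) % 2 := by
  refine ⟨(t + 1) ^ 2 / 4, (t + 1) % 2, by omega, rfl, ?_, by rw [thm_Nm1.2.2.1]; ring, rfl⟩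
  rcases Nat.even_or_odd' (t + 1) with ⟨b, hb | hb⟩
  · rw [hb]
    have e : (2 * b) ^ 2 = 4 * (b * b) := by ring
    have e1 : 2 * b * (2 * b) = 4 * (b * b) := by ring
    rw [e, e1]
    omega
  · rw [hb]
    have e : (2 * b + 1) ^ 2 = 4 * (b * b + b) + 1 := by ring
    have e1 : (2 * b + 1) * (2 * b + 1) = 4 * (b * b + b) + 1 := by ring
    rw [e, e1]
    omega

theorem thm_WB : St_WB := by
  intro E k Y hE hk hY hkY
  obtain ⟨w1, r1, hr1, hU1, hw1, -, -⟩ := U_quarter (E + k)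
  obtain ⟨w2, r2, hr2, hU2, hw2, -, hr2'⟩ := U_quarter (E + 1)
  obtain ⟨w3, r3, hr3, -, hw3, hc3, -⟩ := U_quarter k
  rw [hU1, hU2]
  rcases Nat.lt_or_ge k 2 with h | h
  · obtain rfl : k = 1 := by omega
    have h1 : w1 = w2 := by omega
    subst h1
    nlinarith
  · have h1 : 2 * w1 ≤ w2 * (w3 + 1) := by
      obtain ⟨a, rfl⟩ : ∃ a, E = a + 3 := ⟨E - 3, by omega⟩
      obtain ⟨b, rfl⟩ : ∃ b, k = b + 2 := ⟨k - 2, by omega⟩
      have h2 : (a + 4) * (a + 6) ≤ 4 * w2 := by nlinarith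
      have h3 : (b + 3) * (b + 3) + 3 ≤ 4 * (w3 + 1) := by nlinarith
      have h4 : 4 * w1 ≤ (a + b + 6) * (a + b + 6) := by nlinarith
      have h5 : (a + 4) * (a + 6) * ((b + 3) * (b + 3) + 3) ≤ 4 * w2 * (4 * (w3 + 1)) :=
        Nat.mul_le_mul h2 h3
      have h6 : 8 * ((a + b + 6) * (a + b + 6)) ≤ (a + 4) * (a + 6) * ((b + 3) * (b + 3) + 3) := by
        have e : (a + 4) * (a + 6) * ((b + 3) * (b + 3) + 3) =
            8 * ((a + b + 6) * (a + b + 6)) + (a * a * (b * b) + 6 * (a * a * b) + 4 * (a * a) +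
              10 * (a * (b * b)) + 44 * (a * b) + 24 * a + 16 * (b * b) + 48 * b) := by ring
        rw [e]
        exact Nat.le_add_right _ _
      nlinarith
    rw [hc3] at hY
    calc 2 * (2 * w1) ≤ 2 * (w2 * (w3 + 1)) := Nat.mul_le_mul_left _ h1
      _ = 2 * w2 * (w3 + 1) := by ring
      _ ≤ _ := Nat.mul_le_mul_left _ hY

end Pool.Agent.SNR
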