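import Pool.Agent.SNR.WSt

/-!
# SNR, module WC (helper64): numbers, three members in a class of the quotient
-/

set_option autoImplicit false

noncomputable section

open Finset Pool.Agent.Helper64.Rho
open scoped Classical Pointwise

namespace Pool.Agent.SNR

open Pool.Agent.SDG Pool.Agent.SNW Pool.Agent.SBN

/-- the three inequalities, without `p`, `N`, `X`, `j` -/
theorem WC_red (p W N X Y y j μ Z P D : ℕ) (hp : 1 ≤ p) (hDP : D ≤ P) (hYy : Y + 1 ≤ y) (hY : 1 ≤ Y)
    (hW : 1 ≤ W) (h1 : p * W ≤ N) (h2 : N * Y ≤ X) (h3 : X < p * P) (h4 : y * N ≤ X + j * (y - Y))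
    (h5 : j + p * (P - D) ≤ X) (hZ : 4 ≤ Z) (hμ : Z + 1 ≤ μ)
    (h6 : (μ - 2) * X < 2 * (j * (y - Y)) + 2 * (y * (j / Y) * (μ - Z))) :
    W * Y < P ∧ y * W < P + D * (y - Y) ∧
      (Y * P < 2 * y * D ∨ 3 * (Y * P) < 2 * D * ((y - Y) * Y + y)) := by
  obtain ⟨e, rfl⟩ : ∃ e, y = Y + e := ⟨y - Y, by omega⟩
  rw [Nat.add_sub_cancel_left] at h4 h6 ⊢
  obtain ⟨Q, rfl⟩ : ∃ Q, P = D + Q := ⟨P - D, by omega⟩
  rw [Nat.add_sub_cancel_left] at h5
  have hX0 : 0 < X := by
    have h7 : 1 * 1 ≤ p * W := Nat.mul_le_mul hp hW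
    have h8 : 1 * 1 ≤ N * Y := Nat.mul_le_mul (by omega) hY
    omega
  have hjD : j ≤ p * D := by
    rw [mul_add] at h3
    omega
  have hjP : j * (D + Q) ≤ X * D := by
    have h7 : j * D + p * Q * D ≤ X * D := by
      rw [← add_mul]
      exact Nat.mul_le_mul_right _ h5
    have h8 : j * Q ≤ p * D * Q := Nat.mul_le_mul_right _ hjD
    have h9 : p * Q * D = p * D * Q := by ring
    rw [mul_add]
    omega
  refine ⟨?_, ?_, ?_⟩
  · have h7 : p * W * Y ≤ N * Y := Nat.mul_le_mul_right _ h1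
    have h8 : p * (W * Y) < p * (D + Q) := by
      calc p * (W * Y) = p * W * Y := by ring
        _ ≤ X := h7.trans h2
        _ < _ := h3
    exact Nat.lt_of_mul_lt_mul_left h8
  · have h7 : (Y + e) * (p * W) ≤ (Y + e) * N := Nat.mul_le_mul_left _ h1
    have h8 : j * e ≤ p * D * e := Nat.mul_le_mul_right _ hjD
    have h9 : p * ((Y + e) * W) < p * (D + Q + D * e) := by
      calc p * ((Y + e) * W) = (Y + e) * (p * W) := by ring
        _ ≤ X + j * e := h7.trans h4
        _ < p * (D + Q) + p * D * e := by omega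
        _ = _ := by ring
    exact Nat.lt_of_mul_lt_mul_left h9
  · have hdiv : j / Y * Y ≤ j := Nat.div_mul_le_self j Y
    by_cases h7 : X < 2 * ((Y + e) * (j / Y))
    · left
      have h8 : X * Y < 2 * ((Y + e) * (j / Y)) * Y := Nat.mul_lt_mul_of_pos_right h7 (by omega)
      have h9 : X * (Y * (D + Q)) < X * (2 * (Y + e) * D) := by
        calc X * (Y * (D + Q)) = X * Y * (D + Q) := by ring
          _ < 2 * ((Y + e) * (j / Y)) * Y * (D + Q) := Nat.mul_lt_mul_of_pos_right h8 (by
              by_contra hcon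
              have h9 : D + Q = 0 := by omega
              rw [h9, mul_zero] at h3
              omega)
          _ = 2 * (Y + e) * (j / Y * Y * (D + Q)) := by ring
          _ ≤ 2 * (Y + e) * (j * (D + Q)) := Nat.mul_le_mul_left _ (Nat.mul_le_mul_right _ hdiv)
          _ ≤ 2 * (Y + e) * (X * D) := Nat.mul_le_mul_left _ hjP
          _ = _ := by ring
      exact Nat.lt_of_mul_lt_mul_left h9
    · right
      push Not at h7
      obtain ⟨ν, rfl⟩ : ∃ ν, μ = ν + 5 := ⟨μ - 5, by omega⟩
      have h8 : (Y + e) * (j / Y) * (ν + 5 - Z) ≤ (Y + e) * (j / Y) * (ν + 1) :=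
        Nat.mul_le_mul_left _ (by omega)
      have h9 : ν + 5 - 2 = ν + 3 := by omega
      rw [h9] at h6
      have h10 : ν * (2 * ((Y + e) * (j / Y))) ≤ ν * X := Nat.mul_le_mul_left _ h7
      have h11 : 3 * X < 2 * (j * e) + 2 * ((Y + e) * (j / Y)) := by nlinarith
      have h12 : 3 * X * Y < (2 * (j * e) + 2 * ((Y + e) * (j / Y))) * Y :=
        Nat.mul_lt_mul_of_pos_right h11 (by omega)
      have h13 : (2 * (j * e) + 2 * ((Y + e) * (j / Y))) * Y ≤ 2 * (j * (e * Y + (Y + e))) := by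
        calc (2 * (j * e) + 2 * ((Y + e) * (j / Y))) * Y
            = 2 * (j * (e * Y)) + 2 * ((Y + e) * (j / Y * Y)) := by ring
          _ ≤ 2 * (j * (e * Y)) + 2 * ((Y + e) * j) :=
              Nat.add_le_add_left (Nat.mul_le_mul_left _ (Nat.mul_le_mul_left _ hdiv)) _
          _ = _ := by ring
      have hP0 : 0 < D + Q := by
        by_contra hcon
        have h9 : D + Q = 0 := by omega
        rw [h9, mul_zero] at h3
        omega
      have h14 : X * (3 * (Y * (D + Q))) < X * (2 * D * (e * Y + (Y + e))) := by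
        calc X * (3 * (Y * (D + Q))) = 3 * X * Y * (D + Q) := by ring
          _ < 2 * (j * (e * Y + (Y + e))) * (D + Q) :=
              Nat.mul_lt_mul_of_pos_right (lt_of_lt_of_le h12 h13) hP0
          _ = 2 * (e * Y + (Y + e)) * (j * (D + Q)) := by ring
          _ ≤ 2 * (e * Y + (Y + e)) * (X * D) := Nat.mul_le_mul_left _ hjP
          _ = _ := by ring
      exact Nat.lt_of_mul_lt_mul_left h14

theorem WC_core (s D k Y y E : ℤ) (hD : (D = 4 * s - 4 ∧ E + k = 2 * s - 2) ∨ (D = 4 * s ∧ E + k = 2 * s - 1))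
    (hE : 5 ≤ E) (hk : 1 ≤ k) (hY : k + 1 ≤ Y) (hc : (k + 1) ^ 2 + 3 ≤ 4 * Y) (hYy : Y + 1 ≤ y)
    (h1 : (4 * E - 2) * Y < D * s) (h2 : y * (4 * E - 2) < D * s + D * (y - Y))
    (h3 : s * Y < 2 * y ∨ 3 * (s * Y) < 2 * ((y - Y) * Y + y)) :
    D = 4 * s ∧ s = 4 ∧ (k = 2 ∨ (k = 1 ∧ 4 ≤ y)) := by
  have hs4 : 4 ≤ s := by rcases hD with ⟨-, h⟩ | ⟨-, h⟩ <;> omega
  have hD4 : D ≤ 4 * s := by rcases hD with ⟨h, -⟩ | ⟨h, -⟩ <;> omega
  have hD0 : 0 < D := by rcases hD with ⟨h, -⟩ | ⟨h, -⟩ <;> omega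
  have hWD : 4 * E - 2 = D + (4 * s - 4 * k - 6) := by
    rcases hD with ⟨h, h'⟩ | ⟨h, h'⟩ <;> omega
  rcases le_or_gt (s - 1) k with hks | hks
  · exfalso
    have h4 : s * s ≤ (k + 1) ^ 2 := by nlinarith
    have h5 : 18 * Y ≤ (4 * E - 2) * Y := mul_le_mul_of_nonneg_right (by linarith) (by linarith)
    have h6 : D * s ≤ 4 * s * s := mul_le_mul_of_nonneg_right hD4 (by linarith)
    nlinarith
  · have hB2 : 2 ≤ 4 * s - 4 * k - 6 := by omega
    obtain ⟨B, hB⟩ : ∃ B, B = 4 * s - 4 * k - 6 := ⟨_, rfl⟩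
    rw [← hB] at hB2 hWD
    rw [hWD] at h2
    have h2' : y * B < D * (s - Y) := by nlinarith
    have hv : 1 ≤ s - Y := by
      by_contra hcon
      push Not at hcon
      have h4 : D * (s - Y) ≤ 0 := mul_nonpos_of_nonneg_of_nonpos hD0.le (by linarith)
      have h5 : 0 < y * B := by
        have : 0 < y := by linarith
        have : 0 < B := by linarith
        positivity
      linarith
    obtain ⟨v, hvd⟩ : ∃ v, v = s - Y := ⟨_, rfl⟩
    rw [← hvd] at hv h2'
    have hBv : 4 * v - 2 ≤ B := by omega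
    have hDv : D * v ≤ 4 * s * v := mul_le_mul_of_nonneg_right hD4 (by linarith)
    rcases h3 with h3 | h3
    · -- (a)
      have h4 : s * (B * Y) < s * (8 * v) := by
        have h5 : B * (s * Y) < B * (2 * y) := mul_lt_mul_of_pos_left h3 (by linarith)
        nlinarith
      have h5 : B * Y < 8 * v := lt_of_mul_lt_mul_left h4 (by linarith)
      have h6 : (4 * v - 2) * Y ≤ B * Y := mul_le_mul_of_nonneg_right hBv (by linarith)
      have hY3 : Y ≤ 3 := by
        by_contra hcon
        push Not at hcon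
        have h7 : (4 * v - 2) * 4 ≤ (4 * v - 2) * Y := mul_le_mul_of_nonneg_left (by omega) (by linarith)
        linarith
      have hY23 : Y = 2 ∨ Y = 3 := by omega
      rcases hY23 with rfl | rfl
      · have hk1 : k = 1 := by omega
        subst hk1
        have hys : s + 1 ≤ y := by omega
        have hB' : B = 4 * s - 10 := by omega
        have hv' : v = s - 2 := by omega
        subst hB' hv'
        have h7 : (s + 1) * (4 * s - 10) ≤ y * (4 * s - 10) :=
          mul_le_mul_of_nonneg_right hys (by linarith)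
        rcases hD with ⟨rfl, -⟩ | ⟨rfl, -⟩
        · exfalso
          nlinarith
        · have h8 : s ≤ 4 := by nlinarith
          refine ⟨rfl, by omega, Or.inr ⟨rfl, by omega⟩⟩
      · have hv1 : v = 1 := by omega
        have hs : s = 4 := by omega
        subst hv1 hs
        have hk2 : k = 2 := by omega
        subst hk2
        rcases hD with ⟨rfl, h⟩ | ⟨rfl, h⟩
        · omega
        · exact ⟨by norm_num, rfl, Or.inl rfl⟩
    · -- (b)
      have h4 : B * (3 * (s * Y) + 2 * Y ^ 2) < 8 * s * (Y + 1) * v := by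
        have h5 : B * (3 * (s * Y)) < B * (2 * ((y - Y) * Y + y)) :=
          mul_lt_mul_of_pos_left h3 (by linarith)
        have h6 : 2 * (Y + 1) * (y * B) < 2 * (Y + 1) * (D * v) :=
          mul_lt_mul_of_pos_left h2' (by linarith)
        have h7 : 2 * (Y + 1) * (D * v) ≤ 2 * (Y + 1) * (4 * s * v) :=
          mul_le_mul_of_nonneg_left hDv (by linarith)
        nlinarith
      have hs' : s = Y + v := by omega
      have h5 : (4 * v - 2) * (3 * (s * Y) + 2 * Y ^ 2) ≤ B * (3 * (s * Y) + 2 * Y ^ 2) := by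
        refine mul_le_mul_of_nonneg_right hBv ?_
        have : 0 ≤ s := by linarith
        have : 0 ≤ Y := by linarith
        positivity
      rcases eq_or_lt_of_le hv with hv1 | hv1
      · -- v = 1
        have hv1' : v = 1 := hv1.symm
        subst hv1'
        have hY5 : Y ≤ 5 := by
          by_contra hcon
          push Not at hcon
          obtain ⟨i, rfl⟩ : ∃ i, Y = 6 + i := ⟨Y - 6, by ring⟩
          have hi : 0 ≤ i := by omega
          rw [hs'] at h4 h5
          nlinarith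
        have hY3 : 3 ≤ Y := by omega
        have : Y = 3 ∨ Y = 4 ∨ Y = 5 := by omega
        rcases this with rfl | rfl | rfl
        · have hs : s = 4 := by omega
          subst hs
          have hk2 : k = 2 := by omega
          subst hk2
          rcases hD with ⟨rfl, h⟩ | ⟨rfl, h⟩
          · omega
          · exact ⟨by norm_num, rfl, Or.inl rfl⟩
        · have hs : s = 5 := by omega
          subst hs
          exfalso
          have hk3 : 3 ≤ k := by omega
          nlinarith
        · have hs : s = 6 := by omega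
          subst hs
          exfalso
          have hk4 : 4 ≤ k := by omega
          nlinarith
      · exfalso
        obtain ⟨i, rfl⟩ : ∃ i, Y = 2 + i := ⟨Y - 2, by ring⟩
        obtain ⟨w, rfl⟩ : ∃ w, v = 2 + w := ⟨v - 2, by ring⟩
        have hi : 0 ≤ i := by omega
        have hw : 0 ≤ w := by omega
        rw [hs'] at h4 h5
        nlinarith [mul_nonneg hi hw, mul_nonneg hi hi, mul_nonneg hw hw,
          mul_nonneg (mul_nonneg hi hi) hw, mul_nonneg (mul_nonneg hi hw) hw]

theorem U_two (b : ℕ) : U (2 * b) = 2 * (b * (b + 1)) := by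
  unfold U
  have h1 : (2 * b + 1) ^ 2 = 4 * (b * (b + 1)) + 1 := by ring
  rw [h1]
  omega

theorem U_two' (b : ℕ) : U (2 * b + 1) = 2 * ((b + 1) * (b + 1)) := by
  unfold U
  have h1 : (2 * b + 1 + 1) ^ 2 = 4 * ((b + 1) * (b + 1)) := by ring
  rw [h1]
  omega

/-- **WC.** -/
theorem thm_WC : St_WC := by
  intro p E k τ N X Y y j μ Z hp hE hk hEk hYc hY hYy hN hNY hX hyN hj hZ hμ hD
  have hc : (k + 1) ^ 2 + 3 ≤ 4 * Y := by
    have h1 := thm_Nm1.2.2.1 k
    rw [h1] at hYc
    rcases Nat.even_or_odd' (k + 1) with ⟨b, hb | hb⟩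
    · have h2 : (k + 1) ^ 2 = 4 * (b * b) := by rw [hb]; ring
      rw [h2] at hYc ⊢
      omega
    · have h2 : (k + 1) ^ 2 = 4 * (b * b + b) + 1 := by rw [hb]; ring
      rw [h2] at hYc ⊢
      omega
  rcases Nat.even_or_odd' τ with ⟨b, hb | hb⟩
  · obtain ⟨a, rfl⟩ : ∃ a, b = a + 1 := ⟨b - 1, by omega⟩
    have e1 : τ - 1 = 2 * a + 1 := by omega
    have u1 : 2 * p * U τ = p * (4 * (a + 1) * (a + 2)) := by
      rw [hb, U_two]
      ring
    have u2 : 2 * p * U (τ - 1) = p * (4 * (a + 1) * (a + 2) - 4 * (a + 1)) := by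
      rw [e1, U_two']
      have : 4 * (a + 1) * (a + 2) - 4 * (a + 1) = 4 * (a + 1) * (a + 1) := by
        have h1 : 4 * (a + 1) * (a + 2) = 4 * (a + 1) * (a + 1) + 4 * (a + 1) := by ring
        omega
      rw [this]
      ring
    rw [u1] at hX
    rw [u2] at hj
    obtain ⟨g1, g2, g3⟩ := WC_red p (4 * E - 2) N X Y y j μ Z (4 * (a + 1) * (a + 2)) (4 * (a + 1)) hp
      (by nlinarith) hYy (by omega) (by omega) hN hNY hX hyN hj hZ hμ hD
    exfalso
    have := WC_core ((a : ℤ) + 2) (4 * ((a : ℤ) + 1)) k Y y E (Or.inl ⟨by ring, by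
        have : ((E + k : ℕ) : ℤ) = ((2 * (a + 1) : ℕ) : ℤ) := by rw [hEk, hb]
        push_cast at this
        linarith⟩) (by exact_mod_cast hE) (by exact_mod_cast hk) (by exact_mod_cast hY)
      (by exact_mod_cast hc) (by exact_mod_cast hYy)
      (by
        have h1 : (((4 * E - 2) * Y : ℕ) : ℤ) < ((4 * (a + 1) * (a + 2) : ℕ) : ℤ) := by exact_mod_cast g1
        push_cast [Nat.cast_sub (show 2 ≤ 4 * E by omega)] at h1
        linarith)
      (by
        have h1 : ((y * (4 * E - 2) : ℕ) : ℤ) < ((4 * (a + 1) * (a + 2) + 4 * (a + 1) * (y - Y) : ℕ) : ℤ) := by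
          exact_mod_cast g2
        push_cast [Nat.cast_sub (show 2 ≤ 4 * E by omega), Nat.cast_sub (show Y ≤ y by omega)] at h1
        linarith)
      (by
        rcases g3 with g3 | g3
        · left
          have h1 : ((Y * (4 * (a + 1) * (a + 2)) : ℕ) : ℤ) < ((2 * y * (4 * (a + 1)) : ℕ) : ℤ) := by
            exact_mod_cast g3
          push_cast at h1
          have h2 : 4 * ((a : ℤ) + 1) * (((a : ℤ) + 2) * Y) < 4 * ((a : ℤ) + 1) * (2 * y) := by linarith
          exact lt_of_mul_lt_mul_left h2 (by positivity)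
        · right
          have h1 : ((3 * (Y * (4 * (a + 1) * (a + 2))) : ℕ) : ℤ) <
              ((2 * (4 * (a + 1)) * ((y - Y) * Y + y) : ℕ) : ℤ) := by exact_mod_cast g3
          push_cast [Nat.cast_sub (show Y ≤ y by omega)] at h1
          have h2 : 4 * ((a : ℤ) + 1) * (3 * (((a : ℤ) + 2) * Y)) <
              4 * ((a : ℤ) + 1) * (2 * (((y : ℤ) - Y) * Y + y)) := by linarith
          exact lt_of_mul_lt_mul_left h2 (by positivity))
    obtain ⟨h1, -, -⟩ := this
    linarith
  · have e1 : τ - 1 = 2 * b := by omega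
    have u1 : 2 * p * U τ = p * (4 * (b + 1) * (b + 1)) := by
      rw [hb, U_two']
      ring
    have u2 : 2 * p * U (τ - 1) = p * (4 * (b + 1) * (b + 1) - 4 * (b + 1)) := by
      rw [e1, U_two]
      have : 4 * (b + 1) * (b + 1) - 4 * (b + 1) = 4 * (b * (b + 1)) := by
        have h1 : 4 * (b + 1) * (b + 1) = 4 * (b * (b + 1)) + 4 * (b + 1) := by ring
        omega
      rw [this]
      ring
    rw [u1] at hX
    rw [u2] at hj
    obtain ⟨g1, g2, g3⟩ := WC_red p (4 * E - 2) N X Y y j μ Z (4 * (b + 1) * (b + 1)) (4 * (b + 1)) hp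
      (by nlinarith) hYy (by omega) (by omega) hN hNY hX hyN hj hZ hμ hD
    have := WC_core ((b : ℤ) + 1) (4 * ((b : ℤ) + 1)) k Y y E (Or.inr ⟨by ring, by
        have : ((E + k : ℕ) : ℤ) = ((2 * b + 1 : ℕ) : ℤ) := by rw [hEk, hb]
        push_cast at this
        linarith⟩) (by exact_mod_cast hE) (by exact_mod_cast hk) (by exact_mod_cast hY)
      (by exact_mod_cast hc) (by exact_mod_cast hYy)
      (by
        have h1 : (((4 * E - 2) * Y : ℕ) : ℤ) < ((4 * (b + 1) * (b + 1) : ℕ) : ℤ) := by exact_mod_cast g1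
        push_cast [Nat.cast_sub (show 2 ≤ 4 * E by omega)] at h1
        linarith)
      (by
        have h1 : ((y * (4 * E - 2) : ℕ) : ℤ) < ((4 * (b + 1) * (b + 1) + 4 * (b + 1) * (y - Y) : ℕ) : ℤ) := by
          exact_mod_cast g2
        push_cast [Nat.cast_sub (show 2 ≤ 4 * E by omega), Nat.cast_sub (show Y ≤ y by omega)] at h1
        linarith)
      (by
        rcases g3 with g3 | g3
        · left
          have h1 : ((Y * (4 * (b + 1) * (b + 1)) : ℕ) : ℤ) < ((2 * y * (4 * (b + 1)) : ℕ) : ℤ) := by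
            exact_mod_cast g3
          push_cast at h1
          have h2 : 4 * ((b : ℤ) + 1) * (((b : ℤ) + 1) * Y) < 4 * ((b : ℤ) + 1) * (2 * y) := by linarith
          exact lt_of_mul_lt_mul_left h2 (by positivity)
        · right
          have h1 : ((3 * (Y * (4 * (b + 1) * (b + 1))) : ℕ) : ℤ) <
              ((2 * (4 * (b + 1)) * ((y - Y) * Y + y) : ℕ) : ℤ) := by exact_mod_cast g3
          push_cast [Nat.cast_sub (show Y ≤ y by omega)] at h1
          have h2 : 4 * ((b : ℤ) + 1) * (3 * (((b : ℤ) + 1) * Y)) <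
              4 * ((b : ℤ) + 1) * (2 * (((y : ℤ) - Y) * Y + y)) := by linarith
          exact lt_of_mul_lt_mul_left h2 (by positivity))
    obtain ⟨-, h2, h3⟩ := this
    have hb3 : b = 3 := by omega
    refine ⟨by omega, ?_⟩
    rcases h3 with h3 | ⟨h3, h4⟩
    · left
      exact_mod_cast h3
    · right
      exact ⟨by exact_mod_cast h3, by exact_mod_cast h4⟩

end Pool.Agent.SNR
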