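import Pool.Agent.SNR.WSt

/-!
# SNR, module WPair (helper22): rows through two members in one class
-/

set_option autoImplicit false

noncomputable section

open Finset Pool.Agent.Helper64.Rho
open scoped Classical Pointwise

namespace Pool.Agent.SNR

open Pool.Agent.SDG Pool.Agent.SNW Pool.Agent.SBN

section
variable {G H ι : Type} [AddCommGroup G] [AddCommGroup H]

/-- two different translates of an aperiodic set -/
theorem WP_two (U S : Finset G) (hU : Aper U) (a b w : G) (hab : a ≠ b)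
    (h1 : ∀ u ∈ U, w + a + u ∈ S) (h2 : ∀ u ∈ U, w + b + u ∈ S) : U.card + 1 ≤ S.card := by
  by_contra hcon
  have e1 : U.image (fun u => w + a + u) = S := by
    apply eq_of_subset_of_card_le
    · intro x hx
      obtain ⟨u, hu, rfl⟩ := mem_image.1 hx
      exact h1 u hu
    · rw [card_image_of_injective _ (add_right_injective (w + a))]
      omega
  apply hab
  rw [← sub_eq_zero]
  rw [← neg_eq_zero]
  apply hU
  intro u hu
  have h3 := h2 u hu
  rw [← e1] at h3
  obtain ⟨v, hv, hvu⟩ := mem_image.1 h3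
  have h4 : u + -(a - b) = v := by
    have h5 : w + a + v - (w + a) = w + b + u - (w + a) := by rw [hvu]
    have h6 : w + a + v - (w + a) = v := by abel
    have h7 : w + b + u - (w + a) = u + -(a - b) := by abel
    rw [h6, h7] at h5
    exact h5.symm
  rw [h4]
  exact hv

/-- the sums of a member outside and of sums of disjoint parts -/
theorem WP_mem (s : Finset ι) (f : ι → G) (R : AddSubgroup G) (i i' : ι) (hi : i ∈ s) (hi' : i' ∈ s)
    (hne : i ≠ i') (hiR : f i ∉ R) (hiR' : f i' ∉ R) (B : Finset ι)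
    (hB : B ⊆ ((s.filter fun i => f i ∉ R).erase i).erase i') (u : G)
    (hu : u ∈ FS (s.filter fun i => f i ∈ R) f) :
    ∑ k ∈ B, f k + u ∈ FS s f ∧ ∑ k ∈ B, f k + f i + u ∈ FS s f ∧ ∑ k ∈ B, f k + f i' + u ∈ FS s f ∧
      ∑ k ∈ B, f k + (f i + f i') + u ∈ FS s f := by
  obtain ⟨B', hB', rfl⟩ := mem_FS.1 hu
  have hd : Disjoint B B' := by
    rw [disjoint_left]
    intro k hk hk'
    have h1 := (mem_filter.1 (mem_of_mem_erase (mem_of_mem_erase (hB hk)))).2
    exact h1 (mem_filter.1 (hB' hk')).2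
  have hBs : B ∪ B' ⊆ s := by
    apply union_subset
    · intro k hk
      exact (mem_filter.1 (mem_of_mem_erase (mem_of_mem_erase (hB hk)))).1
    · exact hB'.trans (filter_subset _ _)
  have hi1 : i ∉ B ∪ B' := by
    intro h
    rcases mem_union.1 h with h | h
    · have h1 := hB h
      rw [mem_erase, mem_erase] at h1
      exact h1.2.1 rfl
    · exact hiR (mem_filter.1 (hB' h)).2
  have hi2 : i' ∉ B ∪ B' := by
    intro h
    rcases mem_union.1 h with h | h
    · have h1 := hB h
      rw [mem_erase] at h1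
      exact h1.1 rfl
    · exact hiR' (mem_filter.1 (hB' h)).2
  have hi3 : i ∉ insert i' (B ∪ B') := by
    rw [mem_insert]
    rintro (h | h)
    · exact hne h
    · exact hi1 h
  refine ⟨mem_FS.2 ⟨B ∪ B', hBs, ?_⟩, mem_FS.2 ⟨insert i (B ∪ B'), insert_subset hi hBs, ?_⟩,
    mem_FS.2 ⟨insert i' (B ∪ B'), insert_subset hi' hBs, ?_⟩,
    mem_FS.2 ⟨insert i (insert i' (B ∪ B')), insert_subset hi (insert_subset hi' hBs), ?_⟩⟩
  · rw [sum_union hd]
  · rw [sum_insert hi1, sum_union hd]
    abel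
  · rw [sum_insert hi2, sum_union hd]
    abel
  · rw [sum_insert hi3, sum_insert hi2, sum_union hd]
    abel

/-- the long rows -/
theorem WP_long (s : Finset ι) (f : ι → G) (R : AddSubgroup G) (π : G →+ H) (hk : ∀ x, π x = 0 ↔ x ∈ R)
    (hA : Aper (FS (s.filter fun i => f i ∈ R) f)) (i i' : ι) (hi : i ∈ s) (hi' : i' ∈ s)
    (hne : i ≠ i') (hiR : f i ∉ R) (hiR' : f i' ∉ R)
    (hor : (f i - f i' ∈ R ∧ f i ≠ f i') ∨ (f i + f i' ∈ R ∧ f i ≠ - f i')) :
    ∃ A' : Finset H, A' ⊆ (FS s f).image π ∧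
      A'.card = (FS (((s.filter fun i => f i ∉ R).erase i).erase i') (fun i => π (f i))).card ∧
      ∀ c ∈ A', (FS (s.filter fun i => f i ∈ R) f).card + 1 ≤ ((FS s f).filter fun x => π x = c).card := by
  have key : ∀ (a b : G) (d : H), a ≠ b → π a = d → π b = d →
      (∀ B : Finset ι, B ⊆ ((s.filter fun i => f i ∉ R).erase i).erase i' →
        ∀ u ∈ FS (s.filter fun i => f i ∈ R) f, ∑ k ∈ B, f k + a + u ∈ FS s f ∧ ∑ k ∈ B, f k + b + u ∈ FS s f) →
      ∃ A' : Finset H, A' ⊆ (FS s f).image π ∧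
        A'.card = (FS (((s.filter fun i => f i ∉ R).erase i).erase i') (fun i => π (f i))).card ∧
        ∀ c ∈ A', (FS (s.filter fun i => f i ∈ R) f).card + 1 ≤ ((FS s f).filter fun x => π x = c).card := by
    intro a b d hab ha hb hB
    refine ⟨(FS (((s.filter fun i => f i ∉ R).erase i).erase i') (fun i => π (f i))).image (fun c => c + d), ?_, ?_, ?_⟩
    · intro x hx
      obtain ⟨c, hc, rfl⟩ := mem_image.1 hx
      obtain ⟨B, hBs, rfl⟩ := mem_FS.1 hc
      refine mem_image.2 ⟨∑ k ∈ B, f k + a + 0, (hB B hBs 0 (zero_mem_FS _ _)).1, ?_⟩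
      rw [add_zero, map_add, ha, map_sum]
    · exact card_image_of_injective _ (add_left_injective d)
    · intro x hx
      obtain ⟨c, hc, rfl⟩ := mem_image.1 hx
      obtain ⟨B, hBs, rfl⟩ := mem_FS.1 hc
      refine WP_two _ _ hA a b (∑ k ∈ B, f k) hab (fun u hu => ?_) (fun u hu => ?_)
      · refine mem_filter.2 ⟨(hB B hBs u hu).1, ?_⟩
        have hu0 : π u = 0 := (hk u).2 (FS_subset_of_mem (fun k hk' => (mem_filter.1 hk').2) hu)
        rw [map_add, map_add, ha, map_sum, hu0, add_zero]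
      · refine mem_filter.2 ⟨(hB B hBs u hu).2, ?_⟩
        have hu0 : π u = 0 := (hk u).2 (FS_subset_of_mem (fun k hk' => (mem_filter.1 hk').2) hu)
        rw [map_add, map_add, hb, map_sum, hu0, add_zero]
  rcases hor with ⟨h1, h2⟩ | ⟨h1, h2⟩
  · refine key (f i) (f i') (π (f i)) h2 rfl ?_ fun B hB u hu => ?_
    · have h3 := (hk _).2 h1
      rw [map_sub, sub_eq_zero] at h3
      exact h3.symm
    · have h3 := WP_mem s f R i i' hi hi' hne hiR hiR' B hB u hu
      exact ⟨h3.2.1, h3.2.2.1⟩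
  · refine key 0 (f i + f i') 0 (fun h3 => h2 (eq_neg_of_add_eq_zero_left h3.symm)) (map_zero π) ((hk _).2 h1)
      fun B hB u hu => ?_
    have h3 := WP_mem s f R i i' hi hi' hne hiR hiR' B hB u hu
    refine ⟨?_, h3.2.2.2⟩
    rw [add_zero]
    exact h3.1

/-- every row has at least `Y` elements -/
theorem WP_row [Finite G] [Finite H] (s : Finset ι) (f : ι → G) (R : AddSubgroup G) (π : G →+ H) (hk : ∀ x, π x = 0 ↔ x ∈ R)
    (c : H) (hc : c ∈ (FS s f).image π) :
    (FS (s.filter fun i => f i ∈ R) f).card ≤ ((FS s f).filter fun x => π x = c).card := by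
  rw [← q_image s f hk] at hc
  obtain ⟨B, hB, rfl⟩ := mem_FS.1 hc
  rw [← card_image_of_injective (FS (s.filter fun i => f i ∈ R) f) (add_right_injective (∑ k ∈ B, f k))]
  refine card_le_card fun x hx => ?_
  obtain ⟨u, hu, rfl⟩ := mem_image.1 hx
  obtain ⟨B', hB', rfl⟩ := mem_FS.1 hu
  have hd : Disjoint B B' := by
    rw [disjoint_left]
    intro k hk1 hk2
    exact (mem_filter.1 (hB hk1)).2 (mem_filter.1 (hB' hk2)).2
  refine mem_filter.2 ⟨mem_FS.2 ⟨B ∪ B', union_subset (hB.trans (filter_subset _ _)) (hB'.trans (filter_subset _ _)), ?_⟩, ?_⟩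
  · rw [sum_union hd]
  · have hu0 : π (∑ k ∈ B', f k) = 0 := (hk _).2 (FS_subset_of_mem (fun k hk' => (mem_filter.1 hk').2) hu)
    rw [map_add, hu0, add_zero, map_sum]

end

theorem thm_WPair : St_WPair := by
  intro G ι _ _ s f R H _ _ π _ hk hA i hi i' hi' hne hiR hiR' hor
  have hAR : Aper (FS (s.filter fun i => f i ∈ R) f) := (all_Ba1 G ι f).2.1 _ _ (filter_subset _ _) hA
  obtain ⟨A', hA1, hA2, hA3⟩ := WP_long s f R π hk hAR i i' hi hi' hne hiR hiR' hor
  rw [← hA2, q_image s f hk]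
  have h1 : (FS s f).card = ∑ c ∈ (FS s f).image π, ((FS s f).filter fun x => π x = c).card :=
    card_eq_sum_card_image _ _
  rw [h1]
  calc ((FS s f).image π).card * (FS (s.filter fun i => f i ∈ R) f).card + A'.card
      = ∑ c ∈ (FS s f).image π, ((FS (s.filter fun i => f i ∈ R) f).card + (if c ∈ A' then 1 else 0)) := by
        rw [sum_add_distrib, sum_const, smul_eq_mul, ← card_filter]
        congr 2
        ext c
        rw [mem_filter]
        exact ⟨fun h => ⟨hA1 h, h⟩, fun h => h.2⟩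
    _ ≤ _ := by
        apply sum_le_sum
        intro c hc
        split_ifs with h
        · exact hA3 c h
        · exact WP_row s f R π hk c hc

end Pool.Agent.SNR
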