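import Pool.Agent.SNR.WPair

/-!
# SNR, module WRow (helper22): one member in `R`, full rows
-/

set_option autoImplicit false

noncomputable section

open Finset Pool.Agent.Helper64.Rho
open scoped Classical Pointwise

namespace Pool.Agent.SNR

open Pool.Agent.SDG Pool.Agent.SNW Pool.Agent.SBN

theorem thm_WRow : St_WRow := by
  intro G ι _ _ s f R H _ _ π _ hk hA i0 hi0 hR hin h3R i hi i' hi' hne hiR hiR' hor j hj
  have hAR : Aper (FS (s.filter fun i => f i ∈ R) f) := (all_Ba1 G ι f).2.1 _ _ (filter_subset _ _) hA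
  obtain ⟨A', hA1, hA2, hA3⟩ := WP_long s f R π hk hAR i i' hi hi' hne hiR hiR' hor
  have hrow := WP_row s f R π hk
  have hY : 2 ≤ (FS (s.filter fun i => f i ∈ R) f).card := by
    have h1 := (all_Sm G ι (s.filter fun i => f i ∈ R) f ?_ hAR).1
    · rw [hin, card_singleton] at h1
      rw [hin]
      exact h1
    · intro k hk' h0
      rw [hin, mem_singleton] at hk'
      subst hk'
      rw [h0, AddSubgroup.zmultiples_zero_eq_bot] at hR
      rw [hR, AddSubgroup.card_bot] at h3R
      omega
  rw [← hA2, q_image s f hk]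
  obtain ⟨T, hT⟩ : ∃ T, T = FS s f := ⟨_, rfl⟩
  rw [← hT] at hA1 hA3 hrow hj ⊢
  have h1 : T.card = ∑ c ∈ T.image π, (T.filter fun x => π x = c).card :=
    card_eq_sum_card_image _ _
  -- full rows
  obtain ⟨Q, hQ⟩ : ∃ Q, Q = (T.image π).filter fun c => ∀ x ∈ T, π x = c → x + f i0 ∈ T := ⟨_, rfl⟩
  have hQ1 : ∀ c ∈ Q, Nat.card R ≤ (T.filter fun x => π x = c).card := by
    intro c hc
    rw [hQ] at hc
    obtain ⟨hc1, hc2⟩ := mem_filter.1 hc
    obtain ⟨x, hx, rfl⟩ := mem_image.1 hc1
    have hf0 : π (f i0) = 0 := by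
      rw [hk, hR]
      exact AddSubgroup.mem_zmultiples _
    have h2 : ∀ n : ℕ, x + n • f i0 ∈ T ∧ π (x + n • f i0) = π x := by
      intro n
      induction n with
      | zero => exact ⟨by rw [zero_smul, add_zero]; exact hx, by rw [zero_smul, add_zero]⟩
      | succ n ih =>
        have e : x + (n + 1) • f i0 = x + n • f i0 + f i0 := by
          rw [succ_nsmul]
          abel
        rw [e]
        exact ⟨hc2 _ ih.1 ih.2, by rw [map_add, hf0, add_zero]; exact ih.2⟩
    obtain ⟨RF, hRF, hRc⟩ := fin_exists R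
    rw [← hRc, ← card_image_of_injective RF (add_right_injective x)]
    refine card_le_card fun y hy => ?_
    obtain ⟨g, hg, rfl⟩ := mem_image.1 hy
    have hg1 : g ∈ R := (hRF g).1 hg
    rw [hR] at hg1
    rw [← mem_multiples_iff_mem_zmultiples] at hg1
    obtain ⟨n, rfl⟩ := AddSubmonoid.mem_multiples_iff _ _ |>.1 hg1
    exact mem_filter.2 ⟨(h2 n).1, (h2 n).2⟩
  -- the other rows
  have hQ2 : (T.image π).card ≤ Q.card + j := by
    have h2 : ((T.image π).filter fun c => ¬ ∀ x ∈ T, π x = c → x + f i0 ∈ T).card ≤ j := by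
      refine le_trans ?_ hj
      unfold lam
      have h3 : ((T.image π).filter fun c => ¬ ∀ x ∈ T, π x = c → x + f i0 ∈ T) ⊆
          (T.filter fun b => b + f i0 ∉ T).image π := by
        intro c hc
        obtain ⟨-, hc2⟩ := mem_filter.1 hc
        push Not at hc2
        obtain ⟨x, hx, hxc, hx2⟩ := hc2
        exact mem_image.2 ⟨x, mem_filter.2 ⟨hx, hx2⟩, hxc⟩
      exact (card_le_card h3).trans card_image_le
    have h3 : Q.card + ((T.image π).filter fun c => ¬ ∀ x ∈ T, π x = c → x + f i0 ∈ T).card = (T.image π).card := by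
      rw [hQ]
      exact card_filter_add_card_filter_not _
    omega
  have hQs : Q ⊆ T.image π := by
    rw [hQ]
    exact filter_subset _ _
  rw [h1]
  calc 2 * (T.image π).card + A'.card + (Nat.card R - 3) * ((T.image π).card - j)
      ≤ 2 * (T.image π).card + A'.card + (Nat.card R - 3) * Q.card :=
        Nat.add_le_add_left (Nat.mul_le_mul_left _ (by omega)) _
    _ = ∑ c ∈ T.image π, (2 + (if c ∈ A' then 1 else 0) + (Nat.card R - 3) * (if c ∈ Q then 1 else 0)) := by
        rw [sum_add_distrib, sum_add_distrib, sum_const, smul_eq_mul, ← mul_sum, ← card_filter, ← card_filter]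
        have e1 : ((T.image π).filter fun c => c ∈ A') = A' := by
          ext c
          rw [mem_filter]
          exact ⟨fun h => h.2, fun h => ⟨hA1 h, h⟩⟩
        have e2 : ((T.image π).filter fun c => c ∈ Q) = Q := by
          ext c
          rw [mem_filter]
          exact ⟨fun h => h.2, fun h => ⟨hQs h, h⟩⟩
        rw [e1, e2, mul_comm 2]
    _ ≤ _ := by
        apply sum_le_sum
        intro c hc
        have r1 := hrow c hc
        by_cases hcQ : c ∈ Q
        · have r2 := hQ1 c hcQ
          rw [if_pos hcQ, mul_one]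
          split_ifs <;> omega
        · rw [if_neg hcQ, mul_zero, add_zero]
          split_ifs with h
          · have r2 := hA3 c h
            omega
          · omega

end Pool.Agent.SNR
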