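import Mathlib

/-!
# SNR, part Ga: the lemma of Gaschuetz for finite abelian groups (offer 16513, helper81)
-/

set_option autoImplicit false

noncomputable section

open Finset
open scoped Classical

namespace Pool.Agent.SNR

variable {G : Type} [AddCommGroup G] [Finite G]

/-- the families congruent to `x` modulo `N` with members in `C` -/
private def GaT (N C : AddSubgroup G) {R : ℕ} (x : Fin R → G) : Finset (Fin R → G) :=
  (Set.toFinite {c : Fin R → G | (∀ i, c i - x i ∈ N) ∧ AddSubgroup.closure (Set.range c) ≤ C}).toFinset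

/-- the families congruent to `x` modulo `N` which generate `C` -/
private def GaL (N C : AddSubgroup G) {R : ℕ} (x : Fin R → G) : Finset (Fin R → G) :=
  (Set.toFinite {c : Fin R → G | (∀ i, c i - x i ∈ N) ∧ AddSubgroup.closure (Set.range c) = C}).toFinset

private theorem Ga_memT {N C : AddSubgroup G} {R : ℕ} {x c : Fin R → G} :
    c ∈ GaT N C x ↔ (∀ i, c i - x i ∈ N) ∧ AddSubgroup.closure (Set.range c) ≤ C := by
  unfold GaT
  rw [Set.Finite.mem_toFinset]
  exact Iff.rfl

private theorem Ga_memL {N C : AddSubgroup G} {R : ℕ} {x c : Fin R → G} :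
    c ∈ GaL N C x ↔ (∀ i, c i - x i ∈ N) ∧ AddSubgroup.closure (Set.range c) = C := by
  unfold GaL
  rw [Set.Finite.mem_toFinset]
  exact Iff.rfl

private theorem Ga_le {C : AddSubgroup G} {R : ℕ} {c : Fin R → G} :
    AddSubgroup.closure (Set.range c) ≤ C ↔ ∀ i, c i ∈ C := by
  rw [AddSubgroup.closure_le]
  constructor
  · intro h i
    exact h ⟨i, rfl⟩
  · rintro h _ ⟨i, rfl⟩
    exact h i

/-- the number of the families in `C` does not grow -/
private theorem Ga_T_le (N C : AddSubgroup G) {R : ℕ} (x x' : Fin R → G)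
    (hx : N ⊔ AddSubgroup.closure (Set.range x) = ⊤) :
    (GaT N C x).card ≤ (GaT N C x').card := by
  by_cases hC : C ⊔ N = ⊤
  · have hbase : ∀ z : Fin R → G, ∃ c ∈ GaT N C z, True := by
      intro z
      have h1 : ∀ i, ∃ c ∈ C, c - z i ∈ N := by
        intro i
        have h2 : z i ∈ C ⊔ N := by
          rw [hC]
          exact AddSubgroup.mem_top _
        obtain ⟨c, hc, n, hn, hcn⟩ := AddSubgroup.mem_sup.1 h2
        refine ⟨c, hc, ?_⟩
        have h3 : c - z i = -n := by
          rw [← hcn]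
          abel
        rw [h3]
        exact N.neg_mem hn
      choose c hc hcz using h1
      exact ⟨c, Ga_memT.2 ⟨hcz, Ga_le.2 hc⟩, trivial⟩
    obtain ⟨a, ha, -⟩ := hbase x
    obtain ⟨a', ha', -⟩ := hbase x'
    obtain ⟨ha1, ha2⟩ := Ga_memT.1 ha
    obtain ⟨ha1', ha2'⟩ := Ga_memT.1 ha'
    rw [Ga_le] at ha2 ha2'
    refine Finset.card_le_card_of_injOn (fun c => c - a + a') ?_ ?_
    · intro c hc
      obtain ⟨hc1, hc2⟩ := Ga_memT.1 (Finset.mem_coe.1 hc)
      rw [Ga_le] at hc2
      refine Finset.mem_coe.2 (Ga_memT.2 ⟨fun i => ?_, Ga_le.2 fun i => ?_⟩)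
      · have h1 : (c - a + a') i - x' i = (c i - x i) - (a i - x i) + (a' i - x' i) := by
          simp only [Pi.add_apply, Pi.sub_apply]
          abel
        rw [h1]
        exact N.add_mem (N.sub_mem (hc1 i) (ha1 i)) (ha1' i)
      · exact C.add_mem (C.sub_mem (hc2 i) (ha2 i)) (ha2' i)
    · intro c _ d _ hcd
      have h1 : c - a + a' = d - a + a' := hcd
      exact sub_left_injective (add_right_cancel h1)
  · have h0 : GaT N C x = ∅ := by
      rw [Finset.eq_empty_iff_forall_notMem]
      intro c hc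
      obtain ⟨hc1, hc2⟩ := Ga_memT.1 hc
      rw [Ga_le] at hc2
      apply hC
      rw [eq_top_iff, ← hx]
      refine sup_le le_sup_right ?_
      rw [Ga_le]
      intro i
      have h1 : x i = c i - (c i - x i) := by abel
      rw [h1]
      exact AddSubgroup.sub_mem _ (AddSubgroup.mem_sup_left (hc2 i)) (AddSubgroup.mem_sup_right (hc1 i))
    rw [h0, Finset.card_empty]
    exact Nat.zero_le _

/-- the families in `C` and the groups they generate -/
private theorem Ga_sum [Fintype (AddSubgroup G)] (N C : AddSubgroup G) {R : ℕ} (x : Fin R → G) :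
    (GaT N C x).card = ∑ D ∈ Finset.univ.filter (fun D : AddSubgroup G => D < C), (GaL N D x).card +
      (GaL N C x).card := by
  have h1 := Finset.card_eq_sum_card_fiberwise (f := fun c : Fin R → G => AddSubgroup.closure (Set.range c))
    (s := GaT N C x) (t := Finset.univ.filter (fun D : AddSubgroup G => D ≤ C)) (by
      intro c hc
      rw [Finset.mem_coe] at hc
      rw [Finset.mem_coe, Finset.mem_filter]
      exact ⟨Finset.mem_univ _, (Ga_memT.1 hc).2⟩)
  have h2 : ∀ D ∈ Finset.univ.filter (fun D : AddSubgroup G => D ≤ C),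
      ((GaT N C x).filter (fun c => AddSubgroup.closure (Set.range c) = D)).card = (GaL N D x).card := by
    intro D hD
    congr 1
    ext c
    rw [Finset.mem_filter, Ga_memT, Ga_memL]
    constructor
    · rintro ⟨⟨h3, -⟩, h4⟩
      exact ⟨h3, h4⟩
    · rintro ⟨h3, h4⟩
      refine ⟨⟨h3, ?_⟩, h4⟩
      rw [h4]
      exact (Finset.mem_filter.1 hD).2
  rw [Finset.sum_congr rfl h2] at h1
  have h3 : Finset.univ.filter (fun D : AddSubgroup G => D ≤ C) =
      insert C (Finset.univ.filter (fun D : AddSubgroup G => D < C)) := by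
    ext D
    rw [Finset.mem_filter, Finset.mem_insert, Finset.mem_filter]
    constructor
    · rintro ⟨-, h⟩
      rcases eq_or_lt_of_le h with h | h
      · exact Or.inl h
      · exact Or.inr ⟨Finset.mem_univ _, h⟩
    · rintro (h | ⟨-, h⟩)
      · exact ⟨Finset.mem_univ _, le_of_eq h⟩
      · exact ⟨Finset.mem_univ _, le_of_lt h⟩
  rw [h3, Finset.sum_insert (by
    rw [Finset.mem_filter]
    rintro ⟨-, h⟩
    exact lt_irrefl _ h)] at h1
  rw [h1, add_comm]

/-- **the lemma of Gaschuetz** for finite abelian groups -/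
theorem gaschutz (N : AddSubgroup G) (R : ℕ) (y : Fin R → G)
    (hy : AddSubgroup.closure (Set.range y) = ⊤) (x : Fin R → G)
    (hx : N ⊔ AddSubgroup.closure (Set.range x) = ⊤) :
    ∃ c : Fin R → G, (∀ i, c i - x i ∈ N) ∧ AddSubgroup.closure (Set.range c) = ⊤ := by
  have hF : Fintype (AddSubgroup G) := Fintype.ofFinite _
  have hy' : N ⊔ AddSubgroup.closure (Set.range y) = ⊤ := by
    rw [hy]
    exact sup_top_eq _
  have hT : ∀ C : AddSubgroup G, (GaT N C x).card = (GaT N C y).card := fun C =>
    le_antisymm (Ga_T_le N C x y hx) (Ga_T_le N C y x hy')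
  have hL : ∀ C : AddSubgroup G, (GaL N C x).card = (GaL N C y).card := by
    intro C
    induction C using WellFoundedLT.induction with
    | ind C ih =>
      have h1 := Ga_sum N C x
      have h2 := Ga_sum N C y
      rw [Finset.sum_congr rfl fun D hD => ih D (Finset.mem_filter.1 hD).2, hT C, h2] at h1
      exact (Nat.add_left_cancel h1).symm
  have h1 : y ∈ GaL N ⊤ y := by
    rw [Ga_memL]
    exact ⟨fun i => by rw [sub_self]; exact N.zero_mem, hy⟩
  have h2 : 0 < (GaL N ⊤ x).card := by
    rw [hL ⊤]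
    exact Finset.card_pos.2 ⟨y, h1⟩
  obtain ⟨c, hc⟩ := Finset.card_pos.1 h2
  exact ⟨c, (Ga_memL.1 hc).1, (Ga_memL.1 hc).2⟩

end Pool.Agent.SNR
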