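import Pool.Agent.SNR.Lm

/-!
# SNR, module Sg (helper48): `S_m`, families with cap `2 h`, `h ≥ 2`, at level `m`, in all finite abelian groups
-/

set_option autoImplicit false

noncomputable section

open Finset Pool.Agent.Helper64.Rho
open scoped Classical Pointwise

namespace Pool.Agent.SNR

open Pool.Agent.SDG Pool.Agent.SNW

/-! ### numbers -/

/-- the value `c(h, x)` for `τ = ⌈x / 2 h⌉` -/
theorem cf_two (h x τ : ℕ) (hh : 1 ≤ h) (h1 : 2 * h * (τ - 1) ≤ x) (h2 : x ≤ 2 * h * τ)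
    (hτ : 1 ≤ τ) : 2 * cf (2 * h) x + 2 * h * τ * (τ - 1) = 2 + 2 * τ * x := by
  obtain ⟨b, rfl⟩ : ∃ b, τ = b + 1 := ⟨τ - 1, by omega⟩
  rw [Nat.add_sub_cancel] at h1 ⊢
  obtain ⟨r, rfl⟩ : ∃ r, x = 2 * h * b + r := ⟨x - 2 * h * b, by omega⟩
  have hr : r ≤ 2 * h := by
    have : 2 * h * (b + 1) = 2 * h * b + 2 * h := by ring
    omega
  have h3 := thm_Nm1.2.1 (2 * h) b r (by omega) hr
  rw [h3]
  ring

theorem Sg_D (x k y Y τ c : ℤ) (hτ : 1 ≤ τ) (hx : 4 * τ - 3 ≤ x) (hc : 2 * c ≤ 2 + x * (τ + 1))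
    (hS : c ≤ Y + (x - k) * τ) (hk1 : 1 ≤ k) (hkx : k + 2 ≤ x) (hY : k + 1 ≤ Y)
    (h1 : y * (2 * (x - k) + 1) < 2 * c + 2 * τ * (y - Y))
    (h2 : (c - τ) * Y < 2 * τ * ((y - Y) * Y + y)) (h3 : (2 * (x - k) + 1) * Y < 2 * c) : False := by
  obtain ⟨d, hd⟩ : ∃ d, d = x - k := ⟨_, rfl⟩
  rw [← hd] at hS h1 h3
  have hd2 : 2 ≤ d := by omega
  have s1 : (2 * d - 1) * Y < 2 * d * τ := by nlinarith
  have s2 : Y ≤ τ := by
    by_contra hcon
    push Not at hcon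
    have s3 : (2 * d - 1) * (τ + 1) ≤ (2 * d - 1) * Y :=
      mul_le_mul_of_nonneg_left (by omega) (by omega)
    have s4 : 2 * d ≤ τ := by nlinarith
    have s5 : (2 * d - 1) * (4 * τ - 2 - d) ≤ (2 * d - 1) * Y :=
      mul_le_mul_of_nonneg_left (by omega) (by omega)
    obtain ⟨a, ha⟩ : ∃ a, a = d - 2 := ⟨_, rfl⟩
    obtain ⟨b, hb⟩ : ∃ b, b = τ - 2 * d := ⟨_, rfl⟩
    have ha0 : 0 ≤ a := by omega
    have hb0 : 0 ≤ b := by omega
    have hd' : d = a + 2 := by omega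
    have hτ' : τ = 2 * a + 4 + b := by omega
    rw [hd', hτ'] at s5 s1
    nlinarith [mul_nonneg ha0 hb0, mul_nonneg ha0 ha0]
  -- the main inequality
  obtain ⟨B, hB⟩ : ∃ B, B = 2 * d + 1 - 2 * τ := ⟨_, rfl⟩
  have hB0 : 0 < B := by omega
  have m1 : y * B < 2 * c - 2 * τ * Y := by
    rw [hB]
    nlinarith
  have m2 : (c - τ) * Y + 2 * τ * Y * Y < 2 * τ * (Y + 1) * y := by nlinarith
  have hτY : 0 < 2 * τ * (Y + 1) := by
    have : 0 < Y + 1 := by omega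
    positivity
  have m3 : ((c - τ) * Y + 2 * τ * Y * Y) * B < 2 * τ * (Y + 1) * (2 * c - 2 * τ * Y) := by
    calc ((c - τ) * Y + 2 * τ * Y * Y) * B < 2 * τ * (Y + 1) * y * B := mul_lt_mul_of_pos_right m2 hB0
      _ = 2 * τ * (Y + 1) * (y * B) := by ring
      _ < _ := mul_lt_mul_of_pos_left m1 hτY
  obtain ⟨D, hD⟩ : ∃ D, D = 4 * τ * (Y + 1) - Y * B := ⟨_, rfl⟩
  have m4 : τ * Y * (2 * Y - 1) * B + 4 * τ * τ * Y * (Y + 1) < c * D := by
    rw [hD]
    nlinarith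
  have hpos : 0 ≤ τ * Y * (2 * Y - 1) * B + 4 * τ * τ * Y * (Y + 1) := by
    have : 0 ≤ 2 * Y - 1 := by omega
    have : 0 ≤ Y := by omega
    positivity
  have hc0 : 0 < c := by nlinarith
  have hD0 : 0 < D := by
    by_contra hcon
    push Not at hcon
    nlinarith [mul_nonneg hc0.le (by omega : (0 : ℤ) ≤ -D)]
  have m5 : 2 * (τ * Y * (2 * Y - 1) * B + 4 * τ * τ * Y * (Y + 1)) < D * (2 + x * (τ + 1)) := by
    calc _ < 2 * (c * D) := by linarith
      _ = D * (2 * c) := by ring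
      _ ≤ _ := mul_le_mul_of_nonneg_left hc hD0.le
  obtain ⟨η, hη⟩ : ∃ η, η = Y - 2 := ⟨_, rfl⟩
  obtain ⟨σ, hσ⟩ : ∃ σ, σ = τ - Y := ⟨_, rfl⟩
  obtain ⟨ξ, hξ⟩ : ∃ ξ, ξ = x - (4 * τ - 3) := ⟨_, rfl⟩
  obtain ⟨κ, hκ⟩ : ∃ κ, κ = Y - 1 - k := ⟨_, rfl⟩
  have hη0 : 0 ≤ η := by omega
  have hσ0 : 0 ≤ σ := by omega
  have hξ0 : 0 ≤ ξ := by omega
  have hκ0 : 0 ≤ κ := by omega
  have eY : Y = η + 2 := by omega
  have eτ : τ = η + 2 + σ := by omega
  have ex : x = 4 * (η + 2 + σ) - 3 + ξ := by omega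
  have ek : k = η + 1 - κ := by omega
  have hfin : 0 ≤ 2 * (τ * Y * (2 * Y - 1) * B + 4 * τ * τ * Y * (Y + 1)) - D * (2 + x * (τ + 1)) := by
    rw [hD, hB, hd, ex, ek, eτ, eY]
    ring_nf
    positivity
  linarith

theorem Sg_C (h x E k y N X Y τ q c : ℕ) (hh : 2 ≤ h) (hτ : 1 ≤ τ) (_hq : 1 ≤ q)
    (hx : 2 * h * (τ - 1) + 1 ≤ x) (hE : 2 ≤ E) (hEk : E + k = x + 1) (hk : 1 ≤ k)
    (hY : k + 1 ≤ Y) (hy : Y + 1 ≤ y)
    (hc : 2 * c + 2 * h * τ * (τ - 1) = 2 + 2 * τ * x) (hS : c ≤ Y + (E - 1) * τ)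
    (h1 : q * (E + 1) ≤ N) (h2 : y * N ≤ X + (2 * q * τ - 1) * (y - Y)) (h2' : X < y * (2 * q))
    (h3 : X < 2 * q * c) (h4 : N * Y ≤ X) : False := by
  -- `E ≤ 2 τ`
  have hE2 : E ≤ 2 * τ := by
    by_contra hcon
    push Not at hcon
    have h5 : q * (2 * τ + 2) ≤ N := (Nat.mul_le_mul_left _ (by omega)).trans h1
    have h6 : y * (q * (2 * τ + 2)) ≤ y * N := Nat.mul_le_mul_left _ h5
    have h7 : (2 * q * τ - 1) * (y - Y) ≤ (2 * q * τ) * y := Nat.mul_le_mul (by omega) (by omega)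
    nlinarith
  have h5 : q * ((E + 1) * Y) < q * (2 * c) := by
    calc q * ((E + 1) * Y) = q * (E + 1) * Y := by ring
      _ ≤ N * Y := Nat.mul_le_mul_right _ h1
      _ ≤ X := h4
      _ < 2 * q * c := h3
      _ = q * (2 * c) := by ring
  have h6 : (E + 1) * Y < 2 * c := Nat.lt_of_mul_lt_mul_left h5
  have h7 : Y < 2 * τ := by
    obtain ⟨a, rfl⟩ : ∃ a, E = a + 2 := ⟨E - 2, by omega⟩
    have e1 : a + 2 - 1 = a + 1 := by omega
    rw [e1] at hS
    by_contra hcon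
    push Not at hcon
    nlinarith [Nat.mul_le_mul_left (a + 1) hcon]
  obtain ⟨b, rfl⟩ : ∃ b, τ = b + 1 := ⟨τ - 1, by omega⟩
  rw [Nat.add_sub_cancel] at hx hc
  have h8 : 4 * b ≤ 2 * h * b := Nat.mul_le_mul_right _ (by omega)
  have h9 : x = 4 * b + 1 := by omega
  have h10 : 2 * h * b = 4 * b := by omega
  have h11 : Y = 2 * b + 1 := by omega
  have h12 : E = 2 * b + 2 := by omega
  have h13 : 2 * h * (b + 1) * b = (b + 1) * (2 * h * b) := by ring
  rw [h13, h10, h9] at hc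
  rw [h11, h12] at h6
  have h14 : 1 ≤ b := by omega
  nlinarith

/-! ### the theorem -/

def SmSt (h t m : ℕ) : Prop :=
  ∀ (G ι : Type) [AddCommGroup G] [Finite G] (s : Finset ι) (f : ι → G), s.card = t →
    (∀ i ∈ s, f i ≠ 0) → Cap (2 * h) s f → Aper (FS s f) → gen s f = ⊤ →
      GR m (⊥ : AddSubgroup G) (FS s f).card → 2 ^ (m - 1) * cf (2 * h) (t + 1 - m) ≤ (FS s f).card

theorem thm_SmSt (h : ℕ) (hh : 2 ≤ h) (t : ℕ) : ∀ m, 1 ≤ m → SmSt h t m := by
  induction t using Nat.strong_induction_on with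
  | _ t ih =>
  intro m hm G ι _ _ s f hs h0 hcap hA hg hG
  -- level one
  have hM := (all_main t).2 h hh G ι s f hs h0 hcap hA
  rcases Nat.lt_or_ge m 2 with hm1 | hm2
  · obtain rfl : m = 1 := by omega
    simpa using hM
  obtain ⟨M, rfl⟩ : ∃ M, m = M + 2 := ⟨m - 2, by omega⟩
  have e1 : M + 2 - 1 = M + 1 := by omega
  rw [e1]
  have hr := GR_rank s f hg hG
  have hbt : (⊥ : AddSubgroup G) ≠ ⊤ := by
    intro h
    rw [h, crk_top] at hr
    omega
  -- drops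
  by_cases hdrop : ∃ i ∈ s, f i ∉ gen (s.erase i) f
  · obtain ⟨i, hi, hd⟩ := hdrop
    have h2 : (FS s f).card = 2 * (FS (s.erase i) f).card := (all_Ba1 G ι f).2.2.2.1 s i hi hd
    have ht : (s.erase i).card = t - 1 := by rw [card_erase_of_mem hi, hs]
    have ht1 : 1 ≤ t := by
      rw [← hs]
      exact card_pos.2 ⟨i, hi⟩
    have hAe := (all_Ba1 G ι f).2.1 s (s.erase i) (erase_subset _ _) hA
    obtain ⟨H, _, _, φ, f1, hφ, hf1, hc, hg1, hG1, hr1⟩ := GR_drop s f i hi hg hd (M + 2) hG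
    have h01 := ne_res φ _ f f1 hf1 (fun k hk => h0 k (erase_subset _ _ hk))
    have hA1 := aper_res φ hφ _ f f1 hf1 hAe
    have hcap1 : Cap (2 * h) (s.erase i) f1 := by
      intro x
      refine (card_le_card ?_).trans (hcap (φ x))
      intro k hk
      obtain ⟨hk1, hk2⟩ := mem_filter.1 hk
      refine mem_filter.2 ⟨erase_subset _ _ hk1, ?_⟩
      rw [← hf1 k hk1, ← map_neg]
      rcases hk2 with hk2 | hk2
      · left
        rw [hk2]
      · right
        rw [hk2]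
    rw [← hc] at hG1
    have h3 := ih (t - 1) (by omega) (M + 1) (by omega) H ι (s.erase i) f1 ht h01 hcap1 hA1 hg1 hG1
    rw [hc, Nat.add_sub_cancel] at h3
    have e2 : t - 1 + 1 - (M + 1) = t + 1 - (M + 2) := by omega
    rw [e2] at h3
    rw [h2, pow_succ]
    calc 2 ^ M * 2 * cf (2 * h) (t + 1 - (M + 2)) = 2 * (2 ^ M * cf (2 * h) (t + 1 - (M + 2))) := by ring
      _ ≤ _ := Nat.mul_le_mul_left _ h3
  push Not at hdrop
  have hge : ∀ i ∈ s, gen (s.erase i) f = ⊤ := by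
    intro i hi
    rw [← hg]
    exact (all_Ba1 G ι f).2.2.2.2.2.1 s i hi (hdrop i hi)
  have hcard : ∀ i ∈ s, (s.erase i).card = t - 1 := by
    intro i hi
    rw [card_erase_of_mem hi, hs]
  have hAe : ∀ i, Aper (FS (s.erase i) f) := fun i =>
    (all_Ba1 G ι f).2.1 s (s.erase i) (erase_subset _ _) hA
  have h0e : ∀ i, ∀ k ∈ s.erase i, f k ≠ 0 := fun i k hk => h0 k (erase_subset _ _ hk)
  have hce : ∀ i, Cap (2 * h) (s.erase i) f := fun i x =>
    (card_le_card (filter_subset_filter _ (erase_subset _ _))).trans (hcap x)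
  have hmono : ∀ i, (FS (s.erase i) f).card ≤ (FS s f).card := fun i =>
    card_le_card (FS_mono (erase_subset _ _) f)
  by_contra hcon
  push Not at hcon
  have hte : crk (⊥ : AddSubgroup G) + 1 ≤ t := by
    have h3 := crk_nodrop hbt hge hg
    have h4 : (s.filter fun i => f i ∉ (⊥ : AddSubgroup G)).card ≤ t := by
      rw [← hs]
      exact card_filter_le _ _
    omega
  obtain ⟨x, hx⟩ : ∃ x, x = t + 1 - (M + 2) := ⟨_, rfl⟩
  obtain ⟨τ, hτ⟩ : ∃ τ, τ = (x - 1) / (2 * h) + 1 := ⟨_, rfl⟩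
  have hx2 : 2 ≤ x := by omega
  have hstep : cf (2 * h) x = cf (2 * h) (x - 1) + τ := by
    have h1 := thm_Nm1.1 (2 * h) (x - 1)
    rw [Nat.sub_add_cancel (by omega)] at h1
    rw [h1, hτ]
    ring
  have hτ1 : 1 ≤ τ := by
    rw [hτ]
    exact Nat.le_add_left 1 _
  have hxlo : 2 * h * (τ - 1) + 1 ≤ x := by
    rw [hτ, Nat.add_sub_cancel]
    have := Nat.mul_div_le (x - 1) (2 * h)
    omega
  have hxhi : x ≤ 2 * h * τ := by
    have h1 := Nat.lt_mul_div_succ (x - 1) (by omega : 0 < 2 * h)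
    rw [← hτ] at h1
    omega
  have hcx := cf_two h x τ (by omega) (by omega) hxhi hτ1
  obtain ⟨q, hq⟩ : ∃ q, q = 2 ^ M := ⟨_, rfl⟩
  have hq0 : 1 ≤ q := hq ▸ Nat.one_le_two_pow
  have p1 : 2 ^ (M + 1) = 2 * q := by rw [hq]; ring
  obtain ⟨X, hX⟩ : ∃ X, X = (FS s f).card := ⟨_, rfl⟩
  rw [← hX, ← hx, p1] at hcon
  have hlow : ∀ i ∈ s, 2 * q * cf (2 * h) (x - 1) ≤ (FS (s.erase i) f).card := by
    intro i hi
    have h3 := ih (t - 1) (by omega) (M + 2) (by omega) G ι (s.erase i) f (hcard i hi) (h0e i)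
      (hce i) (hAe i) (hge i hi) (GR_mono le_rfl (hmono i) hG)
    rw [e1, p1] at h3
    have e2 : t - 1 + 1 - (M + 2) = x - 1 := by omega
    rwa [e2] at h3
  have hqτ : 1 ≤ 2 * q * τ := by
    have := Nat.mul_le_mul hq0 hτ1
    nlinarith
  have hj : ∀ k ∈ s, lam (FS s f) (f k) ≤ 2 * q * τ - 1 := by
    intro k hk
    have h3 := (all_Ba1 G ι f).2.2.1 s k hk
    have h4 := hlow k hk
    rw [hstep, mul_add] at hcon
    rw [← hX] at h3
    omega
  obtain ⟨R, H', _, _, π, hπs, hπk, hRt, hC, q0, qA, qg, qG, hmR, hRr, d2, d3, d4, d6, d7, hek,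
    hcr, hlw, μ, hμ, hD⟩ := setup h0 hA hg hge hbt (M + 1) _ (by omega) hj hG
  have hsub : (s.filter fun i => f i ∈ R) ⊆ s := filter_subset _ _
  have hYc : cf (2 * h) (s.filter fun i => f i ∈ R).card ≤
      (FS (s.filter fun i => f i ∈ R) f).card :=
    (all_main _).2 h hh G ι (s.filter fun i => f i ∈ R) f rfl (fun k hk => h0 k (hsub hk))
      (fun x => (card_le_card (filter_subset_filter _ hsub)).trans (hcap x))
      ((all_Ba1 G ι f).2.1 s _ hsub hA)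
  obtain ⟨e, he⟩ : ∃ e, e = (s.filter fun i => f i ∉ R).card := ⟨_, rfl⟩
  obtain ⟨k, hk⟩ : ∃ k, k = (s.filter fun i => f i ∈ R).card := ⟨_, rfl⟩
  obtain ⟨y, hy⟩ : ∃ y, y = Nat.card R := ⟨_, rfl⟩
  obtain ⟨Y, hY⟩ : ∃ Y, Y = (FS (s.filter fun i => f i ∈ R) f).card := ⟨_, rfl⟩
  obtain ⟨N, hN⟩ : ∃ N, N = (FS (s.filter fun i => f i ∉ R) (fun i => π (f i))).card := ⟨_, rfl⟩
  rw [← hN, ← hy, ← hY, ← hX] at d2
  rw [← hN, ← hY, ← hX] at d3
  rw [← hk, ← hY] at d4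
  rw [← hk] at d6
  rw [← hY, ← hy] at d7
  rw [← he, ← hk, hs] at hek
  rw [← he] at hcr
  rw [← hy, ← hX, p1] at hlw
  rw [← hk, ← hY] at hYc
  rw [← hX, ← hy, ← hY] at hD
  rcases Nat.lt_or_ge (crk R) (M + 2) with hR1 | hR1
  · have h3 := thm_SIm (M + 1) (by omega) H' ι _ _ q0 qA qg qG
    rw [← he, ← hN, Nat.add_sub_cancel, ← hq] at h3
    have e2 : e + 2 - (M + 1) = (e - M) + 1 := by omega
    rw [e2] at h3
    have hS : cf (2 * h) x ≤ Y + ((e - M) - 1) * τ := by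
      have h4 := cf_add_le (2 * h) τ k ((e - M) - 1) (by omega) (by
        have : k + (e - M - 1) = x := by omega
        rw [this]
        exact hxhi)
      have e5 : k + (e - M - 1) = x := by omega
      rw [e5] at h4
      omega
    exact Sg_C h x (e - M) k y N X Y τ q (cf (2 * h) x) hh hτ1 hq0 hxlo (by omega) (by omega) d6 d4
      d7 hcx hS h3 d2 (hlw (by omega)) hcon d3
  · have h3 := thm_LINm (M + 2) (by omega) H' ι _ _ q0 qA qg (by omega) qG
    rw [← he, ← hN, e1, p1] at h3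
    have e2 : 2 * e + 3 - 2 * (M + 2) = 2 * (x - k) + 1 := by omega
    rw [e2] at h3
    have hS : cf (2 * h) x ≤ Y + (x - k) * τ := by
      have e5 : k + (x - k) = x := by omega
      have h4 := cf_add_le (2 * h) τ k (x - k) (by omega) (by
        rw [e5]
        exact hxhi)
      rw [e5] at h4
      omega
    obtain ⟨i, hi⟩ : (s.filter fun i => f i ∉ R).Nonempty := by
      rw [← card_pos]
      omega
    have hlo := hlow i (mem_filter.1 hi).1
    have hmo := hmono i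
    rw [← hX] at hmo
    have hqpos : (0 : ℤ) < 2 * q := by positivity
    have hxk : k + 2 ≤ x := by omega
    have z3 : (2 * q * (2 * (x - k) + 1) : ℤ) ≤ 2 * N := by
      have : ((2 * q * (2 * (x - k) + 1) : ℕ) : ℤ) ≤ ((2 * N : ℕ) : ℤ) := by exact_mod_cast h3
      push_cast [Nat.cast_sub (by omega : k ≤ x)] at this
      exact this
    have z2 : (y * N : ℤ) ≤ X + (2 * q * τ - 1) * (y - Y) := by
      have : ((y * N : ℕ) : ℤ) ≤ ((X + (2 * q * τ - 1) * (y - Y) : ℕ) : ℤ) := by exact_mod_cast d2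
      push_cast [Nat.cast_sub (by omega : Y ≤ y), Nat.cast_sub hqτ] at this
      exact this
    have zX : (X : ℤ) < 2 * q * cf (2 * h) x := by exact_mod_cast hcon
    have zlo : (2 * q * (cf (2 * h) x - τ) : ℤ) ≤ X := by
      have h4 : (2 * q * cf (2 * h) (x - 1) : ℕ) ≤ X := by omega
      have h5 : ((2 * q * cf (2 * h) (x - 1) : ℕ) : ℤ) ≤ X := by exact_mod_cast h4
      rw [hstep]
      push_cast at h5 ⊢
      linarith
    have z4 : (N * Y : ℤ) ≤ X := by exact_mod_cast d3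
    have zY : (1 : ℤ) ≤ Y := by
      have : 1 ≤ Y := by omega
      exact_mod_cast this
    have zy : (Y : ℤ) + 1 ≤ y := by exact_mod_cast d7
    -- the inequality of the members outside
    obtain ⟨w, hw⟩ : ∃ w, w = (2 * q * τ - 1) / Y := ⟨_, rfl⟩
    rw [← hw] at hD
    have hwY : w * Y ≤ 2 * q * τ - 1 := by
      rw [hw]
      exact Nat.div_mul_le_self _ _
    have hD' : X < 2 * ((2 * q * τ - 1) * (y - Y)) + 2 * (y * w) := by
      obtain ⟨ν, rfl⟩ : ∃ ν, μ = ν + 3 := ⟨μ - 3, by omega⟩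
      have e6 : ν + 3 - 2 = ν + 1 := by omega
      rw [e6] at hD
      by_contra hc2
      push Not at hc2
      have h5 := Nat.mul_le_mul_left (ν + 1) hc2
      have h6 : (ν + 1) * (2 * ((2 * q * τ - 1) * (y - Y)) + 2 * (y * w)) =
          2 * ((2 * q * τ - 1) * (y - Y)) + ν * (2 * ((2 * q * τ - 1) * (y - Y))) +
            2 * (y * w * (ν + 1)) := by ring
      rw [h6] at h5
      have h7 := Nat.zero_le (ν * (2 * ((2 * q * τ - 1) * (y - Y))))
      omega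
    have zD : (X : ℤ) < 2 * ((2 * q * τ - 1) * (y - Y)) + 2 * (y * w) := by
      have : ((X : ℕ) : ℤ) < ((2 * ((2 * q * τ - 1) * (y - Y)) + 2 * (y * w) : ℕ) : ℤ) := by
        exact_mod_cast hD'
      push_cast [Nat.cast_sub (by omega : Y ≤ y), Nat.cast_sub hqτ] at this
      exact this
    have zw : (w * Y : ℤ) ≤ 2 * q * τ - 1 := by
      have : ((w * Y : ℕ) : ℤ) ≤ ((2 * q * τ - 1 : ℕ) : ℤ) := by exact_mod_cast hwY
      push_cast [Nat.cast_sub hqτ] at this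
      exact this
    have zτ : (1 : ℤ) ≤ τ := by exact_mod_cast hτ1
    have zc : 2 * (cf (2 * h) x : ℤ) + 2 * h * τ * (τ - 1) = 2 + 2 * τ * x := by
      have : ((2 * cf (2 * h) x + 2 * h * τ * (τ - 1) : ℕ) : ℤ) = ((2 + 2 * τ * x : ℕ) : ℤ) := by
        exact_mod_cast hcx
      push_cast [Nat.cast_sub hτ1] at this
      exact this
    have zxhi : (x : ℤ) ≤ 2 * h * τ := by exact_mod_cast hxhi
    have zxlo : 2 * (h : ℤ) * (τ - 1) + 1 ≤ x := by
      have : ((2 * h * (τ - 1) + 1 : ℕ) : ℤ) ≤ x := by exact_mod_cast hxlo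
      push_cast [Nat.cast_sub hτ1] at this
      exact this
    have zh : (2 : ℤ) ≤ h := by exact_mod_cast hh
    refine Sg_D (x : ℤ) k y Y τ (cf (2 * h) x) zτ ?_ ?_ ?_ (by exact_mod_cast d6)
      (by exact_mod_cast hxk) (by exact_mod_cast d4) ?_ ?_ ?_
    · have h5 : (4 : ℤ) * (τ - 1) ≤ 2 * h * (τ - 1) :=
        mul_le_mul_of_nonneg_right (by linarith) (by linarith)
      linarith
    · have h5 : (x : ℤ) * (τ - 1) ≤ 2 * h * τ * (τ - 1) :=
        mul_le_mul_of_nonneg_right zxhi (by linarith)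
      have h6 : (x : ℤ) * (τ - 1) = x * τ - x := by ring
      have h7 : (x : ℤ) * (τ + 1) = x * τ + x := by ring
      have h8 : 2 * (τ : ℤ) * x = 2 * (x * τ) := by ring
      rw [h7]
      linarith
    · have : (cf (2 * h) x : ℤ) ≤ ((Y + (x - k) * τ : ℕ) : ℤ) := by exact_mod_cast hS
      push_cast [Nat.cast_sub (by omega : k ≤ x)] at this
      exact this
    · -- (1)
      have h5 : (2 * q : ℤ) * (y * (2 * (x - k) + 1)) < 2 * q * (2 * cf (2 * h) x + 2 * τ * (y - Y)) := by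
        have h6 : (y : ℤ) * (2 * q * (2 * (x - k) + 1)) ≤ y * (2 * N) :=
          mul_le_mul_of_nonneg_left z3 (by positivity)
        calc (2 * q : ℤ) * (y * (2 * (x - k) + 1)) = (y : ℤ) * (2 * q * (2 * (x - k) + 1)) := by ring
          _ ≤ y * (2 * N) := h6
          _ = 2 * (y * N) := by ring
          _ ≤ 2 * (X + (2 * q * τ - 1) * (y - Y)) := by linarith
          _ = 2 * X + 2 * (2 * q * τ) * (y - Y) - 2 * (y - Y) := by ring
          _ < 2 * (2 * q * cf (2 * h) x) + 2 * (2 * q * τ) * (y - Y) := by linarith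
          _ = _ := by ring
      exact lt_of_mul_lt_mul_left h5 hqpos.le
    · -- (2)
      have h5 : (2 * q : ℤ) * ((cf (2 * h) x - τ) * Y) < 2 * q * (2 * τ * ((y - Y) * Y + y)) := by
        have h6 : (2 * q * (cf (2 * h) x - τ) : ℤ) * Y ≤ X * Y :=
          mul_le_mul_of_nonneg_right zlo (by positivity)
        have h7 : (X : ℤ) * Y < (2 * ((2 * q * τ - 1) * (y - Y)) + 2 * (y * w)) * Y :=
          mul_lt_mul_of_pos_right zD (by linarith)
        have h8 : (y : ℤ) * (w * Y) ≤ y * (2 * q * τ - 1) :=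
          mul_le_mul_of_nonneg_left zw (by positivity)
        have h9 : (0 : ℤ) ≤ (y - Y) * Y := mul_nonneg (by linarith) (by positivity)
        have h10 : (0 : ℤ) ≤ y := by positivity
        calc (2 * q : ℤ) * ((cf (2 * h) x - τ) * Y) = (2 * q * (cf (2 * h) x - τ) : ℤ) * Y := by ring
          _ ≤ X * Y := h6
          _ < (2 * ((2 * q * τ - 1) * (y - Y)) + 2 * (y * w)) * Y := h7
          _ = 2 * (2 * q * τ - 1) * ((y - Y) * Y) + 2 * (y * (w * Y)) := by ring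
          _ ≤ 2 * (2 * q * τ - 1) * ((y - Y) * Y) + 2 * (y * (2 * q * τ - 1)) := by linarith
          _ = 2 * (2 * q * τ) * ((y - Y) * Y + y) - 2 * ((y - Y) * Y + y) := by ring
          _ ≤ 2 * (2 * q * τ) * ((y - Y) * Y + y) := by linarith
          _ = 2 * q * (2 * τ * ((y - Y) * Y + y)) := by ring
      exact lt_of_mul_lt_mul_left h5 hqpos.le
    · -- (3)
      have h5 : (2 * q : ℤ) * ((2 * (x - k) + 1) * Y) < 2 * q * (2 * cf (2 * h) x) := by
        have h6 : (2 * q * (2 * (x - k) + 1) : ℤ) * Y ≤ 2 * N * Y :=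
          mul_le_mul_of_nonneg_right z3 (by positivity)
        calc (2 * q : ℤ) * ((2 * (x - k) + 1) * Y) = (2 * q * (2 * (x - k) + 1) : ℤ) * Y := by ring
          _ ≤ 2 * N * Y := h6
          _ = 2 * (N * Y) := by ring
          _ ≤ 2 * X := by linarith
          _ < 2 * (2 * q * cf (2 * h) x) := by linarith
          _ = _ := by ring
      exact lt_of_mul_lt_mul_left h5 hqpos.le

/-- **`S_m`.** -/
theorem thm_Sm (h : ℕ) (hh : 2 ≤ h) (m : ℕ) (hm : 1 ≤ m) (G ι : Type) [AddCommGroup G] [Finite G]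
    (s : Finset ι) (f : ι → G) (h0 : ∀ i ∈ s, f i ≠ 0) (hcap : Cap (2 * h) s f)
    (hA : Aper (FS s f)) (hg : gen s f = ⊤) (hG : GR m (⊥ : AddSubgroup G) (FS s f).card) :
    2 ^ (m - 1) * cf (2 * h) (s.card + 1 - m) ≤ (FS s f).card :=
  thm_SmSt h hh s.card m hm G ι s f rfl h0 hcap hA hg hG

end Pool.Agent.SNR
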