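import Pool.Agent.SNR.WMain
import Pool.Agent.SNR.WA
import Pool.Agent.SNR.WA2
import Pool.Agent.SNR.WB
import Pool.Agent.SNR.WC
import Pool.Agent.SNR.WPair
import Pool.Agent.SNR.WRow
import Pool.Agent.SNT.All2
import Pool.Agent.SNV.Fin

/-!
# SNR, module WIN3 (helper48): `SNV.St_WIN3` from `SBN.St_ND2`
-/

set_option autoImplicit false

noncomputable section

open Finset Pool.Agent.Helper64.Rho
open scoped Classical Pointwise

namespace Pool.Agent.SNR

open Pool.Agent.SDG Pool.Agent.SNW Pool.Agent.SBN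

theorem all_LB : St_LB :=
  thm_LB (fun G _ _ => Pool.Agent.SNT.all_PAG G) (fun G _ _ h => Pool.Agent.SNT.all_M1Pr G h)

theorem NDw_of (hND2 : St_ND2) : St_NDw :=
  thm_NDw all_LB hND2 thm_WA thm_WA2 thm_WB thm_WC thm_WPair thm_WRow

theorem WIN3_of (hND2 : St_ND2) : Pool.Agent.SNV.St_WIN3 := by
  intro G ι _ _ m s f hm hr h0 hc hA hg hge hG
  have h1 := NDw_of hND2 m G ι s f (by omega) (by omega) h0 hc hA hg hge hG
  obtain ⟨M, rfl⟩ : ∃ M, m = M + 2 := ⟨m - 2, by omega⟩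
  have e1 : M + 2 - 2 = M := by omega
  have e2 : M + 2 - 1 = M + 1 := by omega
  rw [e1] at h1
  rw [e2]
  unfold U at h1
  have e3 : s.card + 2 - (M + 2) + 1 = s.card + 3 - (M + 2) := by
    have := crk_bot_le s f hg
    omega
  rw [e3] at h1
  calc 2 ^ (M + 1) * ((s.card + 3 - (M + 2)) ^ 2 / 4) = 2 ^ M * (2 * ((s.card + 3 - (M + 2)) ^ 2 / 4)) := by ring
    _ ≤ _ := h1

end Pool.Agent.SNR
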