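import Pool.Agent.SNR.Ndi
import Pool.Agent.SBN.Defs

/-!
# SNR, module WSt (helper48): cap 2, no drop, level `m ≥ 3`, rank `> m`: statements

Target `St_NDw`: `2 ^ (m - 2) * U (t + 2 - m) ≤ |T|` (for `m = 2` this is `SBN.St_ND2`).
Notation: `q = 2 ^ (m - 2) = 2 p`, `τ = t + 2 - m`, `E = e - m + 2`, `E + k = τ`, `X = |T| < q U τ = 2 p U τ`.
-/

set_option autoImplicit false

noncomputable section

open Finset Pool.Agent.Helper64.Rho
open scoped Classical Pointwise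

namespace Pool.Agent.SNR

open Pool.Agent.SDG Pool.Agent.SNW Pool.Agent.SBN

/-- the theorem, for all levels `m ≥ 2` -/
def St_NDw : Prop :=
  ∀ (m : ℕ) (G ι : Type) [AddCommGroup G] [Finite G] (s : Finset ι) (f : ι → G), 2 ≤ m →
    m + 1 ≤ crk (⊥ : AddSubgroup G) → (∀ i ∈ s, f i ≠ 0) → Cap 2 s f → Aper (FS s f) → gen s f = ⊤ →
      (∀ i ∈ s, gen (s.erase i) f = ⊤) → GR m (⊥ : AddSubgroup G) (FS s f).card →
        2 ^ (m - 2) * U (s.card + 2 - m) ≤ (FS s f).card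

/-- **WA** (numbers; `crk R = m - 1`). -/
def St_WA : Prop :=
  ∀ p E k τ N X Y y j : ℕ, 1 ≤ p → 2 ≤ E → 2 ≤ k → E + k = τ → ¬ (τ = 7 ∧ k = 2) →
    cf 2 k ≤ Y → U (k + 2) ≤ 3 * Y → Y + 1 ≤ y → X < 4 * p * y → 3 * p * E ≤ N → N * Y ≤ X →
      X < 2 * p * U τ → y * N ≤ X + j * (y - Y) → j + 2 * p * U (τ - 1) ≤ X → False

/-- **WB** (numbers; `crk R ≥ m`, cap 2 in the quotient). -/
def St_WB : Prop :=
  ∀ E k Y : ℕ, 3 ≤ E → 1 ≤ k → cf 2 k ≤ Y → k + 1 ≤ Y → 2 * U (E + k) ≤ U (E + 1) * Y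

/-- **WC** (numbers; `crk R ≥ m`, three members in a class of the quotient). -/
def St_WC : Prop :=
  ∀ p E k τ N X Y y j μ Z : ℕ, 1 ≤ p → 5 ≤ E → 1 ≤ k → E + k = τ → cf 2 k ≤ Y → k + 1 ≤ Y → Y + 1 ≤ y →
    p * (4 * E - 2) ≤ N → N * Y ≤ X → X < 2 * p * U τ → y * N ≤ X + j * (y - Y) → j + 2 * p * U (τ - 1) ≤ X →
      4 ≤ Z → Z + 1 ≤ μ → (μ - 2) * X < 2 * (j * (y - Y)) + 2 * (y * (j / Y) * (μ - Z)) →
        τ = 7 ∧ (k = 2 ∨ (k = 1 ∧ 4 ≤ y))

/-- **WPair**.  Two different members in one class of the quotient: the rows through them are longer. -/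
def St_WPair : Prop :=
  ∀ (G ι : Type) [AddCommGroup G] [Finite G] (s : Finset ι) (f : ι → G) (R : AddSubgroup G)
    (H : Type) [AddCommGroup H] [Finite H] (π : G →+ H), Function.Surjective π → (∀ x, π x = 0 ↔ x ∈ R) →
    Aper (FS s f) → ∀ i ∈ s, ∀ i' ∈ s, i ≠ i' → f i ∉ R → f i' ∉ R →
      ((f i - f i' ∈ R ∧ f i ≠ f i') ∨ (f i + f i' ∈ R ∧ f i ≠ - f i')) →
        (FS (s.filter fun i => f i ∉ R) (fun i => π (f i))).card * (FS (s.filter fun i => f i ∈ R) f).card +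
          (FS (((s.filter fun i => f i ∉ R).erase i).erase i') (fun i => π (f i))).card ≤ (FS s f).card

/-- **WRow**.  The same if `i0` is the only member in `R`, which it generates: a row of `T` which is not full has an element
`x` with `x + f i0 ∉ T`; the rows through `f i` or `f i'` have at least three elements. -/
def St_WRow : Prop :=
  ∀ (G ι : Type) [AddCommGroup G] [Finite G] (s : Finset ι) (f : ι → G) (R : AddSubgroup G)
    (H : Type) [AddCommGroup H] [Finite H] (π : G →+ H), Function.Surjective π → (∀ x, π x = 0 ↔ x ∈ R) →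
    Aper (FS s f) → ∀ i0 ∈ s, R = AddSubgroup.zmultiples (f i0) → (s.filter fun i => f i ∈ R) = {i0} →
      3 ≤ Nat.card R → ∀ i ∈ s, ∀ i' ∈ s, i ≠ i' → f i ∉ R → f i' ∉ R →
      ((f i - f i' ∈ R ∧ f i ≠ f i') ∨ (f i + f i' ∈ R ∧ f i ≠ - f i')) → ∀ j : ℕ, lam (FS s f) (f i0) ≤ j →
        2 * (FS (s.filter fun i => f i ∉ R) (fun i => π (f i))).card +
          (FS (((s.filter fun i => f i ∉ R).erase i).erase i') (fun i => π (f i))).card +
            (Nat.card R - 3) * ((FS (s.filter fun i => f i ∉ R) (fun i => π (f i))).card - j) ≤ (FS s f).card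

end Pool.Agent.SNR
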