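import Pool.Agent.SNR.Su

/-!
# SNR, module Lm (helper48): the linear bounds `LIN` and `SI` for all levels
-/

set_option autoImplicit false

noncomputable section

open Finset Pool.Agent.Helper64.Rho
open scoped Classical Pointwise

namespace Pool.Agent.SNR

open Pool.Agent.SDG Pool.Agent.SNW

theorem aper_res {G H ι : Type} [AddCommGroup G] [AddCommGroup H] (φ : H →+ G)
    (hφ : Function.Injective φ) (s : Finset ι) (f : ι → G) (f1 : ι → H)
    (hf : ∀ i ∈ s, φ (f1 i) = f i) (hA : Aper (FS s f)) : Aper (FS s f1) := by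
  intro h hh
  apply hφ
  rw [map_zero]
  apply hA
  intro x hx
  obtain ⟨B, hB, rfl⟩ := mem_FS.1 hx
  have h1 : ∑ i ∈ B, f i = φ (∑ i ∈ B, f1 i) := by
    rw [map_sum]
    exact sum_congr rfl fun i hi => (hf i (hB hi)).symm
  obtain ⟨B', hB', h2⟩ := mem_FS.1 (hh _ (mem_FS.2 ⟨B, hB, rfl⟩))
  rw [h1, ← map_add, ← h2, map_sum]
  exact mem_FS.2 ⟨B', hB', sum_congr rfl fun i hi => (hf i (hB' hi)).symm⟩

theorem ne_res {G H ι : Type} [AddCommGroup G] [AddCommGroup H] (φ : H →+ G) (s : Finset ι)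
    (f : ι → G) (f1 : ι → H) (hf : ∀ i ∈ s, φ (f1 i) = f i) (h0 : ∀ i ∈ s, f i ≠ 0) :
    ∀ i ∈ s, f1 i ≠ 0 := by
  intro i hi h
  apply h0 i hi
  rw [← hf i hi, h, map_zero]

theorem crk_cyc {G : Type} [AddCommGroup G] [Finite G] (h : IsAddCyclic G) :
    crk (⊥ : AddSubgroup G) ≤ 1 := by
  obtain ⟨g, hg⟩ := h.exists_zsmul_surjective
  have h1 : (⊥ : AddSubgroup G) ⊔ AddSubgroup.zmultiples g = ⊤ := by
    rw [bot_sup_eq, eq_top_iff]
    intro x _
    obtain ⟨k, hk⟩ := hg x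
    rw [← hk]
    exact AddSubgroup.zsmul_mem_zmultiples g k
  have h2 := crk_sup_le (⊥ : AddSubgroup G) g
  rwa [h1, crk_top] at h2

/-- the sums of the members in a subgroup which is not cyclic -/
theorem in_noncyc {G ι : Type} [AddCommGroup G] [Finite G] (s : Finset ι) (f : ι → G)
    (h0 : ∀ i ∈ s, f i ≠ 0) (hA : Aper (FS s f))
    (hc : crk (gen s f) + 2 ≤ crk (⊥ : AddSubgroup G)) :
    2 * s.card ≤ (FS s f).card + 1 ∧ (s.card ≤ 2 → 4 ≤ (FS s f).card ∧ s.card = 2) := by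
  obtain ⟨H, _, _, φ, f1, hφ, hr, hf1, hcard, hg1⟩ := res s f _ rfl
  have h01 := ne_res φ s f f1 hf1 h0
  have hA1 := aper_res φ hφ s f f1 hf1 hA
  have hnc : ¬ IsAddCyclic H := by
    intro h
    obtain ⟨g, hg⟩ := h.exists_zsmul_surjective
    have h1 : gen s f = (⊥ : AddSubgroup G) ⊔ AddSubgroup.zmultiples (φ g) := by
      rw [bot_sup_eq, ← hr]
      apply le_antisymm
      · rintro _ ⟨x, rfl⟩
        obtain ⟨k, rfl⟩ := hg x
        rw [map_zsmul]
        exact AddSubgroup.zsmul_mem_zmultiples _ k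
      · rw [AddSubgroup.zmultiples_le]
        exact ⟨g, rfl⟩
    have h2 := crk_sup_le (⊥ : AddSubgroup G) (φ g)
    rw [← h1] at h2
    omega
  rw [← hcard]
  refine ⟨thm_Lin2 H ι s f1 h01 hA1 hg1 hnc, ?_⟩
  intro h2
  have h3 : 2 ≤ s.card := by
    by_contra h4
    exact hnc (one_member_cyc s f1 (by omega) hg1)
  obtain ⟨i, hi⟩ : s.Nonempty := by
    rw [← card_pos]
    omega
  have h4 : f1 i ∉ gen (s.erase i) f1 := by
    intro h5
    have h6 := (all_Ba1 H ι f1).2.2.2.2.2.1 s i hi h5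
    rw [hg1] at h6
    exact hnc (one_member_cyc (s.erase i) f1 (by rw [card_erase_of_mem hi]; omega) h6)
  have h5 := (all_Ba1 H ι f1).2.2.2.1 s i hi h4
  have h6 := (all_Sm H ι (s.erase i) f1 (fun k hk => h01 k (erase_subset _ _ hk))
    ((all_Ba1 H ι f1).2.1 s _ (erase_subset _ _) hA1)).1
  rw [card_erase_of_mem hi] at h6
  omega

/-! ### numbers -/

theorem SI_num1 (p y N X E k Y : ℕ) (hp : 1 ≤ p) (hE : 2 ≤ E) (h1 : p * (2 * E - 1) ≤ 2 * N)
    (h2 : y * N ≤ X + (p - 1) * (y - Y)) (h3 : X < p * (E + k)) (hY : k + 1 ≤ Y) (hy : Y + 1 ≤ y)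
    (hk : 1 ≤ k) : False := by
  obtain ⟨a, rfl⟩ : ∃ a, E = a + 2 := ⟨E - 2, by omega⟩
  obtain ⟨d, rfl⟩ : ∃ d, y = Y + 1 + d := ⟨y - Y - 1, by omega⟩
  obtain ⟨b, rfl⟩ : ∃ b, Y = k + 1 + b := ⟨Y - k - 1, by omega⟩
  obtain ⟨c, rfl⟩ : ∃ c, k = c + 1 := ⟨k - 1, by omega⟩
  obtain ⟨p, rfl⟩ : ∃ p', p = p' + 1 := ⟨p - 1, by omega⟩
  have e1 : 2 * (a + 2) - 1 = 2 * a + 3 := by omega
  have e2 : c + 1 + 1 + b + 1 + d - (c + 1 + 1 + b) = d + 1 := by omega
  rw [e1] at h1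
  rw [e2, Nat.add_sub_cancel] at h2
  have h4 : (c + 1 + 1 + b + 1 + d) * ((p + 1) * (2 * a + 3)) ≤
      2 * ((p + 1) * (a + 2 + (c + 1))) + 2 * (p * (d + 1)) := by
    calc (c + 1 + 1 + b + 1 + d) * ((p + 1) * (2 * a + 3))
        ≤ (c + 1 + 1 + b + 1 + d) * (2 * N) := Nat.mul_le_mul_left _ h1
      _ = 2 * ((c + 1 + 1 + b + 1 + d) * N) := by ring
      _ ≤ 2 * (X + p * (d + 1)) := Nat.mul_le_mul_left _ h2
      _ ≤ _ := by omega
  nlinarith [Nat.zero_le (p * a), Nat.zero_le (c * a), Nat.zero_le (b * a), Nat.zero_le (d * a),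
    Nat.zero_le (p * c * a), Nat.zero_le (p * b * a), Nat.zero_le (p * d * a),
    Nat.zero_le (p * b), Nat.zero_le (p * c), Nat.zero_le (p * d)]

theorem SI_num2 (q y N X E k Y : ℕ) (hq : 1 ≤ q) (hE : 2 ≤ E) (h1 : q * (E + 1) ≤ N)
    (h2 : y * N ≤ X + (2 * q - 1) * (y - Y)) (h2' : X < y * (2 * q)) (h3 : X < 2 * q * (E + k))
    (h4 : N * Y ≤ X) (hY : k + 1 ≤ Y) (hy : Y + 1 ≤ y) (hk : 1 ≤ k) : False := by
  have hE2 : E = 2 := by
    by_contra hne
    obtain ⟨a, rfl⟩ : ∃ a, E = a + 3 := ⟨E - 3, by omega⟩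
    have h5 : q * 4 ≤ N := (Nat.mul_le_mul_left _ (by omega)).trans h1
    have h6 : y * (q * 4) ≤ y * N := Nat.mul_le_mul_left _ h5
    have h7 : (2 * q - 1) * (y - Y) ≤ (2 * q) * y := Nat.mul_le_mul (by omega) (by omega)
    nlinarith
  subst hE2
  have h5 : q * 3 * (k + 1) ≤ N * Y := Nat.mul_le_mul h1 hY
  nlinarith

theorem LIN_num1 (q y N X E k Y : ℕ) (hq : 1 ≤ q) (hE : 2 ≤ E) (h1 : q * (2 * E + 1) ≤ 2 * N)
    (h2 : y * N ≤ X + (2 * q - 1) * (y - Y)) (h3 : 2 * X < 2 * q * (2 * E + 2 * k - 1))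
    (hY : k + 1 ≤ Y) (hy : Y + 1 ≤ y) (hk : 1 ≤ k) : False := by
  obtain ⟨a, rfl⟩ : ∃ a, E = a + 2 := ⟨E - 2, by omega⟩
  obtain ⟨d, rfl⟩ : ∃ d, y = Y + 1 + d := ⟨y - Y - 1, by omega⟩
  obtain ⟨b, rfl⟩ : ∃ b, Y = k + 1 + b := ⟨Y - k - 1, by omega⟩
  obtain ⟨c, rfl⟩ : ∃ c, k = c + 1 := ⟨k - 1, by omega⟩
  obtain ⟨q, rfl⟩ : ∃ q', q = q' + 1 := ⟨q - 1, by omega⟩
  have e1 : 2 * (a + 2) + 2 * (c + 1) - 1 = 2 * a + 2 * c + 5 := by omega
  have e2 : c + 1 + 1 + b + 1 + d - (c + 1 + 1 + b) = d + 1 := by omega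
  have e3 : 2 * (q + 1) - 1 = 2 * q + 1 := by omega
  rw [e1] at h3
  rw [e2, e3] at h2
  have h4 : (c + 1 + 1 + b + 1 + d) * ((q + 1) * (2 * (a + 2) + 1)) ≤
      2 * (q + 1) * (2 * a + 2 * c + 5) + 2 * ((2 * q + 1) * (d + 1)) := by
    calc (c + 1 + 1 + b + 1 + d) * ((q + 1) * (2 * (a + 2) + 1))
        ≤ (c + 1 + 1 + b + 1 + d) * (2 * N) := Nat.mul_le_mul_left _ h1
      _ = 2 * ((c + 1 + 1 + b + 1 + d) * N) := by ring
      _ ≤ 2 * (X + (2 * q + 1) * (d + 1)) := Nat.mul_le_mul_left _ h2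
      _ ≤ _ := by omega
  nlinarith [Nat.zero_le (q * a), Nat.zero_le (c * a), Nat.zero_le (b * a), Nat.zero_le (d * a),
    Nat.zero_le (q * c * a), Nat.zero_le (q * b * a), Nat.zero_le (q * d * a),
    Nat.zero_le (q * b), Nat.zero_le (q * c), Nat.zero_le (q * d)]

theorem LIN_num2 (r y N X E k Y : ℕ) (hr : 1 ≤ r) (hE : 2 ≤ E) (h1 : r * (E + 1) ≤ N)
    (h2 : y * N ≤ X + (4 * r - 1) * (y - Y)) (h2' : X < y * (2 * r))
    (h3 : 2 * X < 4 * r * (2 * E + 2 * k - 3)) (h4 : N * Y ≤ X) (hY : 2 * k ≤ Y + 1)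
    (hY' : k ≤ 2 → 4 ≤ Y ∧ k = 2) (hy : Y + 1 ≤ y) : False := by
  have hE2 : E ≤ 4 := by
    by_contra hne
    obtain ⟨a, rfl⟩ : ∃ a, E = a + 5 := ⟨E - 5, by omega⟩
    have h5 : r * 6 ≤ N := (Nat.mul_le_mul_left _ (by omega)).trans h1
    have h6 : y * (r * 6) ≤ y * N := Nat.mul_le_mul_left _ h5
    have h7 : (4 * r - 1) * (y - Y) ≤ (4 * r) * y := Nat.mul_le_mul (by omega) (by omega)
    nlinarith
  rcases Nat.lt_or_ge k 3 with hk | hk
  · obtain ⟨h5, rfl⟩ := hY' (by omega)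
    have h6 : r * (E + 1) * 4 ≤ N * Y := Nat.mul_le_mul h1 h5
    have : E = 2 ∨ E = 3 ∨ E = 4 := by omega
    rcases this with rfl | rfl | rfl <;> norm_num at h3 h6 <;> omega
  · obtain ⟨c, rfl⟩ : ∃ c, k = c + 3 := ⟨k - 3, by omega⟩
    have h6 : r * (E + 1) * (2 * c + 5) ≤ N * Y := Nat.mul_le_mul h1 (by omega)
    have : E = 2 ∨ E = 3 ∨ E = 4 := by omega
    rcases this with rfl | rfl | rfl
    · have e1 : 2 * 2 + 2 * (c + 3) - 3 = 2 * c + 7 := by omega
      rw [e1] at h3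
      nlinarith [Nat.zero_le (r * c)]
    · have e1 : 2 * 3 + 2 * (c + 3) - 3 = 2 * c + 9 := by omega
      rw [e1] at h3
      nlinarith [Nat.zero_le (r * c)]
    · have e1 : 2 * 4 + 2 * (c + 3) - 3 = 2 * c + 11 := by omega
      rw [e1] at h3
      nlinarith [Nat.zero_le (r * c)]

theorem LIN_num3 (r y l N X E Y : ℕ) (hr : 1 ≤ r) (hE : 3 ≤ E) (h1 : r * (E + 1) ≤ N)
    (h2 : y * N ≤ X + (4 * r - 1) * (l - Y)) (h2' : X < y * (2 * r)) (hl : 2 * l ≤ y) : False := by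
  have h5 : r * 4 ≤ N := (Nat.mul_le_mul_left _ (by omega)).trans h1
  have h6 : y * (r * 4) ≤ y * N := Nat.mul_le_mul_left _ h5
  have h7 : (4 * r - 1) * (l - Y) ≤ (4 * r) * l := Nat.mul_le_mul (by omega) (by omega)
  nlinarith

/-! ### the theorem -/

/-- the two linear statements for `t` members and level `m` -/
def LinSt (t m : ℕ) : Prop :=
  ∀ (G ι : Type) [AddCommGroup G] [Finite G] (s : Finset ι) (f : ι → G), s.card = t →
    (∀ i ∈ s, f i ≠ 0) → Aper (FS s f) → gen s f = ⊤ →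
      (m ≤ crk (⊥ : AddSubgroup G) → GR (m - 1) (⊥ : AddSubgroup G) (FS s f).card →
        2 ^ (m - 1) * (2 * t + 3 - 2 * m) ≤ 2 * (FS s f).card) ∧
      (GR m (⊥ : AddSubgroup G) (FS s f).card → 2 ^ (m - 1) * (t + 2 - m) ≤ (FS s f).card)

theorem thm_LinSt (t : ℕ) : ∀ m, 1 ≤ m → LinSt t m := by
  induction t using Nat.strong_induction_on with
  | _ t ih =>
  intro m hm G ι _ _ s f hs h0 hA hg
  -- level one
  have hSm := (all_Sm G ι s f h0 hA).1
  rw [hs] at hSm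
  rcases Nat.lt_or_ge m 2 with hm1 | hm2
  · obtain rfl : m = 1 := by omega
    simp only [Nat.sub_self, pow_zero, one_mul]
    exact ⟨fun _ _ => by omega, fun _ => by omega⟩
  obtain ⟨M, rfl⟩ : ∃ M, m = M + 2 := ⟨m - 2, by omega⟩
  have e1 : M + 2 - 1 = M + 1 := by omega
  rw [e1]
  -- drops
  by_cases hdrop : ∃ i ∈ s, f i ∉ gen (s.erase i) f
  · obtain ⟨i, hi, hd⟩ := hdrop
    have h2 : (FS s f).card = 2 * (FS (s.erase i) f).card := (all_Ba1 G ι f).2.2.2.1 s i hi hd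
    have ht : (s.erase i).card = t - 1 := by rw [card_erase_of_mem hi, hs]
    have ht1 : 1 ≤ t := by
      rw [← hs]
      exact card_pos.2 ⟨i, hi⟩
    have hAe := (all_Ba1 G ι f).2.1 s (s.erase i) (erase_subset _ _) hA
    constructor
    · intro hr hG
      obtain ⟨H, _, _, φ, f1, hφ, hf1, hc, hg1, hG1, hr1⟩ := GR_drop s f i hi hg hd (M + 1) hG
      have h01 := ne_res φ _ f f1 hf1 (fun k hk => h0 k (erase_subset _ _ hk))
      have hA1 := aper_res φ hφ _ f f1 hf1 hAe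
      rw [← hc] at hG1
      have h3 := (ih (t - 1) (by omega) (M + 1) (by omega) H ι (s.erase i) f1 ht h01 hA1 hg1).1
        (by omega) hG1
      rw [hc, Nat.add_sub_cancel] at h3
      have e2 : 2 * (t - 1) + 3 - 2 * (M + 1) = 2 * t + 3 - 2 * (M + 2) := by omega
      rw [e2] at h3
      rw [h2, pow_succ]
      calc 2 ^ M * 2 * (2 * t + 3 - 2 * (M + 2)) = 2 * (2 ^ M * (2 * t + 3 - 2 * (M + 2))) := by ring
        _ ≤ _ := Nat.mul_le_mul_left _ h3
    · intro hG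
      obtain ⟨H, _, _, φ, f1, hφ, hf1, hc, hg1, hG1, hr1⟩ := GR_drop s f i hi hg hd (M + 2) hG
      have h01 := ne_res φ _ f f1 hf1 (fun k hk => h0 k (erase_subset _ _ hk))
      have hA1 := aper_res φ hφ _ f f1 hf1 hAe
      rw [← hc] at hG1
      have h3 := (ih (t - 1) (by omega) (M + 1) (by omega) H ι (s.erase i) f1 ht h01 hA1 hg1).2 hG1
      rw [hc, Nat.add_sub_cancel] at h3
      have e2 : t - 1 + 2 - (M + 1) = t + 2 - (M + 2) := by omega
      rw [e2] at h3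
      rw [h2, pow_succ]
      calc 2 ^ M * 2 * (t + 2 - (M + 2)) = 2 * (2 ^ M * (t + 2 - (M + 2))) := by ring
        _ ≤ _ := Nat.mul_le_mul_left _ h3
  push Not at hdrop
  have hge : ∀ i ∈ s, gen (s.erase i) f = ⊤ := by
    intro i hi
    rw [← hg]
    exact (all_Ba1 G ι f).2.2.2.2.2.1 s i hi (hdrop i hi)
  have hcard : ∀ i ∈ s, (s.erase i).card = t - 1 := by
    intro i hi
    rw [card_erase_of_mem hi, hs]
  have hAe : ∀ i, Aper (FS (s.erase i) f) := fun i =>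
    (all_Ba1 G ι f).2.1 s (s.erase i) (erase_subset _ _) hA
  have h0e : ∀ i, ∀ k ∈ s.erase i, f k ≠ 0 := fun i k hk => h0 k (erase_subset _ _ hk)
  have hmono : ∀ i, (FS (s.erase i) f).card ≤ (FS s f).card := fun i =>
    card_le_card (FS_mono (erase_subset _ _) f)
  have hpos : 0 < 2 ^ M := pow_pos (by norm_num) _
  constructor
  · -- LIN
    intro hr hG
    have hbt : (⊥ : AddSubgroup G) ≠ ⊤ := by
      intro h
      rw [h, crk_top] at hr
      omega
    rcases Nat.eq_zero_or_pos M with rfl | hM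
    · -- level two
      have hnc : ¬ IsAddCyclic G := fun h => by
        have := crk_cyc h
        omega
      have h3 := thm_Lin2 G ι s f h0 hA hg hnc
      rw [hs] at h3
      simp only [zero_add, pow_one]
      omega
    by_contra hcon
    push Not at hcon
    obtain ⟨X, hX⟩ : ∃ X, X = (FS s f).card := ⟨_, rfl⟩
    have hte : crk (⊥ : AddSubgroup G) + 1 ≤ t := by
      have h3 := crk_nodrop hbt hge hg
      have h4 : (s.filter fun i => f i ∉ (⊥ : AddSubgroup G)).card ≤ t := by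
        rw [← hs]
        exact card_filter_le _ _
      omega
    have hj : ∀ k ∈ s, lam (FS s f) (f k) ≤ 2 ^ (M + 1) - 1 := by
      intro k hk
      have h3 := (all_Ba1 G ι f).2.2.1 s k hk
      have h4 := (ih (t - 1) (by omega) (M + 2) (by omega) G ι (s.erase k) f (hcard k hk) (h0e k)
        (hAe k) (hge k hk)).1 hr (GR_mono le_rfl (hmono k) hG)
      rw [e1] at h4
      have e2 : 2 * t + 3 - 2 * (M + 2) = (2 * (t - 1) + 3 - 2 * (M + 2)) + 2 := by omega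
      rw [e2, mul_add] at hcon
      omega
    obtain ⟨K, rfl⟩ : ∃ K, M = K + 1 := ⟨M - 1, by omega⟩
    obtain ⟨R, H', _, _, π, hπs, hπk, hRt, hC, q0, qA, qg, qG, hmR, hRr, d2, d3, d4, d6, d7, hek,
      hcr, hlow, -⟩ := setup h0 hA hg hge hbt (K + 1) _ (by omega) hj hG
    obtain ⟨e, he⟩ : ∃ e, e = (s.filter fun i => f i ∉ R).card := ⟨_, rfl⟩
    obtain ⟨k, hk⟩ : ∃ k, k = (s.filter fun i => f i ∈ R).card := ⟨_, rfl⟩
    obtain ⟨y, hy⟩ : ∃ y, y = Nat.card R := ⟨_, rfl⟩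
    obtain ⟨Y, hY⟩ : ∃ Y, Y = (FS (s.filter fun i => f i ∈ R) f).card := ⟨_, rfl⟩
    obtain ⟨N, hN⟩ : ∃ N, N = (FS (s.filter fun i => f i ∉ R) (fun i => π (f i))).card := ⟨_, rfl⟩
    obtain ⟨r, hr2⟩ : ∃ r, r = 2 ^ K := ⟨_, rfl⟩
    have hr0 : 1 ≤ r := hr2 ▸ Nat.one_le_two_pow
    have p1 : 2 ^ (K + 1) = 2 * r := by rw [hr2]; ring
    have p2 : 2 ^ (K + 1 + 1) = 4 * r := by rw [hr2]; ring
    rw [← hN, ← hy, ← hY] at d2
    rw [← hN, ← hY] at d3
    rw [← hk, ← hY] at d4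
    rw [← hk] at d6
    rw [← hY, ← hy] at d7
    rw [← he, ← hk, hs] at hek
    rw [← he] at hcr
    rw [← hy, ← hX] at hlow
    rw [← hX, p2] at d2 hcon
    rw [← hX] at d3
    rcases Nat.lt_or_ge (crk R) (K + 2) with hR1 | hR1
    · have h3 := (ih e (by omega) (K + 1) (by omega) H' ι _ _ he.symm q0 qA qg).2 qG
      rw [← hN, Nat.add_sub_cancel, ← hr2] at h3
      have h4 := hlow (by omega)
      rw [p1] at h4
      have e2 : e + 2 - (K + 1) = (e - K) + 1 := by omega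
      rw [e2] at h3
      have e3 : 2 * t + 3 - 2 * (K + 1 + 2) = 2 * (e - K) + 2 * k - 3 := by omega
      rw [e3] at hcon
      by_cases hL : crk (gen (s.filter fun i => f i ∈ R) f) + 2 ≤ crk (⊥ : AddSubgroup G)
      · have hsub : (s.filter fun i => f i ∈ R) ⊆ s := filter_subset _ _
        obtain ⟨h5, h6⟩ := in_noncyc (s.filter fun i => f i ∈ R) f (fun k hk => h0 k (hsub hk))
          ((all_Ba1 G ι f).2.1 s _ hsub hA) hL
        rw [← hk, ← hY] at h5 h6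
        exact LIN_num2 r y N X (e - K) k Y hr0 (by omega) h3 d2 h4 hcon d3 h5 h6 d7
      · obtain ⟨L, hLd⟩ : ∃ L, L = gen (s.filter fun i => f i ∈ R) f := ⟨_, rfl⟩
        rw [← hLd] at hL
        have hLR : L ≤ R := hLd ▸ P1_gen_le s f R
        have hfil : (s.filter fun i => f i ∈ L) = s.filter fun i => f i ∈ R := by
          rw [hLd]
          exact P1_filter s f R
        have hfil' : (s.filter fun i => f i ∉ L) = s.filter fun i => f i ∉ R := by
          ext i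
          have h5 := Finset.ext_iff.1 hfil i
          simp only [mem_filter] at h5 ⊢
          tauto
        have hLt : L ≠ ⊤ := fun h => hRt (top_le_iff.1 (h ▸ hLR))
        have h5 := crk_nodrop hLt hge hg
        rw [hfil', ← he] at h5
        have hne : L ≠ R := by
          rintro rfl
          omega
        have h6 : 2 * Nat.card L ≤ y := by
          obtain ⟨c, hc⟩ := AddSubgroup.card_dvd_of_le hLR
          have h7 : 0 < Nat.card L := Nat.card_pos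
          have h8 : c ≠ 1 := by
            rintro rfl
            rw [mul_one] at hc
            apply hne
            apply SetLike.coe_injective
            exact Set.eq_of_subset_of_ncard_le (fun x hx => hLR hx) hc.le (Set.toFinite _)
          have h9 : c ≠ 0 := by
            rintro rfl
            have : 0 < Nat.card R := Nat.card_pos
            omega
          rw [hy, hc, mul_comm]
          exact Nat.mul_le_mul_left _ (by omega)
        have h7 := (all_Pc G ι s f L _ h0 hA (by rw [hfil]; exact hLd.symm)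
          (fun i hi _ => hj i hi)).1
        rw [hfil, hLd, ← Cd_st hC, ← q_card s f hπk, ← hLd, ← hN, ← hy, ← hY, ← hX, p2] at h7
        exact LIN_num3 r y _ N X (e - K) Y hr0 (by omega) h3 h7 h4 h6
    · have h3 := (ih e (by omega) (K + 2) (by omega) H' ι _ _ he.symm q0 qA qg).1 (by omega) qG
      have e0 : K + 2 - 1 = K + 1 := by omega
      rw [← hN, e0, p1] at h3
      have e2 : 2 * e + 3 - 2 * (K + 2) = 2 * (e - K - 1) + 1 := by omega
      rw [e2] at h3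
      have e3 : 2 * t + 3 - 2 * (K + 1 + 2) = 2 * (e - K - 1) + 2 * k - 1 := by omega
      rw [e3] at hcon
      have e4 : 4 * r = 2 * (2 * r) := by ring
      rw [e4] at hcon d2
      exact LIN_num1 (2 * r) y N X (e - K - 1) k Y (by omega) (by omega) h3 d2 hcon d4 d7 d6
  · -- SI
    intro hG
    have hr := GR_rank s f hg hG
    have hbt : (⊥ : AddSubgroup G) ≠ ⊤ := by
      intro h
      rw [h, crk_top] at hr
      omega
    by_contra hcon
    push Not at hcon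
    obtain ⟨X, hX⟩ : ∃ X, X = (FS s f).card := ⟨_, rfl⟩
    have hte : crk (⊥ : AddSubgroup G) + 1 ≤ t := by
      have h3 := crk_nodrop hbt hge hg
      have h4 : (s.filter fun i => f i ∉ (⊥ : AddSubgroup G)).card ≤ t := by
        rw [← hs]
        exact card_filter_le _ _
      omega
    have hj : ∀ k ∈ s, lam (FS s f) (f k) ≤ 2 ^ (M + 1) - 1 := by
      intro k hk
      have h3 := (all_Ba1 G ι f).2.2.1 s k hk
      have h4 := (ih (t - 1) (by omega) (M + 2) (by omega) G ι (s.erase k) f (hcard k hk) (h0e k)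
        (hAe k) (hge k hk)).2 (GR_mono le_rfl (hmono k) hG)
      rw [e1] at h4
      have e2 : t + 2 - (M + 2) = (t - 1 + 2 - (M + 2)) + 1 := by omega
      rw [e2, mul_add, mul_one] at hcon
      omega
    obtain ⟨R, H', _, _, π, hπs, hπk, hRt, hC, q0, qA, qg, qG, hmR, hRr, d2, d3, d4, d6, d7, hek,
      hcr, hlow, -⟩ := setup h0 hA hg hge hbt (M + 1) _ (by omega) hj hG
    obtain ⟨e, he⟩ : ∃ e, e = (s.filter fun i => f i ∉ R).card := ⟨_, rfl⟩
    obtain ⟨k, hk⟩ : ∃ k, k = (s.filter fun i => f i ∈ R).card := ⟨_, rfl⟩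
    obtain ⟨y, hy⟩ : ∃ y, y = Nat.card R := ⟨_, rfl⟩
    obtain ⟨Y, hY⟩ : ∃ Y, Y = (FS (s.filter fun i => f i ∈ R) f).card := ⟨_, rfl⟩
    obtain ⟨N, hN⟩ : ∃ N, N = (FS (s.filter fun i => f i ∉ R) (fun i => π (f i))).card := ⟨_, rfl⟩
    obtain ⟨q, hq⟩ : ∃ q, q = 2 ^ M := ⟨_, rfl⟩
    have hq0 : 1 ≤ q := hq ▸ Nat.one_le_two_pow
    have p1 : 2 ^ (M + 1) = 2 * q := by rw [hq]; ring
    rw [← hN, ← hy, ← hY, ← hX, p1] at d2
    rw [← hN, ← hY, ← hX] at d3
    rw [← hk, ← hY] at d4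
    rw [← hk] at d6
    rw [← hY, ← hy] at d7
    rw [← he, ← hk, hs] at hek
    rw [← he] at hcr
    rw [← hy, ← hX, p1] at hlow
    rw [← hX, p1] at hcon
    have e3 : t + 2 - (M + 2) = (e - M) + k := by omega
    rw [e3] at hcon
    rcases Nat.lt_or_ge (crk R) (M + 2) with hR1 | hR1
    · have h3 := (ih e (by omega) (M + 1) (by omega) H' ι _ _ he.symm q0 qA qg).2 qG
      rw [← hN, Nat.add_sub_cancel, ← hq] at h3
      have e2 : e + 2 - (M + 1) = (e - M) + 1 := by omega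
      rw [e2] at h3
      exact SI_num2 q y N X (e - M) k Y hq0 (by omega) h3 d2 (hlow (by omega)) hcon d3 d4 d7 d6
    · have h3 := (ih e (by omega) (M + 2) (by omega) H' ι _ _ he.symm q0 qA qg).1 (by omega) qG
      rw [← hN, e1, p1] at h3
      have e2 : 2 * e + 3 - 2 * (M + 2) = 2 * (e - M) - 1 := by omega
      rw [e2] at h3
      exact SI_num1 (2 * q) y N X (e - M) k Y (by omega) (by omega) h3 d2 hcon d4 d7 d6

/-- `LIN` for all levels -/
theorem thm_LINm (m : ℕ) (hm : 1 ≤ m) (G ι : Type) [AddCommGroup G] [Finite G] (s : Finset ι)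
    (f : ι → G) (h0 : ∀ i ∈ s, f i ≠ 0) (hA : Aper (FS s f)) (hg : gen s f = ⊤)
    (hr : m ≤ crk (⊥ : AddSubgroup G)) (hG : GR (m - 1) (⊥ : AddSubgroup G) (FS s f).card) :
    2 ^ (m - 1) * (2 * s.card + 3 - 2 * m) ≤ 2 * (FS s f).card :=
  (thm_LinSt s.card m hm G ι s f rfl h0 hA hg).1 hr hG

/-- `SI` for all levels -/
theorem thm_SIm (m : ℕ) (hm : 1 ≤ m) (G ι : Type) [AddCommGroup G] [Finite G] (s : Finset ι)
    (f : ι → G) (h0 : ∀ i ∈ s, f i ≠ 0) (hA : Aper (FS s f)) (hg : gen s f = ⊤)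
    (hG : GR m (⊥ : AddSubgroup G) (FS s f).card) :
    2 ^ (m - 1) * (s.card + 2 - m) ≤ (FS s f).card :=
  (thm_LinSt s.card m hm G ι s f rfl h0 hA hg).2 hG

end Pool.Agent.SNR
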