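import Pool.Agent.SNR.Sr
import Pool.Agent.SNW.S

/-!
# SNR, module Gm (helper48): the levels `G_m`

`GR m R n`: `n < |H| 2 ^ rank (G / H)` for all `H ≥ R` with `rank (G / H) < m`.
`max_cand2`: a candidate of maximal order among those of level at least `m`.
-/

set_option autoImplicit false

noncomputable section

open Finset Pool.Agent.Helper64.Rho
open scoped Classical Pointwise

namespace Pool.Agent.SNR

open Pool.Agent.SDG Pool.Agent.SNW

/-- all subgroups `H ≥ R` of level `< m` have a larger saturated value -/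
def GR {G : Type} [AddCommGroup G] [Finite G] (m : ℕ) (R : AddSubgroup G) (n : ℕ) : Prop :=
  ∀ H : AddSubgroup G, R ≤ H → crk H < m → n < Nat.card H * 2 ^ crk H

section
variable {G : Type} [AddCommGroup G] [Finite G]

theorem GR_mono {m m' n n' : ℕ} {R : AddSubgroup G} (h : m' ≤ m) (hn : n' ≤ n) (hG : GR m R n) :
    GR m' R n' := fun H hR hH => lt_of_le_of_lt hn (hG H hR (by omega))

theorem st_bot (X : Finset G) : st X (⊥ : AddSubgroup G) = X := by
  ext x
  rw [P1_mem_st]
  constructor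
  · rintro ⟨a, ha, hx⟩
    rw [AddSubgroup.mem_bot, sub_eq_zero] at hx
    rw [hx]
    exact ha
  · intro hx
    exact ⟨x, hx, by rw [sub_self]; exact AddSubgroup.zero_mem _⟩

theorem card_comap {H : Type} [AddCommGroup H] [Finite H] (P : AddSubgroup G) (π : G →+ H)
    (hs : Function.Surjective π) (hc : Nat.card G = Nat.card P * Nat.card H) (L : AddSubgroup H) :
    Nat.card (L.comap π) = Nat.card P * Nat.card L := by
  have h1 : (L.comap π).index = L.index := AddSubgroup.index_comap_of_surjective L hs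
  have h2 := AddSubgroup.card_mul_index (L.comap π)
  have h3 := AddSubgroup.card_mul_index L
  rw [h1, hc, ← h3, ← mul_assoc] at h2
  have h4 : 0 < L.index := Nat.pos_of_ne_zero AddSubgroup.index_ne_zero_of_finite
  exact Nat.eq_of_mul_eq_mul_right h4 h2

theorem crk_comap {H : Type} [AddCommGroup H] [Finite H] (π : G →+ H)
    (hs : Function.Surjective π) (L : AddSubgroup H) : crk (L.comap π) ≤ crk L := by
  obtain ⟨S, hS, hg⟩ := exists_crk L
  rw [← hS]
  obtain ⟨σ, hσ⟩ := hs.hasRightInverse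
  refine (crk_le (S := S.image σ) ?_).trans card_image_le
  obtain ⟨M, hM⟩ : ∃ M, M = L.comap π ⊔ AddSubgroup.closure ((S.image σ : Finset G) : Set G) :=
    ⟨_, rfl⟩
  rw [← hM]
  have h1 : M.map π = ⊤ := by
    rw [eq_top_iff, ← hg]
    apply sup_le
    · intro y hy
      obtain ⟨x, rfl⟩ := hs y
      exact ⟨x, hM ▸ AddSubgroup.mem_sup_left (AddSubgroup.mem_comap.2 hy), rfl⟩
    · rw [AddSubgroup.closure_le]
      intro y hy
      refine ⟨σ y, ?_, hσ y⟩
      rw [hM]
      exact AddSubgroup.mem_sup_right (AddSubgroup.subset_closure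
        (mem_coe.2 (mem_image_of_mem σ (mem_coe.1 hy))))
  rw [eq_top_iff]
  intro x _
  have h2 : π x ∈ M.map π := h1 ▸ AddSubgroup.mem_top _
  obtain ⟨y, hy, hyx⟩ := h2
  have h3 : x - y ∈ M := by
    rw [hM]
    refine AddSubgroup.mem_sup_left (AddSubgroup.mem_comap.2 ?_)
    rw [map_sub, hyx, sub_self]
    exact L.zero_mem
  have h4 : x = (x - y) + y := by abel
  rw [h4]
  exact M.add_mem h3 hy

/-- passage to a quotient -/
theorem GR_quot {H : Type} [AddCommGroup H] [Finite H] (P : AddSubgroup G) (π : G →+ H)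
    (hs : Function.Surjective π) (hk : ∀ x, π x = 0 ↔ x ∈ P)
    (hc : Nat.card G = Nat.card P * Nat.card H) (m N : ℕ) (hG : GR m P (Nat.card P * N)) :
    GR m (⊥ : AddSubgroup H) N := by
  intro L _ hL
  have h1 : P ≤ L.comap π := by
    intro x hx
    rw [AddSubgroup.mem_comap, (hk x).2 hx]
    exact L.zero_mem
  have h2 := crk_comap π hs L
  have h3 := hG _ h1 (by omega)
  rw [card_comap P π hs hc L] at h3
  have h4 : 0 < Nat.card P := Nat.card_pos
  have h5 : Nat.card P * N < Nat.card P * (Nat.card L * 2 ^ crk L) := by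
    refine lt_of_lt_of_le h3 ?_
    rw [mul_assoc]
    refine Nat.mul_le_mul_left _ (Nat.mul_le_mul_left _ (Nat.pow_le_pow_right (by norm_num) h2))
  exact Nat.lt_of_mul_lt_mul_left h5

theorem crk_quot {H : Type} [AddCommGroup H] [Finite H] (P : AddSubgroup G) (π : G →+ H)
    (hs : Function.Surjective π) (hk : ∀ x, π x = 0 ↔ x ∈ P) : crk P ≤ crk (⊥ : AddSubgroup H) := by
  have h1 : P = (⊥ : AddSubgroup H).comap π := by
    ext x
    rw [AddSubgroup.mem_comap, AddSubgroup.mem_bot, hk]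
  rw [h1]
  exact crk_comap π hs _

variable {ι : Type}

/-- a member outside the group of the others -/
theorem GR_drop (s : Finset ι) (f : ι → G) (i : ι) (hi : i ∈ s) (hg : gen s f = ⊤)
    (hd : f i ∉ gen (s.erase i) f) (m : ℕ) (hG : GR m (⊥ : AddSubgroup G) (FS s f).card) :
    ∃ (H : Type) (_ : AddCommGroup H) (_ : Finite H) (φ : H →+ G) (f1 : ι → H),
      Function.Injective φ ∧ (∀ k ∈ s.erase i, φ (f1 k) = f k) ∧
      (FS (s.erase i) f1).card = (FS (s.erase i) f).card ∧ gen (s.erase i) f1 = ⊤ ∧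
      GR (m - 1) (⊥ : AddSubgroup H) (FS (s.erase i) f).card ∧
      crk (⊥ : AddSubgroup G) ≤ crk (⊥ : AddSubgroup H) + 1 := by
  obtain ⟨H, _, _, φ, f1, hφ, hr, hf1, hc, hg1⟩ := res (s.erase i) f _ rfl
  have hz : φ.range ⊔ AddSubgroup.zmultiples (f i) = ⊤ := by
    rw [eq_top_iff, ← hg, hr]
    conv_lhs => unfold gen
    rw [AddSubgroup.closure_le]
    rintro _ ⟨k, hk, rfl⟩
    by_cases hki : k = i
    · subst hki
      exact AddSubgroup.mem_sup_right (AddSubgroup.mem_zmultiples _)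
    · exact AddSubgroup.mem_sup_left (P1_mem_gen (mem_erase.2 ⟨hki, mem_coe.1 hk⟩))
  have h2 : (FS s f).card = 2 * (FS (s.erase i) f).card := (all_Ba1 G ι f).2.2.2.1 s i hi hd
  refine ⟨H, inferInstance, inferInstance, φ, f1, hφ, hf1, hc, hg1, ?_, ?_⟩
  · intro M _ hM
    have h3 := crk_sub φ (f i) hz M
    have h4 := hG (M.map φ) bot_le (by omega)
    have h5 : Nat.card (M.map φ) = Nat.card M := AddSubgroup.card_map_of_injective hφ
    rw [h5, h2] at h4
    have h6 : Nat.card M * 2 ^ crk (M.map φ) ≤ 2 * (Nat.card M * 2 ^ crk M) := by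
      calc Nat.card M * 2 ^ crk (M.map φ) ≤ Nat.card M * 2 ^ (crk M + 1) :=
            Nat.mul_le_mul_left _ (Nat.pow_le_pow_right (by norm_num) h3)
        _ = 2 * (Nat.card M * 2 ^ crk M) := by ring
    omega
  · have h3 := crk_sub φ (f i) hz ⊥
    rwa [AddSubgroup.map_bot] at h3

theorem crk_nodrop {s : Finset ι} {f : ι → G} {P : AddSubgroup G} (hP : P ≠ ⊤)
    (hg : ∀ i ∈ s, gen (s.erase i) f = ⊤) (hg' : gen s f = ⊤) :
    crk P + 1 ≤ (s.filter fun i => f i ∉ P).card := by
  have h1 := two_le_card hP hg hg'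
  obtain ⟨i, hi⟩ : (s.filter fun i => f i ∉ P).Nonempty := by
    rw [← card_pos]
    omega
  have h2 : crk P ≤ ((s.filter fun i => f i ∉ P).erase i).card := by
    refine (crk_le (S := ((s.filter fun i => f i ∉ P).erase i).image f) ?_).trans card_image_le
    rw [eq_top_iff, ← hg i (mem_filter.1 hi).1]
    unfold gen
    rw [AddSubgroup.closure_le]
    rintro _ ⟨k, hk, rfl⟩
    obtain ⟨hk1, hk2⟩ := mem_erase.1 (mem_coe.1 hk)
    by_cases h3 : f k ∈ P
    · exact AddSubgroup.mem_sup_left h3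
    · refine AddSubgroup.mem_sup_right (AddSubgroup.subset_closure (mem_coe.2 (mem_image_of_mem f ?_)))
      exact mem_erase.2 ⟨hk1, mem_filter.2 ⟨hk2, h3⟩⟩
  rw [card_erase_of_mem hi] at h2
  omega

/-- a candidate of maximal order among those of level at least `m` -/
theorem max_cand2 {s : Finset ι} {f : ι → G} (h0 : ∀ i ∈ s, f i ≠ 0) (hA : Aper (FS s f))
    (hG : (⊥ : AddSubgroup G) ≠ ⊤) (m : ℕ) (hm : 1 ≤ m) (hGR : GR m (⊥ : AddSubgroup G) (FS s f).card) :
    ∃ R : AddSubgroup G, Cd s f R ∧ GR m R (st (FS s f) R).card ∧ ∀ i ∈ s, f i ∉ R →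
      ∃ H : AddSubgroup G, R ≤ H ∧ f i ∈ H ∧ crk H < m ∧
        Nat.card H * 2 ^ crk H ≤
          (st (FS s f) (gen (insert i (s.filter fun k => f k ∈ R)) f)).card := by
  have hne : Nonempty {P : AddSubgroup G // Cd s f P ∧ GR m P (st (FS s f) P).card} :=
    ⟨⟨⊥, Cd_bot h0 hA hG, by rw [st_bot]; exact hGR⟩⟩
  obtain ⟨⟨R, hR, hRG⟩, hmax⟩ := Finite.exists_max
    (fun P : {P : AddSubgroup G // Cd s f P ∧ GR m P (st (FS s f) P).card} => Nat.card P.1)
  refine ⟨R, hR, hRG, ?_⟩
  intro i hi hiR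
  obtain ⟨P, hLP, hP, hcase⟩ := Cd_exists s f _ (gen_self s f (insert i (s.filter fun k => f k ∈ R))
    (insert_subset hi (filter_subset _ _)))
  have hsub : gen (s.filter fun k => f k ∈ R) f ≤
      gen (insert i (s.filter fun k => f k ∈ R)) f := by
    conv_lhs => unfold gen
    rw [AddSubgroup.closure_le]
    rintro _ ⟨k, hk, rfl⟩
    exact P1_mem_gen (mem_insert_of_mem (mem_coe.1 hk))
  have hiP : f i ∈ P := hLP (P1_mem_gen (mem_insert_self i _))
  have hRP : R ≤ P := by
    intro y hy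
    rw [hP]
    intro x hx
    obtain ⟨a, ha, hxa⟩ := P1_mem_st.1 hx
    have h6 : a ∈ st (FS s f) (gen (s.filter fun k => f k ∈ R) f) :=
      P1_mem_st.2 ⟨a, ha, by rw [sub_self]; exact AddSubgroup.zero_mem _⟩
    obtain ⟨b, hb, hab⟩ := P1_mem_st.1 ((hR.2 y).1 hy a h6)
    refine P1_mem_st.2 ⟨b, hb, ?_⟩
    have h7 : x + y - b = (x - a) + (a + y - b) := by abel
    rw [h7]
    exact AddSubgroup.add_mem _ hxa (hsub hab)
  rcases hcase with htop | hC
  · refine ⟨⊤, le_top, AddSubgroup.mem_top _, by rw [crk_top]; omega, ?_⟩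
    rw [crk_top, pow_zero, mul_one, AddSubgroup.card_top]
    have := Fintype.ofFinite G
    rw [Nat.card_eq_fintype_card, ← card_univ]
    refine card_le_card fun g _ => ?_
    have h3 : g ∈ P := by rw [htop]; trivial
    have h4 : (0 : G) ∈ st (FS s f) (gen (insert i (s.filter fun k => f k ∈ R)) f) :=
      P1_mem_st.2 ⟨0, zero_mem_FS s f, by rw [sub_self]; exact AddSubgroup.zero_mem _⟩
    have h5 := (hP g).1 h3 0 h4
    rwa [zero_add] at h5
  · have hst : st (FS s f) P =
        st (FS s f) (gen (insert i (s.filter fun k => f k ∈ R)) f) :=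
      P1_st (FS s f) _ P P hLP le_rfl hP
    by_contra hcon
    push Not at hcon
    have h7 : GR m P (st (FS s f) P).card := by
      intro H hPH hH
      rw [hst]
      exact hcon H (hRP.trans hPH) (hPH hiP) hH
    have h8 : Nat.card P ≤ Nat.card R := hmax ⟨P, hC, h7⟩
    have h9 : R = P := by
      apply SetLike.coe_injective
      exact Set.eq_of_subset_of_ncard_le (fun x hx => hRP hx) h8 (Set.toFinite _)
    exact hiR (h9 ▸ hiP)

end

end Pool.Agent.SNR
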