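import Pool.Agent.SNR.Z2
import Pool.Agent.SNR.Su

/-!
# SNR, module Nd (helper48): families without drops

`nd_tri`: a family without drop, minus one member. `q_nodrop`: quotients by candidates have no drop.
-/

set_option autoImplicit false

noncomputable section

open Finset Pool.Agent.Helper64.Rho
open scoped Classical Pointwise

namespace Pool.Agent.SNR

open Pool.Agent.SDG Pool.Agent.SNW

section
variable {G : Type} [AddCommGroup G] [Finite G] {ι : Type}

/-- three translates in different cosets -/
theorem three_cosets (T A : Finset G) (L : AddSubgroup G) (hAL : ∀ x ∈ A, x ∈ L) (a b c : G)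
    (ha : ∀ x ∈ A, x + a ∈ T) (hb : ∀ x ∈ A, x + b ∈ T) (hc : ∀ x ∈ A, x + c ∈ T)
    (hab : a - b ∉ L) (hac : a - c ∉ L) (hbc : b - c ∉ L) : 3 * A.card ≤ T.card := by
  have inj : ∀ z : G, (A.image fun x => x + z).card = A.card := fun z =>
    card_image_of_injective _ (add_left_injective z)
  have hd : ∀ u v : G, u - v ∉ L → Disjoint (A.image fun x => x + u) (A.image fun x => x + v) := by
    intro u v huv
    rw [disjoint_left]
    intro y hy1 hy2
    obtain ⟨x1, hx1, rfl⟩ := mem_image.1 hy1
    obtain ⟨x2, hx2, hxx⟩ := mem_image.1 hy2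
    apply huv
    have h1 : u - v = x2 - x1 := by
      have : x2 + v = x1 + u := hxx
      rw [sub_eq_sub_iff_add_eq_add, add_comm u x1, ← this, add_comm]
    rw [h1]
    exact L.sub_mem (hAL _ hx2) (hAL _ hx1)
  have h1 : ((A.image fun x => x + a) ∪ (A.image fun x => x + b) ∪ (A.image fun x => x + c)).card =
      3 * A.card := by
    rw [card_union_of_disjoint, card_union_of_disjoint (hd a b hab), inj, inj, inj]
    · ring
    · rw [disjoint_union_left]
      exact ⟨hd a c hac, hd b c hbc⟩
  rw [← h1]
  apply card_le_card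
  intro y hy
  rw [mem_union, mem_union] at hy
  rcases hy with (hy | hy) | hy
  · obtain ⟨x, hx, rfl⟩ := mem_image.1 hy
    exact ha x hx
  · obtain ⟨x, hx, rfl⟩ := mem_image.1 hy
    exact hb x hx
  · obtain ⟨x, hx, rfl⟩ := mem_image.1 hy
    exact hc x hx

/-- **the three cases** of a member of a family without drop -/
theorem nd_tri (s : Finset ι) (f : ι → G) (hge : ∀ i ∈ s, gen (s.erase i) f = ⊤) (z : ι) (hz : z ∈ s) :
    (∀ i ∈ s.erase z, gen ((s.erase z).erase i) f = ⊤) ∨
    ∃ w ∈ s.erase z, f w ∉ gen ((s.erase z).erase w) f ∧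
      (3 * (FS ((s.erase z).erase w) f).card ≤ (FS s f).card ∨
        f w + f w ∈ gen ((s.erase z).erase w) f) := by
  by_cases hd : ∃ w ∈ s.erase z, f w ∉ gen ((s.erase z).erase w) f
  · right
    obtain ⟨w, hw, hd⟩ := hd
    refine ⟨w, hw, hd, ?_⟩
    by_cases h2 : f w + f w ∈ gen ((s.erase z).erase w) f
    · exact Or.inr h2
    left
    obtain ⟨hwz, hws⟩ := mem_erase.1 hw
    obtain ⟨L, hL⟩ : ∃ L, L = gen ((s.erase z).erase w) f := ⟨_, rfl⟩
    rw [← hL] at hd h2
    have hzL : f z ∉ L := by
      intro hzL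
      apply hd
      have h1 : gen (s.erase w) f ≤ L := by
        unfold gen
        rw [AddSubgroup.closure_le]
        rintro _ ⟨k, hk, rfl⟩
        obtain ⟨hk1, hk2⟩ := mem_erase.1 (mem_coe.1 hk)
        by_cases hkz : k = z
        · rw [hkz]
          exact hzL
        · rw [hL]
          exact P1_mem_gen (mem_erase.2 ⟨hk1, mem_erase.2 ⟨hkz, hk2⟩⟩)
      rw [hge w hws] at h1
      exact h1 (AddSubgroup.mem_top _)
    have hAL : ∀ x ∈ FS ((s.erase z).erase w) f, x ∈ L := fun x hx => by
      rw [hL]
      exact (all_Ba1 G ι f).2.2.2.2.2.2 _ x hx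
    have hT : ∀ (r : Finset ι), r ⊆ {z, w} → ∀ x ∈ FS ((s.erase z).erase w) f,
        x + ∑ i ∈ r, f i ∈ FS s f := by
      intro r hr x hx
      obtain ⟨t, ht, rfl⟩ := mem_FS.1 hx
      have hdis : Disjoint t r := by
        rw [disjoint_left]
        intro i hi1 hi2
        have h1 := mem_erase.1 (ht hi1)
        have h3 := mem_erase.1 h1.2
        rcases mem_insert.1 (hr hi2) with h4 | h4
        · exact h3.1 h4
        · exact h1.1 (mem_singleton.1 h4)
      rw [← sum_union hdis]
      refine mem_FS.2 ⟨t ∪ r, ?_, rfl⟩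
      apply union_subset (ht.trans ((erase_subset _ _).trans (erase_subset _ _)))
      intro i hi
      rcases mem_insert.1 (hr hi) with h4 | h4
      · rw [h4]
        exact hz
      · rw [mem_singleton.1 h4]
        exact hws
    have e0 : ∀ x ∈ FS ((s.erase z).erase w) f, x + 0 ∈ FS s f := by
      have := hT ∅ (empty_subset _)
      simpa using this
    have e1 : ∀ x ∈ FS ((s.erase z).erase w) f, x + f w ∈ FS s f := by
      have := hT {w} (by simp)
      simpa using this
    have e2 : ∀ x ∈ FS ((s.erase z).erase w) f, x + f z ∈ FS s f := by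
      have := hT {z} (by simp)
      simpa using this
    have e3 : ∀ x ∈ FS ((s.erase z).erase w) f, x + (f z + f w) ∈ FS s f := by
      have := hT {z, w} (subset_refl _)
      rwa [sum_pair (Ne.symm hwz)] at this
    by_cases h3 : f z - f w ∈ L
    · refine three_cosets _ _ L hAL 0 (f w) (f z + f w) e0 e1 e3 ?_ ?_ ?_
      · rw [zero_sub, L.neg_mem_iff]
        exact hd
      · rw [zero_sub, L.neg_mem_iff]
        intro h4
        apply h2
        have h5 : f w + f w = (f z + f w) - (f z - f w) := by abel
        rw [h5]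
        exact L.sub_mem h4 h3
      · have h5 : f w - (f z + f w) = - f z := by abel
        rw [h5, L.neg_mem_iff]
        exact hzL
    · refine three_cosets _ _ L hAL 0 (f w) (f z) e0 e1 e2 ?_ ?_ ?_
      · rw [zero_sub, L.neg_mem_iff]
        exact hd
      · rw [zero_sub, L.neg_mem_iff]
        exact hzL
      · intro h4
        apply h3
        rw [← L.neg_mem_iff, neg_sub]
        exact h4
  · left
    push Not at hd
    intro i hi
    rw [← hge z hz]
    exact (all_Ba1 G ι f).2.2.2.2.2.1 _ i hi (hd i hi)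

/-- quotients by candidates have no drop -/
theorem q_nodrop {H : Type} [AddCommGroup H] [Finite H] (s : Finset ι) (f : ι → G) {P : AddSubgroup G}
    {π : G →+ H} (hs : Function.Surjective π) (hk : ∀ x, π x = 0 ↔ x ∈ P)
    (hge : ∀ i ∈ s, gen (s.erase i) f = ⊤) :
    ∀ i ∈ s.filter (fun i => f i ∉ P), gen ((s.filter fun i => f i ∉ P).erase i) (fun i => π (f i)) = ⊤ := by
  intro i hi
  have h1 := q_gen (s.erase i) f hs hk (hge i (mem_filter.1 hi).1)
  have h2 : (s.erase i).filter (fun i => f i ∉ P) = (s.filter fun i => f i ∉ P).erase i := by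
    ext k
    simp only [mem_filter, mem_erase]
    tauto
  rwa [h2] at h1

end

end Pool.Agent.SNR
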