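import Pool.Agent.SNR.Nd
import Pool.Agent.SNR.Lm

/-!
# SNR, module Ndi (helper48): families without drop of level `m ≥ 2`, no cap

`thm_NDIm`: `3 2 ^ (m - 2) (t + 1 - m) ≤ |T|`.
-/

set_option autoImplicit false

noncomputable section

open Finset Pool.Agent.Helper64.Rho
open scoped Classical Pointwise

namespace Pool.Agent.SNR

open Pool.Agent.SDG Pool.Agent.SNW

def NdiSt (t : ℕ) : Prop :=
  ∀ (m : ℕ) (G ι : Type) [AddCommGroup G] [Finite G] (s : Finset ι) (f : ι → G), 2 ≤ m → s.card = t →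
    (∀ i ∈ s, f i ≠ 0) → Aper (FS s f) → gen s f = ⊤ → (∀ i ∈ s, gen (s.erase i) f = ⊤) →
      GR m (⊥ : AddSubgroup G) (FS s f).card → 3 * 2 ^ (m - 2) * (t + 1 - m) ≤ (FS s f).card

/-! ### numbers -/

theorem Ndi_C (q E k N X Y : ℕ) (hE : 2 ≤ E) (hk : 1 ≤ k) (hY : k + 1 ≤ Y)
    (h1 : 3 * q * E ≤ 2 * N) (h2 : N * Y ≤ X) (h3 : X < 3 * q * (E + k - 1)) : False := by
  have h4 : 3 * q * (E * Y) ≤ 2 * X := by
    calc 3 * q * (E * Y) = 3 * q * E * Y := by ring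
      _ ≤ 2 * N * Y := Nat.mul_le_mul_right _ h1
      _ = 2 * (N * Y) := by ring
      _ ≤ 2 * X := Nat.mul_le_mul_left _ h2
  have h5 : 3 * q * (E * Y) < 3 * q * (2 * (E + k - 1)) := by
    calc 3 * q * (E * Y) ≤ 2 * X := h4
      _ < 2 * (3 * q * (E + k - 1)) := by omega
      _ = _ := by ring
  have h6 : E * Y < 2 * (E + k - 1) := Nat.lt_of_mul_lt_mul_left h5
  obtain ⟨a, rfl⟩ : ∃ a, E = a + 2 := ⟨E - 2, by omega⟩
  obtain ⟨b, rfl⟩ : ∃ b, k = b + 1 := ⟨k - 1, by omega⟩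
  have h7 : (a + 2) * (b + 1 + 1) ≤ (a + 2) * Y := Nat.mul_le_mul_left _ hY
  have h8 : (a + 2) * (b + 1 + 1) = a * b + 2 * a + 2 * b + 4 := by ring
  have h9 := Nat.zero_le (a * b)
  omega

theorem Ndi_C1 (e k N X Y y : ℕ) (he : 2 ≤ e) (hk : 1 ≤ k) (hY : k + 1 ≤ Y)
    (h1 : e + 1 ≤ N) (h2 : N * Y ≤ X) (h3 : X < 3 * (e + k - 1)) (h4 : X < y * 2)
    (h5 : y * N ≤ X + 2 * (y - Y)) : False := by
  have h6 : N ≤ 3 := by
    by_contra hcon
    push Not at hcon
    have h7 : y * 4 ≤ y * N := Nat.mul_le_mul_left _ hcon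
    omega
  have h7 : 3 * Y ≤ N * Y := Nat.mul_le_mul_right _ (by omega)
  omega

theorem Ndi_D (q E k N X Y : ℕ) (hE : 3 ≤ E) (hk : 1 ≤ k) (hY : k + 1 ≤ Y)
    (h1 : q * (2 * E - 1) ≤ N) (h2 : N * Y ≤ X) (h3 : X < 3 * q * (E + k - 1)) : False := by
  have h5 : q * ((2 * E - 1) * Y) < q * (3 * (E + k - 1)) := by
    calc q * ((2 * E - 1) * Y) = q * (2 * E - 1) * Y := by ring
      _ ≤ N * Y := Nat.mul_le_mul_right _ h1
      _ ≤ X := h2
      _ < 3 * q * (E + k - 1) := h3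
      _ = _ := by ring
  have h6 : (2 * E - 1) * Y < 3 * (E + k - 1) := Nat.lt_of_mul_lt_mul_left h5
  obtain ⟨a, rfl⟩ : ∃ a, E = a + 3 := ⟨E - 3, by omega⟩
  obtain ⟨b, rfl⟩ : ∃ b, k = b + 1 := ⟨k - 1, by omega⟩
  have e1 : 2 * (a + 3) - 1 = 2 * a + 5 := by omega
  rw [e1] at h6
  have h7 : (2 * a + 5) * (b + 1 + 1) ≤ (2 * a + 5) * Y := Nat.mul_le_mul_left _ hY
  have h8 : (2 * a + 5) * (b + 1 + 1) = 2 * (a * b) + 4 * a + 5 * b + 10 := by ring
  have h9 := Nat.zero_le (a * b)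
  omega

/-! ### the theorem -/

theorem thm_NdiSt (t : ℕ) : NdiSt t := by
  induction t using Nat.strong_induction_on with
  | _ t ih =>
  intro m G ι _ _ s f hm hs h0 hA hg hge hG
  obtain ⟨M, rfl⟩ : ∃ M, m = M + 2 := ⟨m - 2, by omega⟩
  have e1 : M + 2 - 2 = M := by omega
  rw [e1]
  have hr := GR_rank s f hg hG
  have hbt : (⊥ : AddSubgroup G) ≠ ⊤ := by
    intro h
    rw [h, crk_top] at hr
    omega
  have hcard : ∀ i ∈ s, (s.erase i).card = t - 1 := by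
    intro i hi
    rw [card_erase_of_mem hi, hs]
  have hAe : ∀ i, Aper (FS (s.erase i) f) := fun i =>
    (all_Ba1 G ι f).2.1 s (s.erase i) (erase_subset _ _) hA
  have h0e : ∀ i, ∀ k ∈ s.erase i, f k ≠ 0 := fun i k hk => h0 k (erase_subset _ _ hk)
  have hmono : ∀ i, (FS (s.erase i) f).card ≤ (FS s f).card := fun i =>
    card_le_card (FS_mono (erase_subset _ _) f)
  by_contra hcon
  push Not at hcon
  have hte : crk (⊥ : AddSubgroup G) + 1 ≤ t := by
    have h3 := crk_nodrop hbt hge hg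
    have h4 : (s.filter fun i => f i ∉ (⊥ : AddSubgroup G)).card ≤ t := by
      rw [← hs]
      exact card_filter_le _ _
    omega
  obtain ⟨q, hq⟩ : ∃ q, q = 2 ^ M := ⟨_, rfl⟩
  have hq0 : 1 ≤ q := hq ▸ Nat.one_le_two_pow
  have p1 : 2 ^ (M + 1) = 2 * q := by rw [hq]; ring
  obtain ⟨X, hX⟩ : ∃ X, X = (FS s f).card := ⟨_, rfl⟩
  rw [← hX, ← hq] at hcon
  -- the bound for a member less
  have hlow : ∀ z ∈ s, 3 * q * (t + 1 - (M + 2)) ≤ 3 * q + (FS (s.erase z) f).card := by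
    intro z hz
    have et : t + 1 - (M + 2) = (t - (M + 2)) + 1 := by omega
    rw [et, mul_add, mul_one, add_comm (3 * q)]
    apply Nat.add_le_add_right
    have hGz := GR_mono (le_refl (M + 2)) (hmono z) hG
    rcases nd_tri s f hge z hz with h1 | ⟨w, hw, hd, h1⟩
    · have h2 := ih (t - 1) (by omega) (M + 2) G ι (s.erase z) f hm (hcard z hz) (h0e z) (hAe z)
        (hge z hz) h1 hGz
      rw [e1, ← hq] at h2
      have e2 : t - 1 + 1 - (M + 2) = t - (M + 2) := by omega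
      rwa [e2] at h2
    · have hc2 : ((s.erase z).erase w).card = t - 2 := by
        rw [card_erase_of_mem hw, hcard z hz]
        omega
      have hA2 : Aper (FS ((s.erase z).erase w) f) :=
        (all_Ba1 G ι f).2.1 _ _ ((erase_subset _ _).trans (erase_subset _ _)) hA
      have h02 : ∀ k ∈ (s.erase z).erase w, f k ≠ 0 := fun k hk =>
        h0 k (erase_subset _ _ (erase_subset _ _ hk))
      rcases h1 with h1 | h1
      · exfalso
        obtain ⟨H, _, _, φ, f1, hφ, hf1, hc, hg1, hG1, hr1⟩ :=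
          GR_drop (s.erase z) f w hw (hge z hz) hd (M + 2) hGz
        have h3 := thm_SIm (M + 1) (by omega) H ι ((s.erase z).erase w) f1
          (ne_res φ _ f f1 hf1 h02) (aper_res φ hφ _ f f1 hf1 hA2) hg1 (by
            rw [hc]
            exact hG1)
        rw [hc, hc2, Nat.add_sub_cancel, ← hq] at h3
        have e2 : t - 2 + 2 - (M + 1) = t + 1 - (M + 2) := by omega
        rw [e2] at h3
        have h4 : 3 * (q * (t + 1 - (M + 2))) ≤ 3 * (FS ((s.erase z).erase w) f).card :=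
          Nat.mul_le_mul_left _ h3
        have h5 : 3 * q * (t + 1 - (M + 2)) = 3 * (q * (t + 1 - (M + 2))) := by ring
        omega
      · obtain ⟨H, _, _, φ, f1, hφ, hf1, hc, hg1, hG1, hr1⟩ :=
          GR_two (s.erase z) f w hw (hge z hz) hd h1 (M + 2) hGz
        have h3 := thm_SIm (M + 2) (by omega) H ι ((s.erase z).erase w) f1
          (ne_res φ _ f f1 hf1 h02) (aper_res φ hφ _ f f1 hf1 hA2) hg1 (by
            rw [hc]
            exact hG1)
        have e3 : M + 2 - 1 = M + 1 := by omega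
        have e2 : t - 2 + 2 - (M + 2) = t - (M + 2) := by omega
        rw [hc, hc2, e3, e2, p1] at h3
        have h4 : (FS (s.erase z) f).card = 2 * (FS ((s.erase z).erase w) f).card :=
          (all_Ba1 G ι f).2.2.2.1 _ w hw hd
        rw [h4]
        calc 3 * q * (t - (M + 2)) ≤ 4 * q * (t - (M + 2)) :=
              Nat.mul_le_mul_right _ (Nat.mul_le_mul_right _ (by norm_num))
          _ = 2 * (2 * q * (t - (M + 2))) := by ring
          _ ≤ _ := Nat.mul_le_mul_left _ h3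
  have hj : ∀ k ∈ s, lam (FS s f) (f k) ≤ 3 * q - 1 := by
    intro k hk
    have h3 := (all_Ba1 G ι f).2.2.1 s k hk
    have h4 := hlow k hk
    rw [← hX] at h3
    omega
  obtain ⟨R, H', _, _, π, hπs, hπk, hRt, hC, q0, qA, qg, qG, hmR, hRr, d2, d3, d4, d6, d7, hek,
    hcr, hlw, -⟩ := setup h0 hA hg hge hbt (M + 1) _ (by omega) hj hG
  have qnd := q_nodrop s f hπs hπk hge
  obtain ⟨e, he⟩ : ∃ e, e = (s.filter fun i => f i ∉ R).card := ⟨_, rfl⟩
  obtain ⟨k, hk⟩ : ∃ k, k = (s.filter fun i => f i ∈ R).card := ⟨_, rfl⟩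
  obtain ⟨y, hy⟩ : ∃ y, y = Nat.card R := ⟨_, rfl⟩
  obtain ⟨Y, hY⟩ : ∃ Y, Y = (FS (s.filter fun i => f i ∈ R) f).card := ⟨_, rfl⟩
  obtain ⟨N, hN⟩ : ∃ N, N = (FS (s.filter fun i => f i ∉ R) (fun i => π (f i))).card := ⟨_, rfl⟩
  rw [← hN, ← hy, ← hY, ← hX] at d2
  rw [← hN, ← hY, ← hX] at d3
  rw [← hk, ← hY] at d4
  rw [← hk] at d6
  rw [← hY, ← hy] at d7
  rw [← he, ← hk, hs] at hek
  rw [← he] at hcr
  rw [← hy, ← hX, p1] at hlw
  obtain ⟨E, hE⟩ : ∃ E, E = e - M := ⟨_, rfl⟩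
  have hEk : t + 1 - (M + 2) = E + k - 1 := by omega
  rw [hEk] at hcon
  rcases Nat.lt_or_ge (crk R) (M + 2) with hR1 | hR1
  · have hXy := hlw (by omega)
    rcases Nat.eq_zero_or_pos M with hM0 | hM0
    · have hq1 : q = 1 := by rw [hq, hM0, pow_zero]
      have h3 := (all_Sm H' ι _ (fun i => π (f i)) q0 qA).1
      rw [← he, ← hN] at h3
      rw [hq1] at hcon d2 hXy
      refine Ndi_C1 e k N X Y y (by omega) d6 d4 h3 d3 ?_ (by omega) (by
        have e5 : 3 * 1 - 1 = 2 := rfl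
        rwa [e5] at d2)
      have e4 : E = e := by omega
      rw [e4] at hcon
      omega
    · have h3 := ih e (by omega) (M + 1) H' ι (s.filter fun i => f i ∉ R) (fun i => π (f i))
        (by omega) he.symm q0 qA qg qnd qG
      obtain ⟨M', rfl⟩ : ∃ M', M = M' + 1 := ⟨M - 1, by omega⟩
      have e4 : M' + 1 + 1 - 2 = M' := by omega
      have e5 : e + 1 - (M' + 1 + 1) = E := by omega
      rw [e4, e5, ← hN] at h3
      have hq2 : q = 2 * 2 ^ M' := by rw [hq]; ring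
      refine Ndi_C q E k N X Y (by omega) d6 d4 ?_ d3 hcon
      rw [hq2]
      calc 3 * (2 * 2 ^ M') * E = 2 * (3 * 2 ^ M' * E) := by ring
        _ ≤ 2 * N := Nat.mul_le_mul_left _ h3
  · have h3 := thm_LINm (M + 2) (by omega) H' ι _ _ q0 qA qg (by omega) qG
    have e3 : M + 2 - 1 = M + 1 := by omega
    rw [← he, ← hN, e3, p1] at h3
    have e2 : 2 * e + 3 - 2 * (M + 2) = 2 * E - 1 := by omega
    rw [e2] at h3
    refine Ndi_D q E k N X Y (by omega) d6 d4 ?_ d3 hcon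
    have h4 : 2 * q * (2 * E - 1) = 2 * (q * (2 * E - 1)) := by ring
    omega

/-- **families without drop, no cap** -/
theorem thm_NDIm (m : ℕ) (hm : 2 ≤ m) (G ι : Type) [AddCommGroup G] [Finite G] (s : Finset ι)
    (f : ι → G) (h0 : ∀ i ∈ s, f i ≠ 0) (hA : Aper (FS s f)) (hg : gen s f = ⊤)
    (hge : ∀ i ∈ s, gen (s.erase i) f = ⊤) (hG : GR m (⊥ : AddSubgroup G) (FS s f).card) :
    3 * 2 ^ (m - 2) * (s.card + 1 - m) ≤ (FS s f).card :=
  thm_NdiSt s.card m G ι s f hm rfl h0 hA hg hge hG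

end Pool.Agent.SNR
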