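import Pool.Agent.SDG.All
import Pool.Agent.Helper64.Rho.Weak
import Pool.Agent.Helper64.Rho.Dual

/-!
# SNR, module Sr (helper48): Theorem S for all ranks, cap `2 h`, `h ≥ 2` (MP_ec93d3_co)

`thm_Sr`: a generating family of `t` nonzero elements of a finite abelian group `G ≠ 0` of rank `r`, at most `2 h` of
them equal to `± x`, has at least `2 ^ (r - 1) * cf (2 h) (t + 1 - r)` sums or at least `|K| 2 ^ (rank G / K)` sums
for some subgroup `K ≠ 0`.
-/

set_option autoImplicit false

noncomputable section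

open Finset Pool.Agent.Helper64.Rho
open scoped Classical Pointwise

namespace Pool.Agent.SNR

open Pool.Agent.SDG

/-! ### numbers -/

theorem cf_pos (g t : ℕ) : 1 ≤ cf g t := by
  have := thm_Nm1.2.2.2.2.2 g t
  omega

theorem cf_mono {g a b : ℕ} (h : a ≤ b) : cf g a ≤ cf g b := thm_Nm1.2.2.2.1 g a b h

theorem cf_two_mul (g x : ℕ) (_hg : 1 ≤ g) : cf g (x + 1) ≤ 2 * cf g x := by
  have h1 := thm_Nm1.1 g x
  have h2 := thm_Nm1.2.2.2.2.2 g x
  have h3 : x / g ≤ x := Nat.div_le_self x g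
  omega

theorem cf_pow_mul (g x d : ℕ) (hg : 1 ≤ g) : cf g (x + d) ≤ 2 ^ d * cf g x := by
  induction d with
  | zero => simp
  | succ d ih =>
    calc cf g (x + (d + 1)) = cf g (x + d + 1) := rfl
      _ ≤ 2 * cf g (x + d) := cf_two_mul g _ hg
      _ ≤ 2 * (2 ^ d * cf g x) := Nat.mul_le_mul_left _ ih
      _ = 2 ^ (d + 1) * cf g x := by ring

/-- `d` steps below the level `τ` -/
theorem cf_add_le (g a x d : ℕ) (_hg : 1 ≤ g) (h : x + d ≤ g * a) : cf g (x + d) ≤ cf g x + d * a := by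
  induction d with
  | zero => simp
  | succ d ih =>
    have h1 := ih (by omega)
    have h2 := thm_Nm1.1 g (x + d)
    have h3 : (x + d) / g < a := Nat.div_lt_of_lt_mul (by omega)
    have h4 : cf g (x + (d + 1)) = cf g (x + d + 1) := rfl
    rw [h4, h2]
    have h5 : (d + 1) * a = d * a + a := by ring
    omega

/-- the numbers of the proof, `ρ = r - 1` -/
theorem Sr_num0 (h x a n τ : ℕ) (hh : 2 ≤ h) (ha : 1 ≤ a) (hn : 2 ≤ n) (hx : x + 2 = a + n)
    (hτ : x ≤ 2 * h * τ) (hτ' : 2 * h * (τ - 1) + 1 ≤ x) (hτ1 : 1 ≤ τ) :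
    2 * cf (2 * h) x ≤ n * cf (2 * h) a ∨ 2 * τ + 2 ≤ n := by
  have h1 := thm_Nm1.2.2.2.2.2 (2 * h) a
  rcases Nat.lt_or_ge (cf (2 * h) a) (2 * τ) with h2 | h2
  · obtain ⟨σ, rfl⟩ : ∃ σ, τ = σ + 1 := ⟨τ - 1, by omega⟩
    rw [Nat.add_sub_cancel] at hτ'
    rcases Nat.lt_or_ge n (2 * (σ + 1) + 2) with h3 | h3
    · left
      have h4 : 4 * σ ≤ 2 * h * σ := Nat.mul_le_mul_right σ (by omega)
      have hσ : 1 ≤ σ := by omega
      -- `h = 2`
      have hh2 : h = 2 := by
        by_contra hne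
        have h5 : 6 * σ ≤ 2 * h * σ := Nat.mul_le_mul_right σ (by omega)
        omega
      subst hh2
      have ha2 : a = 2 * σ := by omega
      have hn2 : n = 2 * σ + 3 := by omega
      have hx2 : x = 4 * σ + 1 := by omega
      have h6 := thm_Nm1.2.1 4 σ 1 (by omega) (by omega)
      have h7 : 2 * cf (2 * 2) x = 2 + 4 * σ * (σ + 1) + 2 * (σ + 1) := by
        rw [hx2]
        have : (2 * 2 : ℕ) = 4 := rfl
        rw [this, h6]
      rw [h7]
      have h8 : 2 * σ + 1 ≤ cf (2 * 2) a := by omega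
      calc 2 + 4 * σ * (σ + 1) + 2 * (σ + 1) ≤ (2 * σ + 3) * (2 * σ + 1) := by nlinarith
        _ ≤ n * cf (2 * 2) a := by
          rw [hn2]
          exact Nat.mul_le_mul_left _ h8
    · exact Or.inr h3
  · left
    obtain ⟨k, rfl⟩ : ∃ k, n = k + 2 := ⟨n - 2, by omega⟩
    have hx2 : x = a + k := by omega
    have h3 := cf_add_le (2 * h) τ a k (by omega) (by omega)
    rw [← hx2] at h3
    have h4 : k * (2 * τ) ≤ k * cf (2 * h) a := Nat.mul_le_mul_left _ h2
    nlinarith

/-- the numbers of the proof, `ρ = r` -/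
theorem Sr_num1 (h x a n τ : ℕ) (hh : 2 ≤ h) (ha : 1 ≤ a) (hn : 2 ≤ n) (hx : x + 1 = a + n)
    (hτ : x ≤ 2 * h * τ) (hτ' : 2 * h * (τ - 1) + 1 ≤ x) (hτ1 : 1 ≤ τ) :
    cf (2 * h) x ≤ n * cf (2 * h) a ∨ τ + 2 ≤ n := by
  have h1 := thm_Nm1.2.2.2.2.2 (2 * h) a
  rcases Nat.lt_or_ge (cf (2 * h) a) τ with h2 | h2
  · right
    obtain ⟨σ, rfl⟩ : ∃ σ, τ = σ + 1 := ⟨τ - 1, by omega⟩
    rw [Nat.add_sub_cancel] at hτ'
    have h4 : 4 * σ ≤ 2 * h * σ := Nat.mul_le_mul_right σ (by omega)
    omega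
  · left
    obtain ⟨k, rfl⟩ : ∃ k, n = k + 1 := ⟨n - 1, by omega⟩
    have hx2 : x = a + k := by omega
    have h3 := cf_add_le (2 * h) τ a k (by omega) (by omega)
    rw [← hx2] at h3
    have h4 : k * τ ≤ k * cf (2 * h) a := Nat.mul_le_mul_left _ h2
    nlinarith

/-! ### ranks -/

section ranks
variable {G : Type} [AddCommGroup G] [Finite G]

theorem crk_anti {H L : AddSubgroup G} (h : H ≤ L) : crk L ≤ crk H := by
  obtain ⟨S, hS, hg⟩ := exists_crk H
  rw [← hS]
  apply crk_le
  rw [eq_top_iff, ← hg]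
  exact sup_le_sup_right h _

/-- the rank is at most the number of members -/
theorem crk_bot_le {ι : Type} (s : Finset ι) (f : ι → G) (h : gen s f = ⊤) :
    crk (⊥ : AddSubgroup G) ≤ s.card := by
  refine (crk_le (S := s.image f) ?_).trans card_image_le
  rw [bot_sup_eq, coe_image]
  exact h

/-- rank in a subgroup with cyclic quotient -/
theorem crk_sub {H : Type} [AddCommGroup H] [Finite H] (φ : H →+ G) (z : G)
    (hz : φ.range ⊔ AddSubgroup.zmultiples z = ⊤) (M : AddSubgroup H) :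
    crk (M.map φ) ≤ crk M + 1 := by
  obtain ⟨S, hS, hg⟩ := exists_crk M
  rw [← hS]
  refine (crk_le (S := insert z (S.image φ)) ?_).trans
    ((card_insert_le _ _).trans (Nat.add_le_add_right card_image_le 1))
  rw [eq_top_iff, ← hz, coe_insert, coe_image, Set.insert_eq, AddSubgroup.closure_union]
  apply sup_le
  · have h1 : (M ⊔ AddSubgroup.closure (S : Set H)).map φ = φ.range := by
      rw [hg, ← AddMonoidHom.range_eq_map]
    rw [← h1, AddSubgroup.map_sup, AddMonoidHom.map_closure]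
    exact sup_le_sup_left le_sup_right _
  · rw [AddSubgroup.zmultiples_eq_closure]
    exact le_sup_left.trans le_sup_right

end ranks

/-! ### restriction to a subgroup -/

theorem res_aux {G H ι : Type} [AddCommGroup G] [AddCommGroup H] (φ : H →+ G)
    (hφ : Function.Injective φ) (s : Finset ι) (f : ι → G) (hK : gen s f = φ.range) :
    ∃ f1 : ι → H, (∀ i ∈ s, φ (f1 i) = f i) ∧ (FS s f1).card = (FS s f).card ∧ gen s f1 = ⊤ := by
  have hmem : ∀ i ∈ s, ∃ y, φ y = f i := fun i hi => by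
    have h1 : f i ∈ φ.range := hK ▸ P1_mem_gen hi
    exact AddMonoidHom.mem_range.1 h1
  obtain ⟨f1, hf1⟩ : ∃ f1 : ι → H, ∀ i ∈ s, φ (f1 i) = f i := by
    refine ⟨fun i => if h : i ∈ s then (hmem i h).choose else 0, fun i hi => ?_⟩
    simp only [dif_pos hi]
    exact (hmem i hi).choose_spec
  refine ⟨f1, hf1, ?_, ?_⟩
  · have h1 : FS s f = (FS s f1).image φ := by
      ext x
      rw [mem_image, mem_FS]
      constructor
      · rintro ⟨t, ht, rfl⟩
        refine ⟨∑ i ∈ t, f1 i, mem_FS.2 ⟨t, ht, rfl⟩, ?_⟩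
        rw [map_sum]
        exact sum_congr rfl fun i hi => hf1 i (ht hi)
      · rintro ⟨y, hy, rfl⟩
        obtain ⟨t, ht, rfl⟩ := mem_FS.1 hy
        refine ⟨t, ht, ?_⟩
        rw [map_sum]
        exact sum_congr rfl fun i hi => (hf1 i (ht hi)).symm
    rw [h1, card_image_of_injective _ hφ]
  · have h1 : (gen s f1).map φ = φ.range := by
      unfold gen
      rw [AddMonoidHom.map_closure, ← Set.image_comp]
      have h2 : (φ ∘ f1) '' (s : Set ι) = f '' (s : Set ι) := by
        apply Set.image_congr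
        intro i hi
        exact hf1 i (mem_coe.1 hi)
      rw [h2]
      exact hK
    rw [eq_top_iff]
    intro x _
    have h2 : φ x ∈ (gen s f1).map φ := by rw [h1]; exact ⟨x, rfl⟩
    obtain ⟨y, hy, hxy⟩ := AddSubgroup.mem_map.1 h2
    have h3 : y = x := hφ hxy
    rwa [← h3]

theorem res {G ι : Type} [AddCommGroup G] [Finite G] (s : Finset ι) (f : ι → G)
    (K1 : AddSubgroup G) (hK : gen s f = K1) :
    ∃ (H : Type) (_ : AddCommGroup H) (_ : Finite H) (φ : H →+ G) (f1 : ι → H),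
      Function.Injective φ ∧ φ.range = K1 ∧ (∀ i ∈ s, φ (f1 i) = f i) ∧
      (FS s f1).card = (FS s f).card ∧ gen s f1 = ⊤ := by
  obtain ⟨f1, h1, h2, h3⟩ := res_aux K1.subtype (AddSubgroup.subtype_injective K1) s f
    (by rw [AddSubgroup.range_subtype]; exact hK)
  exact ⟨K1, inferInstance, inferInstance, K1.subtype, f1, AddSubgroup.subtype_injective K1,
    AddSubgroup.range_subtype K1, h1, h2, h3⟩

/-! ### the theorem -/

section main
variable {G ι : Type} [AddCommGroup G] [Finite G]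

/-- a periodic set of sums is large -/
theorem per_large (s : Finset ι) (f : ι → G) (hg : gen s f = ⊤) (g : G) (h0 : g ≠ 0)
    (hp : ∀ x ∈ FS s f, x + g ∈ FS s f) :
    ∃ K : AddSubgroup G, K ≠ ⊥ ∧ Nat.card K * 2 ^ crk K ≤ (FS s f).card := by
  have := Fintype.ofFinite G
  refine ⟨AddSubgroup.zmultiples g, ?_, ?_⟩
  · intro h
    apply h0
    have : g ∈ AddSubgroup.zmultiples g := AddSubgroup.mem_zmultiples g
    rw [h] at this
    exact AddSubgroup.mem_bot.1 this
  · have h1 := pow_crk_le (AddSubgroup.zmultiples g) s f (by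
      rw [eq_top_iff, ← hg]
      exact le_sup_right)
    refine h1.trans (card_le_card ?_)
    intro x hx
    obtain ⟨y, hy, hxy⟩ := mem_sat.1 hx
    obtain ⟨k, hk⟩ := AddSubgroup.mem_zmultiples_iff.1 hxy
    have h2 : ∀ n : ℕ, ∀ y ∈ FS s f, y + n • g ∈ FS s f := by
      intro n
      induction n with
      | zero => intro y hy; simpa using hy
      | succ n ih =>
        intro y hy
        have := hp _ (ih y hy)
        rwa [add_assoc, ← succ_nsmul] at this
    have h3 : ∃ n : ℕ, n • g = k • g := by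
      have h4 : k • g ∈ AddSubgroup.zmultiples g := AddSubgroup.mem_zmultiples_iff.2 ⟨k, rfl⟩
      have h5 := mem_zmultiples_iff_mem_range_addOrderOf.1 h4
      obtain ⟨n, -, hn⟩ := mem_image.1 h5
      exact ⟨n, hn⟩
    obtain ⟨n, hn⟩ := h3
    have h4 : x = y + n • g := by
      rw [hn, hk]
      abel
    rw [h4]
    exact h2 n y hy

omit [Finite G] in
theorem sat_bot (X : Finset G) [Fintype G] : sat (⊥ : AddSubgroup G) X = X := by
  ext x
  rw [mem_sat]
  constructor
  · rintro ⟨y, hy, hxy⟩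
    rw [AddSubgroup.mem_bot, sub_eq_zero] at hxy
    rwa [hxy]
  · intro hx
    exact ⟨x, hx, by rw [sub_self]; exact AddSubgroup.zero_mem _⟩

theorem st_sat (X : Finset G) (L : AddSubgroup G) [Fintype G] : st X L = sat L X := by
  ext x
  rw [P1_mem_st, mem_sat]

/-- rows: the number `Q` of the cosets of `L = ⟨z⟩` that meet the set of sums -/
theorem rows (h : ℕ) (hh : 2 ≤ h) (s : Finset ι) (f : ι → G) (h0 : ∀ i ∈ s, f i ≠ 0)
    (hcap : Cap (2 * h) s f) (hg : gen s f = ⊤) (hA : Aper (FS s f)) (j : ℕ)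
    (hlam : ∀ k ∈ s, lam (FS s f) (f k) ≤ j) (i : ι) (hi : i ∈ s)
    (hL : AddSubgroup.zmultiples (f i) ≠ ⊤)
    (hno : ∀ K : AddSubgroup G, K ≠ ⊥ → (FS s f).card < Nat.card K * 2 ^ crk K) :
    ∃ Q a u ρ : ℕ, 1 ≤ a ∧ a + u = s.card ∧ ρ = crk (AddSubgroup.zmultiples (f i)) ∧ 1 ≤ ρ ∧ ρ ≤ u ∧
      2 ^ (ρ - 1) * (u + 2 - ρ) ≤ Q ∧ Q * cf (2 * h) a ≤ (FS s f).card ∧ Q < j + 2 ^ ρ := by
  have := Fintype.ofFinite G
  obtain ⟨L, hLd⟩ : ∃ L, L = AddSubgroup.zmultiples (f i) := ⟨_, rfl⟩
  rw [← hLd] at hL ⊢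
  have hiL : f i ∈ L := hLd ▸ AddSubgroup.mem_zmultiples _
  have hLb : L ≠ ⊥ := by
    intro h1
    apply h0 i hi
    rw [h1] at hiL
    exact AddSubgroup.mem_bot.1 hiL
  obtain ⟨s1, hs1⟩ : ∃ s1, s1 = s.filter fun k => f k ∈ L := ⟨_, rfl⟩
  obtain ⟨s2, hs2⟩ : ∃ s2, s2 = s.filter fun k => f k ∉ L := ⟨_, rfl⟩
  have hd : Disjoint s2 s1 := by
    rw [hs1, hs2, disjoint_left]
    intro k hk hk'
    exact (mem_filter.mp hk).2 (mem_filter.mp hk').2
  have hun : s2 ∪ s1 = s := by
    rw [hs1, hs2, union_comm]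
    exact filter_union_filter_not_eq _ s
  have hcards : s1.card + s2.card = s.card := by
    rw [hs1, hs2]
    exact card_filter_add_card_filter_not (s := s) (fun k => f k ∈ L)
  have hi1 : i ∈ s1 := hs1 ▸ mem_filter.2 ⟨hi, hiL⟩
  have hs1s : s1 ⊆ s := hs1 ▸ filter_subset _ _
  have hs2f : ∀ k ∈ s2, f k ∉ L := by
    intro k hk
    rw [hs2] at hk
    exact (mem_filter.1 hk).2
  have hgen2 : L ⊔ AddSubgroup.closure (f '' (s2 : Set ι)) = ⊤ := by
    rw [eq_top_iff, ← hg]
    unfold gen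
    rw [AddSubgroup.closure_le]
    rintro _ ⟨k, hk, rfl⟩
    by_cases hkL : f k ∈ L
    · exact AddSubgroup.mem_sup_left hkL
    · refine AddSubgroup.mem_sup_right (AddSubgroup.subset_closure ⟨k, ?_, rfl⟩)
      rw [hs2]
      exact mem_coe.2 (mem_filter.2 ⟨mem_coe.1 hk, hkL⟩)
  -- inner part
  have hA1 : Aper (FS s1 f) := (all_Ba1 G ι f).2.1 s s1 hs1s hA
  have hY : cf (2 * h) s1.card ≤ (FS s1 f).card :=
    (all_main s1.card).2 h hh G ι s1 f rfl (fun k hk => h0 k (hs1s hk))
      (fun x => (card_le_card (filter_subset_filter _ hs1s)).trans (hcap x)) hA1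
  -- rows
  have hgen1 : gen (s.filter fun k => f k ∈ L) f = L := by
    apply le_antisymm (P1_gen_le s f L)
    rw [← hs1]
    conv_lhs => rw [hLd]
    rw [AddSubgroup.zmultiples_le]
    exact P1_mem_gen hi1
  have hPc := all_Pc G ι s f L j h0 hA hgen1 (fun k hk _ => hlam k hk)
  rw [← hs1, st_sat] at hPc
  obtain ⟨R, hR, hRinj, hRc⟩ := card_sat L (FS s f)
  have hLpos : 0 < Nat.card L := Nat.card_pos
  have hsat2 : (sat L (FS s2 f)).card = (sat L (FS s f)).card := by
    congr 1
    ext x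
    rw [mem_sat, mem_sat]
    constructor
    · rintro ⟨y, hy, hxy⟩
      exact ⟨y, FS_mono (by rw [hs2]; exact filter_subset _ _) f hy, hxy⟩
    · rintro ⟨y, hy, hxy⟩
      rw [← hun] at hy
      obtain ⟨a, ha, b, hb, rfl⟩ := (mem_FS_union hd f).1 hy
      refine ⟨a, ha, ?_⟩
      have h1 : b ∈ L := FS_subset_of_mem (fun k hk => by
        rw [hs1] at hk
        exact (mem_filter.1 hk).2) hb
      have h2 : x - a = (x - (a + b)) + b := by abel
      rw [h2]
      exact L.add_mem hxy h1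
  have hprod := card_prod_le (⊥ : AddSubgroup G) L f s1 s2 hd (fun k hk => by
    rw [hs1] at hk
    exact (mem_filter.1 hk).2) bot_le
  rw [hun, sat_bot, sat_bot, hsat2] at hprod
  have hQ : 2 ^ (crk L - 1) * (s2.card + 2 - crk L) ≤ R.card := by
    rcases weak L s2 f hs2f hgen2 hL with h1 | ⟨K, hLK, h1⟩
    · rw [hsat2, hRc, mul_comm R.card] at h1
      exact Nat.le_of_mul_le_mul_left h1 hLpos
    · exfalso
      obtain ⟨K', -, -, hcard, w, hw⟩ := exchange (⊥ : AddSubgroup G) K (f i) bot_le (hLK.le hiL)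
      rw [bot_sup_eq, ← hLd, AddSubgroup.card_bot, mul_one] at hcard
      have hKb : K' ≠ ⊥ := by
        intro h2
        rw [h2, AddSubgroup.card_bot, one_mul] at hcard
        have h3 : (L : Set G).ncard < (K : Set G).ncard := Set.ncard_lt_ncard hLK (Set.toFinite _)
        exact absurd hcard (ne_of_lt h3)
      have h2 := hno K' hKb
      have h3 : crk K' ≤ crk K + 1 := by
        rw [hw]
        exact crk_sup_le K' w
      have h4 : 2 ≤ (FS s1 f).card := by
        have h5 := thm_Nm1.2.2.2.2.2 (2 * h) s1.card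
        have h6 : 1 ≤ s1.card := card_pos.2 ⟨i, hi1⟩
        omega
      have h5 : (Nat.card K * 2 ^ crk K) * 2 ≤ (FS s f).card * Nat.card L := by
        refine le_trans (Nat.mul_le_mul (h1.trans (le_of_eq hsat2)) h4) hprod
      have h6 : Nat.card K' * 2 ^ crk K' * Nat.card L ≤ (FS s f).card * Nat.card L := by
        refine le_trans ?_ h5
        calc Nat.card K' * 2 ^ crk K' * Nat.card L ≤ Nat.card K' * 2 ^ (crk K + 1) * Nat.card L := by
              gcongr
              norm_num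
          _ = Nat.card K' * Nat.card L * 2 ^ crk K * 2 := by ring
          _ = _ := by rw [hcard]
      exact absurd (Nat.le_of_mul_le_mul_right h6 hLpos) (by omega)
  refine ⟨R.card, s1.card, s2.card, crk L, card_pos.2 ⟨i, hi1⟩, hcards, rfl, crk_pos hL, ?_, hQ, ?_, ?_⟩
  · refine (crk_le (S := s2.image f) ?_).trans card_image_le
    rw [coe_image]
    exact hgen2
  · have h1 := hPc.2
    rw [hRc] at h1
    have h2 : R.card * (FS s1 f).card ≤ (FS s f).card := by
      apply Nat.le_of_mul_le_mul_left _ hLpos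
      calc Nat.card L * (R.card * (FS s1 f).card) = R.card * Nat.card L * (FS s1 f).card := by ring
        _ ≤ _ := h1
    exact (Nat.mul_le_mul_left _ hY).trans h2
  · by_contra hcon
    push Not at hcon
    have h1 := hno L hLb
    have h2 := hPc.1
    rw [hRc] at h2
    have h3 : R.card * Nat.card L ≤ (FS s f).card + j * Nat.card L :=
      h2.trans (Nat.add_le_add_left (Nat.mul_le_mul_left _ (Nat.sub_le _ _)) _)
    have h4 : (j + 2 ^ crk L) * Nat.card L ≤ R.card * Nat.card L := Nat.mul_le_mul_right _ hcon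
    have h5 : (j + 2 ^ crk L) * Nat.card L = j * Nat.card L + Nat.card L * 2 ^ crk L := by ring
    omega

end main

/-- **Theorem S for all ranks.** -/
theorem thm_Sr (h : ℕ) (hh : 2 ≤ h) (t : ℕ) : ∀ (G ι : Type) [AddCommGroup G] [Finite G]
    (s : Finset ι) (f : ι → G), s.card = t → (∀ i ∈ s, f i ≠ 0) → Cap (2 * h) s f →
    gen s f = ⊤ → (⊥ : AddSubgroup G) ≠ ⊤ →
      2 ^ (crk (⊥ : AddSubgroup G) - 1) * cf (2 * h) (t + 1 - crk (⊥ : AddSubgroup G)) ≤ (FS s f).card ∨
      ∃ K : AddSubgroup G, K ≠ ⊥ ∧ Nat.card K * 2 ^ crk K ≤ (FS s f).card := by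
  induction t with
  | zero =>
    intro G ι _ _ s f hs _ _ hg hbt
    have h1 := crk_bot_le s f hg
    have h2 := crk_pos hbt
    omega
  | succ t ih =>
    intro G ι _ _ s f hs h0 hcap hg hbt
    by_contra hcon
    rw [not_or] at hcon
    obtain ⟨hc1, hc2⟩ := hcon
    push Not at hc1
    have hno : ∀ K : AddSubgroup G, K ≠ ⊥ → (FS s f).card < Nat.card K * 2 ^ crk K := by
      intro K hK
      by_contra h1
      exact hc2 ⟨K, hK, by omega⟩
    obtain ⟨r, hr⟩ : ∃ r, r = crk (⊥ : AddSubgroup G) := ⟨_, rfl⟩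
    rw [← hr] at hc1
    have hr1 : 1 ≤ r := hr ▸ crk_pos hbt
    have hrt : r ≤ t + 1 := by
      rw [hr, ← hs]
      exact crk_bot_le s f hg
    have hA : Aper (FS s f) := by
      intro g hgp
      by_contra hg0
      exact hc2 (per_large s f hg g hg0 hgp)
    have hcard : ∀ i ∈ s, (s.erase i).card = t := by
      intro i hi
      rw [card_erase_of_mem hi, hs, Nat.add_sub_cancel]
    have h0e : ∀ i, ∀ k ∈ s.erase i, f k ≠ 0 := fun i k hk => h0 k (erase_subset _ _ hk)
    have hce : ∀ i, Cap (2 * h) (s.erase i) f := fun i x =>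
      (card_le_card (filter_subset_filter _ (erase_subset _ _))).trans (hcap x)
    -- no drop
    have hge : ∀ i ∈ s, gen (s.erase i) f = ⊤ := by
      intro i hi
      rw [← hg]
      apply (all_Ba1 G ι f).2.2.2.2.2.1 s i hi
      by_contra hne
      have h3 := (all_Ba1 G ι f).2.2.2.1 s i hi hne
      obtain ⟨K1, hK1⟩ : ∃ K1, K1 = gen (s.erase i) f := ⟨_, rfl⟩
      have hz : K1 ⊔ AddSubgroup.zmultiples (f i) = ⊤ := by
        rw [eq_top_iff, ← hg]
        unfold gen
        rw [AddSubgroup.closure_le]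
        rintro _ ⟨k, hk, rfl⟩
        rcases eq_or_ne k i with rfl | hki
        · exact AddSubgroup.mem_sup_right (AddSubgroup.mem_zmultiples _)
        · refine AddSubgroup.mem_sup_left ?_
          rw [hK1]
          exact P1_mem_gen (mem_erase.2 ⟨hki, mem_coe.1 hk⟩)
      obtain ⟨H, _, _, φ, f1, hφ, hφr, hf1, hc, hg1⟩ := res (s.erase i) f K1 hK1.symm
      rw [← hφr] at hz
      have hrK : r ≤ crk (⊥ : AddSubgroup H) + 1 := by
        have h4 := crk_sub φ (f i) hz (⊥ : AddSubgroup H)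
        rwa [AddSubgroup.map_bot, ← hr] at h4
      by_cases hb1 : (⊥ : AddSubgroup H) = ⊤
      · -- one member
        have h4 : crk (⊥ : AddSubgroup H) = 0 := by
          rw [hb1]
          exact crk_top
        have h5 : s.erase i = ∅ := by
          rw [eq_empty_iff_forall_notMem]
          intro k hk
          have h6 : f1 k ∈ (⊤ : AddSubgroup H) := AddSubgroup.mem_top _
          rw [← hb1, AddSubgroup.mem_bot] at h6
          apply h0e i k hk
          rw [← hf1 k hk, h6, map_zero]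
        have h6 : t = 0 := by
          rw [← hcard i hi, h5, card_empty]
        have h7 : r = 1 := by omega
        rw [h7, h6] at hc1
        have h8 : cf (2 * h) 1 = 2 := by simp [cf]
        have h9 : (0 + 1 + 1 - 1 : ℕ) = 1 := rfl
        rw [h9, h8] at hc1
        have h10 : 1 ≤ (FS (s.erase i) f).card := card_pos.2 ⟨0, zero_mem_FS _ _⟩
        omega
      · rcases ih H ι (s.erase i) f1 (hcard i hi) (by
            intro k hk h4
            apply h0e i k hk
            rw [← hf1 k hk, h4, map_zero]) (by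
            intro x
            refine (card_le_card ?_).trans (hce i (φ x))
            intro k hk
            rw [mem_filter] at hk ⊢
            refine ⟨hk.1, ?_⟩
            rw [← hf1 k hk.1]
            rcases hk.2 with h4 | h4
            · exact Or.inl (by rw [h4])
            · exact Or.inr (by rw [h4, map_neg])) hg1 hb1 with h4 | ⟨K, hK, h4⟩
        · obtain ⟨r1, hr1'⟩ : ∃ r1, r1 = crk (⊥ : AddSubgroup H) := ⟨_, rfl⟩
          rw [← hr1'] at h4 hrK
          have hr11 : 1 ≤ r1 := hr1' ▸ crk_pos hb1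
          have hr1t : r1 ≤ t := by
            rw [hr1', ← hcard i hi]
            exact crk_bot_le _ f1 hg1
          obtain ⟨δ, hδ⟩ : ∃ δ, r1 + 1 = r + δ := ⟨r1 + 1 - r, by omega⟩
          have h5 := cf_pow_mul (2 * h) (t + 1 - r1) δ (by omega)
          have h6 : t + 1 - r1 + δ = t + 1 + 1 - r := by omega
          rw [h6] at h5
          have h7 : 2 ^ (r - 1) * cf (2 * h) (t + 1 + 1 - r) ≤
              2 * (2 ^ (r1 - 1) * cf (2 * h) (t + 1 - r1)) := by
            calc 2 ^ (r - 1) * cf (2 * h) (t + 1 + 1 - r)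
                ≤ 2 ^ (r - 1) * (2 ^ δ * cf (2 * h) (t + 1 - r1)) := Nat.mul_le_mul_left _ h5
              _ = 2 ^ (r - 1 + δ) * cf (2 * h) (t + 1 - r1) := by rw [pow_add]; ring
              _ = 2 ^ (r1 - 1 + 1) * cf (2 * h) (t + 1 - r1) := by
                rw [show r - 1 + δ = r1 - 1 + 1 by omega]
              _ = _ := by rw [pow_succ]; ring
          rw [hc] at h4
          omega
        · have hKb : K.map φ ≠ ⊥ := by
            intro h5
            apply hK
            rw [eq_bot_iff]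
            intro x hx
            have h6 : φ x ∈ K.map φ := AddSubgroup.mem_map.2 ⟨x, hx, rfl⟩
            rw [h5, AddSubgroup.mem_bot] at h6
            rw [AddSubgroup.mem_bot]
            exact hφ (by rw [h6, map_zero])
          have h5 := hno _ hKb
          have h6 := crk_sub φ (f i) hz K
          have h7 : Nat.card (K.map φ) = Nat.card K :=
            Nat.card_congr (K.equivMapOfInjective _ hφ).symm.toEquiv
          rw [h7] at h5
          rw [hc] at h4
          have h8 : Nat.card K * 2 ^ crk (K.map φ) ≤ Nat.card K * 2 ^ (crk K + 1) :=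
            Nat.mul_le_mul_left _ (Nat.pow_le_pow_right (by norm_num) h6)
          have h9 : Nat.card K * 2 ^ (crk K + 1) = 2 * (Nat.card K * 2 ^ crk K) := by
            rw [pow_succ]; ring
          omega
    obtain ⟨i, hi⟩ : s.Nonempty := by
      rw [← card_pos]
      omega
    have hrt' : r ≤ t := by
      rw [hr, ← hcard i hi]
      exact crk_bot_le _ f (hge i hi)
    have hlow : ∀ k ∈ s, 2 ^ (r - 1) * cf (2 * h) (t + 1 - r) ≤ (FS (s.erase k) f).card := by
      intro k hk
      rcases ih G ι (s.erase k) f (hcard k hk) (h0e k) (hce k) (hge k hk) hbt with h5 | ⟨K, hK, h5⟩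
      · rwa [← hr] at h5
      · exfalso
        have h6 := hno K hK
        have h7 : (FS (s.erase k) f).card ≤ (FS s f).card :=
          card_le_card (FS_mono (erase_subset _ _) f)
        omega
    obtain ⟨x, hx⟩ : ∃ x, x = t + 1 - r := ⟨_, rfl⟩
    obtain ⟨τ, hτ⟩ : ∃ τ, τ = x / (2 * h) + 1 := ⟨_, rfl⟩
    have hx1 : t + 1 + 1 - r = x + 1 := by omega
    rw [hx1] at hc1
    rw [← hx] at hlow
    have hstep : cf (2 * h) (x + 1) = cf (2 * h) x + τ := by
      rw [thm_Nm1.1, hτ]
      ring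
    have hτ1 : 1 ≤ τ := by
      rw [hτ]
      exact Nat.le_add_left 1 _
    have hτx : x + 1 ≤ 2 * h * τ := by
      rw [hτ]
      exact Nat.lt_mul_div_succ x (by omega)
    have hτx' : 2 * h * (τ - 1) + 1 ≤ x + 1 := by
      rw [hτ, Nat.add_sub_cancel]
      have := Nat.mul_div_le x (2 * h)
      omega
    have hlam : ∀ k ∈ s, lam (FS s f) (f k) ≤ 2 ^ (r - 1) * τ - 1 := by
      intro k hk
      have h3 := (all_Ba1 G ι f).2.2.1 s k hk
      have h4 := hlow k hk
      rw [hstep, mul_add] at hc1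
      omega
    have hpw : 1 ≤ 2 ^ (r - 1) * τ := Nat.mul_pos (by positivity) (by omega)
    by_cases hL : AddSubgroup.zmultiples (f i) = ⊤
    · -- cyclic
      have h4 := (all_main (t + 1)).2 h hh G ι s f hs h0 hcap hA
      have h5 : r ≤ 1 := by
        have h6 := crk_sup_le (⊥ : AddSubgroup G) (f i)
        rw [bot_sup_eq, hL, crk_top, ← hr] at h6
        exact h6
      have h6 : r = 1 := by omega
      rw [h6] at hc1
      have h7 : x + 1 = t + 1 := by omega
      rw [h7] at hc1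
      norm_num at hc1
      omega
    obtain ⟨Q, a, u, ρ, ha, hau, hρ, hρ1, hρu, hQ, hQa, hQj⟩ :=
      rows h hh s f h0 hcap hg hA (2 ^ (r - 1) * τ - 1) hlam i hi hL hno
    have hρr : ρ ≤ r := by
      rw [hρ, hr]
      exact crk_anti bot_le
    have hrρ : r ≤ ρ + 1 := by
      have h6 := crk_sup_le (⊥ : AddSubgroup G) (f i)
      rw [bot_sup_eq, ← hρ, ← hr] at h6
      exact h6
    rw [hs] at hau
    rcases Nat.lt_or_ge ρ r with hlt | hge'
    · -- `ρ = r - 1`
      have hρ' : r = ρ + 1 := by omega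
      rcases Sr_num0 h (x + 1) a (u + 2 - ρ) τ hh ha (by omega) (by omega) hτx hτx' hτ1 with h5 | h5
      · have h6 : 2 ^ (r - 1) * cf (2 * h) (x + 1) ≤ Q * cf (2 * h) a := by
          calc 2 ^ (r - 1) * cf (2 * h) (x + 1) = 2 ^ (ρ - 1) * (2 * cf (2 * h) (x + 1)) := by
                rw [show r - 1 = ρ - 1 + 1 by omega, pow_succ]; ring
            _ ≤ 2 ^ (ρ - 1) * ((u + 2 - ρ) * cf (2 * h) a) := Nat.mul_le_mul_left _ h5
            _ = 2 ^ (ρ - 1) * (u + 2 - ρ) * cf (2 * h) a := by ring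
            _ ≤ _ := Nat.mul_le_mul_right _ hQ
        omega
      · have h6 : 2 ^ (ρ - 1) * (2 * τ + 2) ≤ Q := (Nat.mul_le_mul_left _ h5).trans hQ
        have h7 : 2 ^ (ρ - 1) * (2 * τ + 2) = 2 ^ (r - 1) * τ + 2 ^ ρ := by
          rw [show r - 1 = ρ - 1 + 1 by omega]
          conv_rhs => rw [show ρ = ρ - 1 + 1 by omega]
          rw [Nat.add_sub_cancel, pow_succ]
          ring
        omega
    · have hρ' : ρ = r := by omega
      rcases Sr_num1 h (x + 1) a (u + 2 - ρ) τ hh ha (by omega) (by omega) hτx hτx' hτ1 with h5 | h5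
      · have h6 : 2 ^ (r - 1) * cf (2 * h) (x + 1) ≤ Q * cf (2 * h) a := by
          calc 2 ^ (r - 1) * cf (2 * h) (x + 1) = 2 ^ (ρ - 1) * cf (2 * h) (x + 1) := by rw [hρ']
            _ ≤ 2 ^ (ρ - 1) * ((u + 2 - ρ) * cf (2 * h) a) := Nat.mul_le_mul_left _ h5
            _ = 2 ^ (ρ - 1) * (u + 2 - ρ) * cf (2 * h) a := by ring
            _ ≤ _ := Nat.mul_le_mul_right _ hQ
        omega
      · have h6 : 2 ^ (ρ - 1) * (τ + 2) ≤ Q := (Nat.mul_le_mul_left _ h5).trans hQ
        have h7 : 2 ^ (ρ - 1) * (τ + 2) = 2 ^ (r - 1) * τ + 2 ^ ρ := by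
          rw [hρ']
          conv_rhs => rw [show 2 ^ r = 2 ^ (r - 1 + 1) by rw [show r - 1 + 1 = r by omega]]
          rw [pow_succ]
          ring
        omega

end Pool.Agent.SNR
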