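import Pool.Agent.SNR.UpR
import Pool.Agent.SNR.Ga

/-!
# SNR, module UpG (helper48): the upper bound for all finite abelian groups, unconditional
-/

set_option autoImplicit false

noncomputable section

open Finset Pool.Agent.Helper64.Rho
open scoped Classical Pointwise

namespace Pool.Agent.SNR

theorem st_Ga : St_Ga := fun _ _ _ N R y hy x hx => gaschutz N R y hy x hx

theorem thm_UpG {G : Type} [AddCommGroup G] [Finite G] (m : ℕ) (hm : crk (⊥ : AddSubgroup G) ≤ m)
    (hmn : m < Nat.card G) :
    (sizes G m).Nonempty ∧ rho G m ≤ upr G m := rho_le_upr st_Ga m hm hmn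

end Pool.Agent.SNR
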