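import Pool.Agent.SNR.Sr
import Pool.Agent.SNW.Up5

/-!
# SNR, module UpR (helper48): the upper bound for all finite abelian groups

`valr m H = |H| 2 ^ (r - 1) c (|H|, max (1, m + 2 - |H| - r))`, `r = rank (G / H)`.  `thm_UpR`: every `G` with
`rank G ≤ m < |G|` has a generating set of `m` nonzero elements with at most `valr m H` subset sums, `H ≠ G`.
-/

set_option autoImplicit false

noncomputable section

open Finset Pool.Agent.Helper64.Rho
open scoped Classical Pointwise

namespace Pool.Agent.SNR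

open Pool.Agent.SDG Pool.Agent.SNW

/-- Gaschuetz' lemma for finite abelian groups -/
def St_Ga : Prop :=
  ∀ (G : Type) [AddCommGroup G] [Finite G] (N : AddSubgroup G) (R : ℕ) (y : Fin R → G),
    AddSubgroup.closure (Set.range y) = ⊤ → ∀ x : Fin R → G, N ⊔ AddSubgroup.closure (Set.range x) = ⊤ →
      ∃ c : Fin R → G, (∀ i, c i - x i ∈ N) ∧ AddSubgroup.closure (Set.range c) = ⊤

/-- the value of a subgroup -/
def valr {G : Type} [AddCommGroup G] [Finite G] (m : ℕ) (H : AddSubgroup G) : ℕ :=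
  Nat.card H * 2 ^ (crk H - 1) * cf (2 * Nat.card H) (max 1 (m + 2 - Nat.card H - crk H))

section
variable {G : Type} [AddCommGroup G] [Finite G]

/-- a minimal generating set modulo `H` extended by elements of `H` -/
theorem Ga2 (hGa : St_Ga) (H : AddSubgroup G) :
    ∃ Z Y : Finset G, Z.card = crk H ∧ Y.card + crk H ≤ crk (⊥ : AddSubgroup G) ∧
      H ⊔ AddSubgroup.closure (Z : Set G) = ⊤ ∧ (∀ y ∈ Y, y ∈ H) ∧ (0 : G) ∉ Y ∧
      AddSubgroup.closure ((Z ∪ Y : Finset G) : Set G) = ⊤ := by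
  obtain ⟨R, hR⟩ : ∃ R, R = crk (⊥ : AddSubgroup G) := ⟨_, rfl⟩
  obtain ⟨r, hr⟩ : ∃ r, r = crk H := ⟨_, rfl⟩
  have hrR : r ≤ R := by
    rw [hr, hR]
    exact crk_anti bot_le
  obtain ⟨S, hS, hSg⟩ := exists_crk H
  obtain ⟨S0, hS0, hS0g⟩ := exists_crk (⊥ : AddSubgroup G)
  rw [bot_sup_eq] at hS0g
  rw [← hr] at hS ⊢
  rw [← hR] at hS0 ⊢
  obtain ⟨e⟩ : Nonempty (Fin r ≃ S) := ⟨(Finset.equivFinOfCardEq hS).symm⟩
  obtain ⟨e0⟩ : Nonempty (Fin R ≃ S0) := ⟨(Finset.equivFinOfCardEq hS0).symm⟩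
  have hy : AddSubgroup.closure (Set.range fun i : Fin R => (e0 i : G)) = ⊤ := by
    rw [← hS0g]
    congr 1
    ext x
    constructor
    · rintro ⟨i, rfl⟩
      exact (e0 i).2
    · intro hx
      refine ⟨e0.symm ⟨x, hx⟩, ?_⟩
      simp
  obtain ⟨x, hx⟩ : ∃ x : Fin R → G, ∀ i : Fin R, x i = if h : (i : ℕ) < r then (e ⟨i, h⟩ : G) else 0 :=
    ⟨_, fun i => rfl⟩
  have hxg : H ⊔ AddSubgroup.closure (Set.range x) = ⊤ := by
    rw [eq_top_iff, ← hSg]
    apply sup_le le_sup_left
    rw [AddSubgroup.closure_le]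
    intro z hz
    refine AddSubgroup.mem_sup_right (AddSubgroup.subset_closure ?_)
    refine ⟨⟨e.symm ⟨z, hz⟩, lt_of_lt_of_le (e.symm ⟨z, hz⟩).2 hrR⟩, ?_⟩
    rw [hx]
    simp only [Fin.is_lt, dif_pos, Fin.eta, Equiv.apply_symm_apply]
  obtain ⟨c, hc, hcg⟩ := hGa G H R _ hy x hxg
  obtain ⟨Z, hZ⟩ : ∃ Z : Finset G, Z = (univ.filter fun i : Fin R => (i : ℕ) < r).image c := ⟨_, rfl⟩
  obtain ⟨Y, hY⟩ : ∃ Y : Finset G, Y = ((univ.filter fun i : Fin R => ¬ (i : ℕ) < r).image c).erase 0 :=
    ⟨_, rfl⟩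
  have hcard1 : (univ.filter fun i : Fin R => (i : ℕ) < r).card = r := by
    rw [Fin.card_filter_val_lt, min_eq_right hrR]
  have hcard2 : (univ.filter fun i : Fin R => ¬ (i : ℕ) < r).card + r = R := by
    have h1 := card_filter_add_card_filter_not (s := (univ : Finset (Fin R))) (fun i : Fin R => (i : ℕ) < r)
    rw [hcard1, card_univ, Fintype.card_fin] at h1
    omega
  have hZg : H ⊔ AddSubgroup.closure (Z : Set G) = ⊤ := by
    rw [eq_top_iff, ← hxg]
    apply sup_le le_sup_left
    rw [AddSubgroup.closure_le]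
    rintro _ ⟨i, rfl⟩
    by_cases hi : (i : ℕ) < r
    · have h1 : x i = c i - (c i - x i) := by abel
      rw [h1]
      refine AddSubgroup.sub_mem _ (AddSubgroup.mem_sup_right (AddSubgroup.subset_closure ?_))
        (AddSubgroup.mem_sup_left (hc i))
      rw [hZ]
      exact mem_coe.2 (mem_image.2 ⟨i, mem_filter.2 ⟨mem_univ _, hi⟩, rfl⟩)
    · rw [hx, dif_neg hi]
      exact AddSubgroup.zero_mem _
  refine ⟨Z, Y, ?_, ?_, hZg, ?_, ?_, ?_⟩
  · apply le_antisymm
    · rw [hZ]
      exact card_image_le.trans hcard1.le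
    · rw [hr]
      exact crk_le hZg
  · rw [hY]
    have h1 := (card_erase_le (a := (0 : G)) (s := (univ.filter fun i : Fin R => ¬ (i : ℕ) < r).image c)).trans
      card_image_le
    omega
  · intro y hy'
    rw [hY] at hy'
    obtain ⟨i, hi, rfl⟩ := mem_image.1 (mem_of_mem_erase hy')
    have h1 := hc i
    rw [hx, dif_neg (mem_filter.1 hi).2, sub_zero] at h1
    exact h1
  · rw [hY]
    exact notMem_erase _ _
  · rw [eq_top_iff, ← hcg, AddSubgroup.closure_le]
    rintro _ ⟨i, rfl⟩
    by_cases h0 : c i = 0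
    · rw [h0]
      exact AddSubgroup.zero_mem _
    · apply AddSubgroup.subset_closure
      rw [coe_union]
      by_cases hi : (i : ℕ) < r
      · left
        rw [hZ]
        exact mem_coe.2 (mem_image.2 ⟨i, mem_filter.2 ⟨mem_univ _, hi⟩, rfl⟩)
      · right
        rw [hY]
        exact mem_coe.2 (mem_erase.2 ⟨h0, mem_image.2 ⟨i, mem_filter.2 ⟨mem_univ _, hi⟩, rfl⟩⟩)

/-- every `m` with `rank G ≤ m < |G|` -/
theorem ex_any (m : ℕ) (h1 : crk (⊥ : AddSubgroup G) ≤ m) (h2 : m < Nat.card G) :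
    ∃ A : Finset G, (0 : G) ∉ A ∧ A.card = m ∧ AddSubgroup.closure (A : Set G) = ⊤ := by
  have := Fintype.ofFinite G
  obtain ⟨S, hS, hSg⟩ := exists_crk (⊥ : AddSubgroup G)
  rw [bot_sup_eq] at hSg
  have h3 : (S.erase 0).card ≤ m := card_erase_le.trans (by omega)
  have h4 : S.erase 0 ⊆ univ.erase (0 : G) := erase_subset_erase _ (subset_univ _)
  have h5 : m ≤ (univ.erase (0 : G)).card := by
    rw [card_erase_of_mem (mem_univ _), card_univ, ← Nat.card_eq_fintype_card]
    omega
  obtain ⟨A, hSA, hA, hAc⟩ := exists_subsuperset_card_eq h4 h3 h5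
  refine ⟨A, ?_, hAc, ?_⟩
  · intro h6
    exact absurd (hA h6) (notMem_erase _ _)
  · rw [eq_top_iff, ← hSg, AddSubgroup.closure_le]
    intro z hz
    by_cases h6 : z = 0
    · rw [h6]
      exact AddSubgroup.zero_mem _
    · exact AddSubgroup.subset_closure (hSA (mem_erase.2 ⟨h6, hz⟩))

theorem FS_union_le (A B : Finset G) : (FS (A ∪ B) id).card ≤ 2 ^ B.card * (FS A id).card := by
  induction B using Finset.induction_on with
  | empty => simp
  | insert y B hy ih =>
    rw [card_insert_of_notMem hy, union_insert]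
    by_cases h : y ∈ A ∪ B
    · rw [insert_eq_of_mem h, pow_succ]
      calc (FS (A ∪ B) id).card ≤ 2 ^ B.card * (FS A id).card := ih
        _ ≤ 2 ^ B.card * 2 * (FS A id).card := by
          apply Nat.mul_le_mul_right
          omega
    · refine (FS_insert_le _ y h).trans ?_
      rw [pow_succ]
      calc 2 * (FS (A ∪ B) id).card ≤ 2 * (2 ^ B.card * (FS A id).card) := Nat.mul_le_mul_left _ ih
        _ = 2 ^ B.card * 2 * (FS A id).card := by ring

theorem cf_one (g : ℕ) : cf g 1 = 2 := by simp [cf]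

/-- the comparison of the values of `H` and `H + ⟨x⟩` -/
theorem valr_num (h l r m : ℕ) (hh : 1 ≤ h) (hl : 2 ≤ l) (hr : 2 ≤ r)
    (hc : l ≤ cf (2 * h) (max 1 (m + 2 - h - r))) :
    h * l * 2 ^ (r - 1 - 1) * cf (2 * (h * l)) (max 1 (m + 2 - h * l - (r - 1))) ≤
      h * 2 ^ (r - 1) * cf (2 * h) (max 1 (m + 2 - h - r)) := by
  obtain ⟨q, rfl⟩ : ∃ q, r = q + 2 := ⟨r - 2, by omega⟩
  have e1 : q + 2 - 1 - 1 = q := by omega
  have e2 : q + 2 - 1 = q + 1 := by omega
  rw [e1, e2, pow_succ]
  have hhl : h * 2 ≤ h * l := Nat.mul_le_mul_left _ hl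
  rcases Nat.lt_or_ge (m + 2) (h * l + (q + 1) + 2) with h1 | h1
  · have h2 : max 1 (m + 2 - h * l - (q + 1)) = 1 := by omega
    rw [h2, cf_one]
    calc h * l * 2 ^ q * 2 = h * (2 ^ q * 2) * l := by ring
      _ ≤ _ := Nat.mul_le_mul_left _ hc
  · have h2 : max 1 (m + 2 - h * l - (q + 1)) = m + 2 - h * l - (q + 1) := by omega
    have h3 : max 1 (m + 2 - h - (q + 2)) = m + 2 - h - (q + 2) := by omega
    rw [h2, h3]
    have h4 := Up_num h l (m + 2 - h - (q + 2)) hh hl (by omega)
    have h5 : m + 2 - h - (q + 2) + 1 + h - h * l = m + 2 - h * l - (q + 1) := by omega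
    rw [h5] at h4
    calc h * l * 2 ^ q * cf (2 * (h * l)) (m + 2 - h * l - (q + 1))
        = h * 2 ^ q * (l * cf (2 * (h * l)) (m + 2 - h * l - (q + 1))) := by ring
      _ ≤ h * 2 ^ q * (2 * cf (2 * h) (m + 2 - h - (q + 2))) := Nat.mul_le_mul_left _ h4
      _ = _ := by ring

theorem thm_UpR (hGa : St_Ga) (m : ℕ) (hm : crk (⊥ : AddSubgroup G) ≤ m) (hmn : m < Nat.card G)
    (H : AddSubgroup G) (hH : H ≠ ⊤) :
    ∃ A : Finset G, (0 : G) ∉ A ∧ A.card = m ∧ AddSubgroup.closure (A : Set G) = ⊤ ∧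
      (FS A id).card ≤ valr m H := by
  have := Fintype.ofFinite G
  induction hn : Nat.card G - Nat.card H using Nat.strong_induction_on generalizing H with
  | _ n ih =>
    obtain ⟨Z, Y, hZ, hYc, hZg, hYH, hY0, hZY⟩ := Ga2 hGa H
    obtain ⟨r, hr⟩ : ∃ r, r = crk H := ⟨_, rfl⟩
    obtain ⟨h, hh⟩ : ∃ h, h = Nat.card H := ⟨_, rfl⟩
    have hr1 : 1 ≤ r := hr ▸ crk_pos hH
    have hh1 : 1 ≤ h := hh ▸ Nat.card_pos
    rw [← hr] at hZ hYc
    -- minimality
    have hmin : ∀ z ∈ Z, z ∉ H ⊔ AddSubgroup.closure ((Z.erase z : Finset G) : Set G) := by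
      intro z hz h1
      have h2 : H ⊔ AddSubgroup.closure ((Z.erase z : Finset G) : Set G) = ⊤ := by
        rw [eq_top_iff]
        conv_lhs => rw [← hZg]
        apply sup_le le_sup_left
        rw [AddSubgroup.closure_le]
        intro w hw
        rcases eq_or_ne w z with rfl | hwz
        · exact h1
        · exact AddSubgroup.mem_sup_right (AddSubgroup.subset_closure
            (mem_coe.2 (mem_erase.2 ⟨hwz, hw⟩)))
      have h3 := crk_le h2
      rw [card_erase_of_mem hz] at h3
      omega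
    obtain ⟨x, hx⟩ : Z.Nonempty := by
      rw [← card_pos]
      omega
    obtain ⟨l, hl⟩ : ∃ l, l = addOrderOf (QuotientAddGroup.mk x : G ⧸ H) := ⟨_, rfl⟩
    have hxH : x ∉ H := fun h1 => hmin x hx (AddSubgroup.mem_sup_left h1)
    have hl2 : 2 ≤ l := by
      have h1 : l ≠ 0 := hl ▸ (addOrderOf_pos _).ne'
      have h2 : l ≠ 1 := by
        intro h3
        rw [hl, AddMonoid.addOrderOf_eq_one_iff, QuotientAddGroup.eq_zero_iff] at h3
        exact hxH h3
      omega
    obtain ⟨t, ht⟩ : ∃ t, t = max 1 (m + 2 - h - r) := ⟨_, rfl⟩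
    have ht1 : 1 ≤ t := ht ▸ le_max_left _ _
    have hrm : r ≤ m := by
      have : r ≤ crk (⊥ : AddSubgroup G) := hr ▸ crk_anti bot_le
      omega
    have hval : valr m H = h * 2 ^ (r - 1) * cf (2 * h) t := by
      rw [valr, ← hh, ← hr, ht]
    -- the subgroup `H + ⟨x⟩`
    obtain ⟨P, hP⟩ : ∃ P : AddSubgroup G, P = H ⊔ AddSubgroup.zmultiples x := ⟨_, rfl⟩
    have hPc : Nat.card P = h * l := by
      have h1 : P = (AddSubgroup.zmultiples (QuotientAddGroup.mk x : G ⧸ H)).comap
          (QuotientAddGroup.mk' H) := by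
        rw [hP]
        apply le_antisymm
        · apply sup_le
          · intro y hy
            rw [AddSubgroup.mem_comap, QuotientAddGroup.mk'_apply, (QuotientAddGroup.eq_zero_iff y).2 hy]
            exact AddSubgroup.zero_mem _
          · rw [AddSubgroup.zmultiples_le, AddSubgroup.mem_comap]
            exact AddSubgroup.mem_zmultiples _
        · intro y hy
          rw [AddSubgroup.mem_comap, QuotientAddGroup.mk'_apply, AddSubgroup.mem_zmultiples_iff] at hy
          obtain ⟨k, hk⟩ := hy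
          rw [← QuotientAddGroup.mk_zsmul, QuotientAddGroup.eq] at hk
          have h2 : y = (-(k • x) + y) + k • x := by abel
          rw [h2]
          exact AddSubgroup.add_mem_sup hk (AddSubgroup.zsmul_mem_zmultiples x k)
      have h2 := Nat.card_congr (QuotientAddGroup.preimageMkEquivAddSubgroupProdSet H
        ((AddSubgroup.zmultiples (QuotientAddGroup.mk x : G ⧸ H)) : Set (G ⧸ H)))
      rw [Nat.card_prod] at h2
      have h3 : Nat.card (AddSubgroup.zmultiples (QuotientAddGroup.mk x : G ⧸ H)) = l := by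
        rw [Nat.card_zmultiples, hl]
      rw [h1, hh, ← h3]
      exact h2
    have hPr : crk P = r - 1 := by
      apply le_antisymm
      · have h1 : P ⊔ AddSubgroup.closure ((Z.erase x : Finset G) : Set G) = ⊤ := by
          rw [eq_top_iff]
          conv_lhs => rw [← hZg]
          apply sup_le
          · rw [hP]
            exact le_sup_left.trans le_sup_left
          · rw [AddSubgroup.closure_le]
            intro w hw
            rcases eq_or_ne w x with rfl | hwz
            · refine AddSubgroup.mem_sup_left ?_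
              rw [hP]
              exact AddSubgroup.mem_sup_right (AddSubgroup.mem_zmultiples _)
            · exact AddSubgroup.mem_sup_right (AddSubgroup.subset_closure
                (mem_coe.2 (mem_erase.2 ⟨hwz, hw⟩)))
        have h2 := crk_le h1
        rwa [card_erase_of_mem hx, hZ] at h2
      · have h1 := crk_sup_le H x
        rw [← hP, ← hr] at h1
        omega
    have hPG : Nat.card P ≤ Nat.card G := by
      rw [← AddSubgroup.card_top (G := G)]
      exact Nat.card_le_card_of_injective (AddSubgroup.inclusion (le_top : P ≤ ⊤))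
        (AddSubgroup.inclusion_injective _)
    rcases Nat.lt_or_ge l (cf (2 * h) t) with hlt | hge
    · rcases Nat.lt_or_ge r 2 with hr2 | hr2
      · -- the value is at least `|G|`
        obtain ⟨A, hA0, hAm, hAg⟩ := ex_any m hm hmn
        refine ⟨A, hA0, hAm, hAg, ?_⟩
        have h1 : P = ⊤ := by
          by_contra h2
          have := crk_pos h2
          omega
        have h2 : Nat.card G = h * l := by
          rw [← hPc, h1, AddSubgroup.card_top]
        have h3 : (FS A (id : G → G)).card ≤ Nat.card G := by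
          rw [Nat.card_eq_fintype_card]
          exact card_le_univ _
        rw [hval, show r - 1 = 0 by omega, pow_zero, mul_one]
        refine h3.trans ?_
        rw [h2]
        exact Nat.mul_le_mul_left _ hlt.le
      · have h1 : P ≠ ⊤ := by
          intro h2
          rw [h2, crk_top] at hPr
          omega
        have h2 : Nat.card H < Nat.card P := by
          rw [hPc, ← hh]
          have : h * 2 ≤ h * l := Nat.mul_le_mul_left _ hl2
          omega
        obtain ⟨A, hA0, hAm, hAg, hA⟩ := ih (Nat.card G - Nat.card P) (by omega) P h1 rfl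
        refine ⟨A, hA0, hAm, hAg, hA.trans ?_⟩
        rw [hval, valr, hPc, hPr, ht]
        exact valr_num h l r m hh1 hl2 hr2 (by rw [← ht]; exact hlt.le)
    · -- the construction
      obtain ⟨s, hs⟩ : ∃ s, s = m - t - (r - 1) := ⟨_, rfl⟩
      have hYle : Y.card ≤ h - 1 := by
        rw [hh, ← card_Hs]
        refine card_le_card fun y hy => ?_
        rw [mem_Hs]
        refine ⟨fun h1 => hY0 (h1 ▸ hy), hYH y hy⟩
      have hst : t + s + (r - 1) = m ∧ Y.card ≤ s ∧ s ≤ h - 1 := by
        rcases Nat.lt_or_ge (m + 2) (h + r + 1) with h1 | h1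
        · have h2 : t = 1 := by rw [ht]; omega
          rw [h2] at hs ⊢
          omega
        · have h2 : t = m + 2 - h - r := by rw [ht]; omega
          rw [h2] at hs ⊢
          omega
      obtain ⟨hst1, hst2, hst3⟩ := hst
      have hYs : Y ⊆ Hs H := fun y hy => (mem_Hs H y).2 ⟨fun h1 => hY0 (h1 ▸ hy), hYH y hy⟩
      obtain ⟨S, hYS, hS, hSc⟩ := exists_subsuperset_card_eq hYs hst2 (by
        rw [card_Hs, ← hh]
        exact hst3)
      obtain ⟨A0, hA00, hA0c, hxA0, hSA0, hA0m, hA0s⟩ := constr H x l t ht1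
        (fun k hk => by rw [hl]; exact ord_quot H x k hk) (by rw [← hh]; exact hge) S
        (fun z hz => ((mem_Hs H z).1 (hS hz)).2) (fun h1 => ((mem_Hs H 0).1 (hS h1)).1 rfl)
      have hdis : Disjoint A0 (Z.erase x) := by
        rw [disjoint_left]
        intro z hz hz'
        rw [mem_erase] at hz'
        apply hmin z hz'.2
        have h1 := hA0m z hz
        have h2 : AddSubgroup.zmultiples x ⊔ H ≤
            H ⊔ AddSubgroup.closure ((Z.erase z : Finset G) : Set G) := by
          apply sup_le _ le_sup_left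
          rw [AddSubgroup.zmultiples_le]
          exact AddSubgroup.mem_sup_right (AddSubgroup.subset_closure
            (mem_coe.2 (mem_erase.2 ⟨fun h3 => hz'.1 h3.symm, hx⟩)))
        exact h2 h1
      refine ⟨A0 ∪ Z.erase x, ?_, ?_, ?_, ?_⟩
      · rw [mem_union, not_or]
        refine ⟨hA00, fun h1 => ?_⟩
        exact hmin 0 (mem_of_mem_erase h1) (AddSubgroup.zero_mem _)
      · rw [card_union_of_disjoint hdis, hA0c, hSc, card_erase_of_mem hx, hZ]
        exact hst1
      · rw [eq_top_iff, ← hZY, AddSubgroup.closure_le]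
        intro z hz
        apply AddSubgroup.subset_closure
        rw [mem_coe, mem_union] at hz ⊢
        rcases hz with hz | hz
        · rcases eq_or_ne z x with rfl | hzx
          · exact Or.inl hxA0
          · exact Or.inr (mem_erase.2 ⟨hzx, hz⟩)
        · exact Or.inl (hSA0 (hYS hz))
      · refine (FS_union_le A0 _).trans ?_
        rw [card_erase_of_mem hx, hZ, hval]
        calc 2 ^ (r - 1) * (FS A0 id).card ≤ 2 ^ (r - 1) * (Nat.card H * cf (2 * Nat.card H) t) :=
              Nat.mul_le_mul_left _ hA0s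
          _ = h * 2 ^ (r - 1) * cf (2 * h) t := by rw [← hh]; ring

/-- the bound -/
def upr (G : Type) [AddCommGroup G] [Finite G] (m : ℕ) : ℕ :=
  sInf ({Nat.card G} ∪ {v | ∃ H : AddSubgroup G, H ≠ ⊤ ∧ v = valr m H})

/-- **The upper bound for all finite abelian groups.** -/
theorem rho_le_upr (hGa : St_Ga) (m : ℕ) (hm : crk (⊥ : AddSubgroup G) ≤ m) (hmn : m < Nat.card G) :
    (sizes G m).Nonempty ∧ rho G m ≤ upr G m := by
  have := Fintype.ofFinite G
  have key : ∃ A : Finset G, (0 : G) ∉ A ∧ A.card = m ∧ AddSubgroup.closure (A : Set G) = ⊤ ∧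
      (FS A id).card ≤ upr G m := by
    have h1 : upr G m ∈ ({Nat.card G} ∪ {v | ∃ H : AddSubgroup G, H ≠ ⊤ ∧ v = valr m H} : Set ℕ) :=
      Nat.sInf_mem ⟨_, Or.inl rfl⟩
    rcases h1 with h1 | ⟨H, hH, h1⟩
    · obtain ⟨A, hA0, hAm, hAg⟩ := ex_any m hm hmn
      refine ⟨A, hA0, hAm, hAg, ?_⟩
      rw [show upr G m = Nat.card G from h1, Nat.card_eq_fintype_card]
      exact card_le_univ _
    · rw [h1]
      exact thm_UpR hGa m hm hmn H hH
  obtain ⟨A, hA0, hAm, hAg, hA⟩ := key
  have h1 : (subsetSums A).ncard ∈ sizes G m := ⟨A, hA0, hAm, hAg, rfl⟩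
  refine ⟨⟨_, h1⟩, (Nat.sInf_le h1).trans ?_⟩
  rw [ncard_subsetSums]
  exact hA

end

end Pool.Agent.SNR
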