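import Pool.Agent.SNR.Su

/-!
# SNR, module WD (helper48): the numbers of a maximal candidate, with the inequality of a class
-/

set_option autoImplicit false

noncomputable section

open Finset Pool.Agent.Helper64.Rho
open scoped Classical Pointwise

namespace Pool.Agent.SNR

open Pool.Agent.SDG Pool.Agent.SNW

section
variable {G : Type} [AddCommGroup G] [Finite G] {ι : Type}

/-- the case of a member outside a candidate, with the number of members over it -/
theorem D_ineq2 {s : Finset ι} {f : ι → G} (h0 : ∀ i ∈ s, f i ≠ 0) (hA : Aper (FS s f)) (m j : ℕ)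
    (hj : ∀ k ∈ s, lam (FS s f) (f k) ≤ j)
    (hGR : GR (m + 1) (⊥ : AddSubgroup G) (FS s f).card) (R : AddSubgroup G) (hC : Cd s f R)
    {H' : Type} [AddCommGroup H'] [Finite H'] (π : G →+ H') (hπs : Function.Surjective π)
    (hπk : ∀ x, π x = 0 ↔ x ∈ R) (hπc : Nat.card G = Nat.card R * Nat.card H')
    (i : ι) (hi : i ∈ s) (hiR : f i ∉ R)
    (H : AddSubgroup G) (hRH : R ≤ H) (hiH : f i ∈ H) (hH : crk H < m)
    (hst : Nat.card H * 2 ^ crk H ≤
      (st (FS s f) (gen (insert i (s.filter fun k => f k ∈ R)) f)).card) :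
    ∃ μ Z : ℕ, ((s.filter fun i => f i ∉ R).filter fun k =>
        π (f k) ∈ AddSubgroup.zmultiples (π (f i))).card + 1 ≤ Z ∧ Z + 1 ≤ μ ∧ (μ - 2) * (FS s f).card <
      2 * (j * (Nat.card R - (FS (s.filter fun i => f i ∈ R) f).card)) +
      2 * (Nat.card R * (j / (FS (s.filter fun i => f i ∈ R) f).card) * (μ - Z)) := by
  obtain ⟨d1, d2, d3, d4, d5⟩ := Cd_data hπs hπk hC h0 hA j hj
  have hqn := q_ne s f hπk
  obtain ⟨Y, hY'⟩ : ∃ Y, Y = (FS (s.filter fun i => f i ∈ R) f).card := ⟨_, rfl⟩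
  obtain ⟨N, hN'⟩ : ∃ N, N = (FS (s.filter fun i => f i ∉ R) (fun i => π (f i))).card := ⟨_, rfl⟩
  obtain ⟨y, hy'⟩ : ∃ y, y = Nat.card R := ⟨_, rfl⟩
  rw [← hY', ← hN', ← hy'] at d2
  rw [← hY'] at d4
  rw [← hY', ← hy']
  have hYpos : 0 < Y := by omega
  have hy0 : 0 < y := hy' ▸ Nat.card_pos
  have hlam' : ∀ k ∈ s.filter (fun i => f i ∉ R),
      lam (FS (s.filter fun i => f i ∉ R) (fun i => π (f i))) (π (f k)) ≤ j / Y := by
    intro k hk
    rw [Nat.le_div_iff_mul_le hYpos, hY']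
    exact (q_lam s f hπk (f k)).trans (hj k (mem_filter.1 hk).1)
  have hii : i ∈ s.filter fun i => f i ∉ R := mem_filter.2 ⟨hi, hiR⟩
  have hL'g : gen ((s.filter fun i => f i ∉ R).filter fun k =>
      π (f k) ∈ AddSubgroup.zmultiples (π (f i))) (fun i => π (f i)) =
      AddSubgroup.zmultiples (π (f i)) := by
    refine le_antisymm (P1_gen_le _ _ _) ?_
    rw [AddSubgroup.zmultiples_le]
    exact P1_mem_gen (f := fun i => π (f i))
      (mem_filter.2 ⟨hii, AddSubgroup.mem_zmultiples _⟩)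
  obtain ⟨hp1, -⟩ := all_Pc H' ι (s.filter fun i => f i ∉ R) (fun i => π (f i))
    (AddSubgroup.zmultiples (π (f i))) (j / Y) hqn d1 hL'g
    (fun k hk _ => hlam' k hk)
  obtain ⟨S', hS'⟩ : ∃ S', S' = (st (FS (s.filter fun i => f i ∉ R) (fun i => π (f i)))
      (AddSubgroup.zmultiples (π (f i)))).card := ⟨_, rfl⟩
  -- the saturation upstairs
  have hup : (st (FS s f) (gen (insert i (s.filter fun k => f k ∈ R)) f)).card ≤ y * S' := by
    have h1 : gen (insert i (s.filter fun k => f k ∈ R)) f ≤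
        (AddSubgroup.zmultiples (π (f i))).comap π := by
      unfold gen
      rw [AddSubgroup.closure_le]
      rintro _ ⟨k, hk, rfl⟩
      rw [mem_coe, mem_insert, mem_filter] at hk
      rw [SetLike.mem_coe, AddSubgroup.mem_comap]
      rcases hk with rfl | ⟨-, hk⟩
      · exact AddSubgroup.mem_zmultiples _
      · rw [(hπk _).2 hk]
        exact AddSubgroup.zero_mem _
    rw [hS', hy']
    refine card_le_mul_card_image_of_maps_to (f := π) ?_ _ ?_
    · intro x hx
      obtain ⟨a, ha, hxa⟩ := P1_mem_st.1 hx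
      refine P1_mem_st.2 ⟨π a, ?_, ?_⟩
      · rw [q_image s f hπk]
        exact mem_image_of_mem π ha
      · rw [← map_sub]
        exact h1 hxa
    · intro c _
      obtain ⟨RF, hRF, hRc⟩ := fin_exists R
      rcases ((st (FS s f) (gen (insert i (s.filter fun k => f k ∈ R)) f)).filter
          fun x => π x = c).eq_empty_or_nonempty with he | ⟨a, ha⟩
      · rw [he, card_empty]
        exact Nat.zero_le _
      · rw [← hRc]
        refine card_le_card_of_injOn (fun x => x - a) ?_ (fun x _ z _ h => sub_left_injective h)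
        intro x hx
        rw [mem_coe, hRF, ← hπk, map_sub, (mem_filter.1 hx).2, (mem_filter.1 ha).2, sub_self]
  rw [← hS', ← hN'] at hp1
  have hLb : AddSubgroup.zmultiples (π (f i)) ≠ ⊥ := by
    intro hb
    have h1 : π (f i) ∈ AddSubgroup.zmultiples (π (f i)) := AddSubgroup.mem_zmultiples _
    rw [hb, AddSubgroup.mem_bot] at h1
    exact hqn i hii h1
  obtain ⟨Y', hY''⟩ : ∃ Y', Y' = (FS ((s.filter fun i => f i ∉ R).filter fun k =>
      π (f k) ∈ AddSubgroup.zmultiples (π (f i))) (fun i => π (f i))).card := ⟨_, rfl⟩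
  have hsub' : ((s.filter fun i => f i ∉ R).filter fun k =>
      π (f k) ∈ AddSubgroup.zmultiples (π (f i))) ⊆ s.filter fun i => f i ∉ R :=
    filter_subset _ _
  have hA' := (all_Ba1 H' ι (fun i => π (f i))).2.1 _ _ hsub' d1
  have hYc : ((s.filter fun i => f i ∉ R).filter fun k =>
      π (f k) ∈ AddSubgroup.zmultiples (π (f i))).card + 1 ≤ Y' := by
    have h7 := (all_Sm H' ι _ (fun i => π (f i)) (fun k hk => hqn k (hsub' hk)) hA').1
    rw [hY'']
    exact h7
  have hY2 : 2 ≤ Y' := by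
    have h8 : 1 ≤ ((s.filter fun i => f i ∉ R).filter fun k =>
      π (f k) ∈ AddSubgroup.zmultiples (π (f i))).card :=
      card_pos.2 ⟨i, mem_filter.2 ⟨hii, AddSubgroup.mem_zmultiples _⟩⟩
    omega
  have hY3 : Y' + 1 ≤ Nat.card (AddSubgroup.zmultiples (π (f i))) := by
    rw [hY'']
    exact (all_Kn H').2.2.2 _ _ ⟨0, zero_mem_FS _ _⟩ hLb
      (fun x hx => FS_subset_of_mem (fun k hk => (mem_filter.1 hk).2) hx) hA'
  rw [← hY''] at hp1
  obtain ⟨μ, hμ⟩ : ∃ μ, μ = Nat.card (AddSubgroup.zmultiples (π (f i))) := ⟨_, rfl⟩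
  rw [← hμ] at hp1 hY3
  -- exchange
  obtain ⟨K', hRK, -, hcard, w, hw⟩ := exchange R H (f i) hRH hiH
  have hsup : R ⊔ AddSubgroup.zmultiples (f i) = (AddSubgroup.zmultiples (π (f i))).comap π := by
    apply le_antisymm
    · apply sup_le
      · intro x hx
        rw [AddSubgroup.mem_comap, (hπk x).2 hx]
        exact AddSubgroup.zero_mem _
      · rw [AddSubgroup.zmultiples_le, AddSubgroup.mem_comap]
        exact AddSubgroup.mem_zmultiples _
    · intro x hx
      rw [AddSubgroup.mem_comap, AddSubgroup.mem_zmultiples_iff] at hx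
      obtain ⟨k, hk⟩ := hx
      have h1 : x - k • f i ∈ R := by
        rw [← hπk, map_sub, map_zsmul, hk, sub_self]
      have h2 : x = (x - k • f i) + k • f i := by abel
      rw [h2]
      exact AddSubgroup.add_mem_sup h1 (AddSubgroup.zsmul_mem_zmultiples _ k)
  rw [hsup, card_comap R π hπs hπc, ← hμ, ← hy'] at hcard
  have h4 : crk K' ≤ crk H + 1 := by
    rw [hw]
    exact crk_sup_le K' w
  have h5 := hGR K' bot_le (by omega)
  have hcard2 : Nat.card K' * μ = Nat.card H := by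
    have h1 : y * (Nat.card K' * μ) = y * Nat.card H := by
      calc y * (Nat.card K' * μ) = Nat.card K' * (y * μ) := by ring
        _ = Nat.card H * y := hcard
        _ = y * Nat.card H := by ring
    exact Nat.eq_of_mul_eq_mul_left hy0 h1
  have hμ0 : 0 < μ := by omega
  have h6 : μ * (FS s f).card < μ * (Nat.card K' * 2 ^ crk K') := Nat.mul_lt_mul_of_pos_left h5 hμ0
  have h7 : μ * (Nat.card K' * 2 ^ crk K') ≤ 2 * (Nat.card H * 2 ^ crk H) := by
    rw [← hcard2]
    calc μ * (Nat.card K' * 2 ^ crk K') ≤ μ * (Nat.card K' * 2 ^ (crk H + 1)) :=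
          Nat.mul_le_mul_left _ (Nat.mul_le_mul_left _ (Nat.pow_le_pow_right (by norm_num) h4))
      _ = 2 * (Nat.card K' * μ * 2 ^ crk H) := by ring
  have h8 : μ * (FS s f).card < 2 * (y * S') := by omega
  refine ⟨μ, Y', hYc, hY3, ?_⟩
  have h10 : y * S' ≤ y * N + y * (j / Y) * (μ - Y') := by
    calc y * S' ≤ y * (N + j / Y * (μ - Y')) := Nat.mul_le_mul_left _ hp1
      _ = _ := by ring
  obtain ⟨ν, rfl⟩ : ∃ ν, μ = ν + 2 := ⟨μ - 2, by omega⟩
  rw [Nat.add_sub_cancel]
  have h11 : (ν + 2) * (FS s f).card = ν * (FS s f).card + 2 * (FS s f).card := by ring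
  omega

/-- the numbers of a maximal candidate of level `m`, with the inequality of every member outside -/
theorem setup2 {s : Finset ι} {f : ι → G} (h0 : ∀ i ∈ s, f i ≠ 0) (hA : Aper (FS s f))
    (hg : gen s f = ⊤) (hge : ∀ i ∈ s, gen (s.erase i) f = ⊤) (hbt : (⊥ : AddSubgroup G) ≠ ⊤)
    (m j : ℕ) (hm : 1 ≤ m) (hj : ∀ k ∈ s, lam (FS s f) (f k) ≤ j)
    (hGR : GR (m + 1) (⊥ : AddSubgroup G) (FS s f).card) :
    ∃ (R : AddSubgroup G) (H' : Type) (_ : AddCommGroup H') (_ : Finite H') (π : G →+ H'),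
      Function.Surjective π ∧ (∀ x, π x = 0 ↔ x ∈ R) ∧ R ≠ ⊤ ∧ Cd s f R ∧
      (∀ i ∈ s.filter (fun i => f i ∉ R), π (f i) ≠ 0) ∧
      Aper (FS (s.filter fun i => f i ∉ R) (fun i => π (f i))) ∧
      gen (s.filter fun i => f i ∉ R) (fun i => π (f i)) = ⊤ ∧
      GR m (⊥ : AddSubgroup H') (FS (s.filter fun i => f i ∉ R) (fun i => π (f i))).card ∧
      m ≤ crk R ∧ crk R ≤ crk (⊥ : AddSubgroup H') ∧
      Nat.card R * (FS (s.filter fun i => f i ∉ R) (fun i => π (f i))).card ≤
        (FS s f).card + j * (Nat.card R - (FS (s.filter fun i => f i ∈ R) f).card) ∧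
      (FS (s.filter fun i => f i ∉ R) (fun i => π (f i))).card *
        (FS (s.filter fun i => f i ∈ R) f).card ≤ (FS s f).card ∧
      (s.filter fun i => f i ∈ R).card + 1 ≤ (FS (s.filter fun i => f i ∈ R) f).card ∧
      1 ≤ (s.filter fun i => f i ∈ R).card ∧
      (FS (s.filter fun i => f i ∈ R) f).card + 1 ≤ Nat.card R ∧
      (s.filter fun i => f i ∉ R).card + (s.filter fun i => f i ∈ R).card = s.card ∧
      crk R + 1 ≤ (s.filter fun i => f i ∉ R).card ∧
      (crk R ≤ m → (FS s f).card < Nat.card R * 2 ^ m) ∧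
      ∀ i ∈ s.filter (fun i => f i ∉ R), ∃ μ Z : ℕ, ((s.filter fun i => f i ∉ R).filter fun k =>
        π (f k) ∈ AddSubgroup.zmultiples (π (f i))).card + 1 ≤ Z ∧ Z + 1 ≤ μ ∧ (μ - 2) * (FS s f).card <
      2 * (j * (Nat.card R - (FS (s.filter fun i => f i ∈ R) f).card)) +
      2 * (Nat.card R * (j / (FS (s.filter fun i => f i ∈ R) f).card) * (μ - Z)) := by
  obtain ⟨R, hC, hRG, hR⟩ := max_cand2 h0 hA hbt m hm (GR_mono (Nat.le_succ m) le_rfl hGR)
  obtain ⟨H', _, _, π, hπs, hπk, hπc⟩ := q_exists G R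
  obtain ⟨d1, d2, d3, d4, d5⟩ := Cd_data hπs hπk hC h0 hA j hj
  have he := crk_nodrop hC.1 hge hg
  obtain ⟨i, hi⟩ : (s.filter fun i => f i ∉ R).Nonempty := by
    rw [← card_pos]
    omega
  obtain ⟨his, hiR⟩ := mem_filter.1 hi
  obtain ⟨H, hRH, hiH, hH, hst⟩ := hR i his hiR
  have hbot : R ≠ ⊥ := by
    rintro rfl
    have h2 : (s.filter fun k => f k ∈ (⊥ : AddSubgroup G)) = ∅ := by
      rw [Finset.filter_eq_empty_iff]
      intro k hk h
      exact h0 k hk ((AddSubgroup.mem_bot).1 h)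
    rw [h2] at hst
    have h6 : gen (insert i ∅) f = AddSubgroup.zmultiples (f i) := by
      apply le_antisymm
      · unfold gen
        rw [AddSubgroup.closure_le]
        rintro _ ⟨k, hk, rfl⟩
        rw [mem_coe, mem_insert] at hk
        rcases hk with rfl | hk
        · exact AddSubgroup.mem_zmultiples _
        · exact absurd hk (notMem_empty _)
      · rw [AddSubgroup.zmultiples_le]
        exact P1_mem_gen (mem_insert_self i ∅)
    rw [h6] at hst
    exact bot_level h0 hA m hGR i his H hiH hH hst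
  obtain ⟨d6, d7⟩ := d5 hbot
  have hmR : m ≤ crk R := by
    by_contra hcon
    have h1 := hRG R le_rfl (by omega)
    have := Fintype.ofFinite G
    have h2 := pow_crk_le R s f (by
      rw [eq_top_iff, ← hg]
      unfold gen
      exact le_sup_right)
    rw [← st_sat] at h2
    omega
  refine ⟨R, H', inferInstance, inferInstance, π, hπs, hπk, hC.1, hC, q_ne s f hπk, d1,
    q_gen s f hπs hπk hg, ?_, hmR, crk_quot R π hπs hπk, d2, d3, d4, d6, d7, ?_, he, ?_, ?_⟩
  · apply GR_quot R π hπs hπk hπc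
    rw [q_card s f hπk]
    exact hRG
  · rw [add_comm]
    exact Finset.card_filter_add_card_filter_not (s := s) (fun i => f i ∈ R)
  · intro h1
    have h2 : crk R = m := by omega
    have h3 := hGR R bot_le (by omega)
    rwa [h2] at h3
  · intro i hi
    obtain ⟨his, hiR⟩ := mem_filter.1 hi
    obtain ⟨H, hRH, hiH, hH, hst⟩ := hR i his hiR
    exact D_ineq2 h0 hA m j hj hGR R hC π hπs hπk hπc i his hiR H hRH hiH hH hst

end

end Pool.Agent.SNR
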