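import Pool.Agent.SNR.Nd

/-!
# SNR, module WRk (helper48): three members of a class and the rank; the inequality of a class
-/

set_option autoImplicit false

noncomputable section

open Finset Pool.Agent.Helper64.Rho
open scoped Classical Pointwise

namespace Pool.Agent.SNR

open Pool.Agent.SDG Pool.Agent.SNW

section
variable {G : Type} [AddCommGroup G] [Finite G] {ι : Type}

/-- three members in one class `± x`, no drop, rank at least two: the rank is at most the number of members minus 3 -/
theorem rank_three (s : Finset ι) (f : ι → G) (hg : gen s f = ⊤) (hge : ∀ i ∈ s, gen (s.erase i) f = ⊤)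
    (hr : 2 ≤ crk (⊥ : AddSubgroup G)) (x : G)
    (hx : 3 ≤ (s.filter fun i => f i = x ∨ f i = -x).card) :
    crk (⊥ : AddSubgroup G) + 3 ≤ s.card := by
  obtain ⟨c, hc⟩ : ∃ c, c = s.filter fun i => f i = x ∨ f i = -x := ⟨_, rfl⟩
  rw [← hc] at hx
  have hcs : c ⊆ s := hc ▸ filter_subset _ _
  obtain ⟨a, ha⟩ : c.Nonempty := by
    rw [← card_pos]
    omega
  -- a member outside the class
  obtain ⟨i, hi, hic⟩ : ∃ i ∈ s, i ∉ c := by
    by_contra hcon
    push Not at hcon
    have h1 : crk (⊥ : AddSubgroup G) ≤ ({x} : Finset G).card := by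
      apply crk_le
      rw [bot_sup_eq, eq_top_iff, ← hg]
      unfold gen
      rw [AddSubgroup.closure_le]
      rintro _ ⟨k, hk, rfl⟩
      have h2 := hcon k (mem_coe.1 hk)
      rw [hc, mem_filter] at h2
      have h3 : x ∈ AddSubgroup.closure (({x} : Finset G) : Set G) :=
        AddSubgroup.subset_closure (by simp)
      rcases h2.2 with h4 | h4
      · rw [h4]
        exact h3
      · rw [h4]
        exact AddSubgroup.neg_mem _ h3
    rw [card_singleton] at h1
    omega
  -- the generators
  obtain ⟨S, hS⟩ : ∃ S, S = insert x (((s.erase i) \ c).image f) := ⟨_, rfl⟩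
  have h1 : crk (⊥ : AddSubgroup G) ≤ S.card := by
    apply crk_le
    rw [bot_sup_eq, eq_top_iff, ← hge i hi]
    unfold gen
    rw [AddSubgroup.closure_le]
    rintro _ ⟨k, hk, rfl⟩
    by_cases hkc : k ∈ c
    · have h3 : x ∈ AddSubgroup.closure (S : Set G) := by
        apply AddSubgroup.subset_closure
        rw [hS]
        exact mem_coe.2 (mem_insert_self _ _)
      rw [hc, mem_filter] at hkc
      rcases hkc.2 with h4 | h4
      · rw [h4]
        exact h3
      · rw [h4]
        exact AddSubgroup.neg_mem _ h3
    · apply AddSubgroup.subset_closure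
      rw [hS]
      exact mem_coe.2 (mem_insert_of_mem (mem_image_of_mem f (mem_sdiff.2 ⟨mem_coe.1 hk, hkc⟩)))
  have h2 : S.card ≤ ((s.erase i) \ c).card + 1 := by
    rw [hS]
    exact (card_insert_le _ _).trans (Nat.add_le_add_right card_image_le 1)
  have h3 : ((s.erase i) \ c).card = (s.erase i).card - c.card := by
    apply card_sdiff_of_subset
    intro k hk
    refine mem_erase.2 ⟨?_, hcs hk⟩
    rintro rfl
    exact hic hk
  have h4 : (s.erase i).card = s.card - 1 := card_erase_of_mem hi
  have h5 : c.card + 1 ≤ s.card := by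
    have h6 : c.card < s.card := card_lt_card ⟨hcs, fun h => hic (h hi)⟩
    omega
  omega

end

end Pool.Agent.SNR
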