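import Pool.Agent.SNR.WSt
import Pool.Agent.SBN.St

/-!
# SNR, module WV (helper48): the bound for the rest of a family, two members less, level `m - 1`
-/

set_option autoImplicit false

noncomputable section

open Finset Pool.Agent.Helper64.Rho
open scoped Classical Pointwise

namespace Pool.Agent.SNR

open Pool.Agent.SDG Pool.Agent.SNW Pool.Agent.SBN

def NDwSt (t : ℕ) : Prop :=
  ∀ (m : ℕ) (G ι : Type) [AddCommGroup G] [Finite G] (s : Finset ι) (f : ι → G), 2 ≤ m → s.card = t →
    m + 1 ≤ crk (⊥ : AddSubgroup G) → (∀ i ∈ s, f i ≠ 0) → Cap 2 s f → Aper (FS s f) → gen s f = ⊤ →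
      (∀ i ∈ s, gen (s.erase i) f = ⊤) → GR m (⊥ : AddSubgroup G) (FS s f).card →
        2 ^ (m - 2) * U (t + 2 - m) ≤ (FS s f).card

/-- cap of a restriction -/
theorem cap_restr {G H ι : Type} [AddCommGroup G] [AddCommGroup H] (φ : H →+ G) (c : ℕ) (s : Finset ι)
    (f : ι → G) (f1 : ι → H) (hf1 : ∀ k ∈ s, φ (f1 k) = f k) (hc : Cap c s f) : Cap c s f1 := by
  intro x
  refine (card_le_card ?_).trans (hc (φ x))
  intro k hk
  obtain ⟨hk1, hk2⟩ := mem_filter.1 hk
  refine mem_filter.2 ⟨hk1, ?_⟩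
  rw [← hf1 k hk1, ← map_neg]
  rcases hk2 with hk2 | hk2
  · left
    rw [hk2]
  · right
    rw [hk2]

theorem cap_erase {G ι : Type} [AddCommGroup G] (c : ℕ) (s s' : Finset ι) (f : ι → G) (hs : s' ⊆ s)
    (hc : Cap c s f) : Cap c s' f := fun x =>
  (card_le_card (filter_subset_filter _ hs)).trans (hc x)

/-- two thirds -/
def GT {G : Type} [AddCommGroup G] [Finite G] (m n : ℕ) : Prop :=
  ∀ H : AddSubgroup G, crk H < m → 3 * n < 2 * (Nat.card H * 2 ^ crk H)

theorem GT_GR {G : Type} [AddCommGroup G] [Finite G] {m n : ℕ} (h : GT (G := G) m n) :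
    GR m (⊥ : AddSubgroup G) n := by
  intro H _ hH
  have := h H hH
  omega

theorem U_23 (τ : ℕ) (h : 3 ≤ τ) : 2 * U (τ + 1) ≤ 3 * U τ := by
  unfold U
  obtain ⟨a, ha | ha⟩ : ∃ a, τ = 2 * a ∨ τ = 2 * a + 1 := ⟨τ / 2, by omega⟩
  · subst ha
    have e1 : (2 * a + 1 + 1) ^ 2 / 4 = (a + 1) * (a + 1) := by
      have : (2 * a + 1 + 1) ^ 2 = 4 * ((a + 1) * (a + 1)) := by ring
      omega
    have e2 : (2 * a + 1) ^ 2 / 4 = a * a + a := by
      have : (2 * a + 1) ^ 2 = 4 * (a * a + a) + 1 := by ring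
      omega
    rw [e1, e2]
    have h2 : 2 ≤ a := by omega
    nlinarith
  · subst ha
    have e1 : (2 * a + 1 + 1 + 1) ^ 2 / 4 = (a + 1) * (a + 1) + (a + 1) := by
      have : (2 * a + 1 + 1 + 1) ^ 2 = 4 * ((a + 1) * (a + 1) + (a + 1)) + 1 := by ring
      omega
    have e2 : (2 * a + 1 + 1) ^ 2 / 4 = (a + 1) * (a + 1) := by
      have : (2 * a + 1 + 1) ^ 2 = 4 * ((a + 1) * (a + 1)) := by ring
      omega
    rw [e1, e2]
    have h2 : 1 ≤ a := by omega
    nlinarith

def VSt (t : ℕ) : Prop :=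
  ∀ (m : ℕ) (G ι : Type) [AddCommGroup G] [Finite G] (s : Finset ι) (f : ι → G), 1 ≤ m → s.card = t →
    m + 1 ≤ crk (⊥ : AddSubgroup G) → (∀ i ∈ s, f i ≠ 0) → Cap 2 s f → Aper (FS s f) → gen s f = ⊤ →
      GT (G := G) m (FS s f).card → 2 ^ (m - 1) * U (t + 3 - m) ≤ 3 * (FS s f).card

theorem thm_V (hLB : St_LB) (t : ℕ) : (∀ t' ≤ t, NDwSt t') → VSt t := by
  induction t with
  | zero =>
    intro hND m G ι _ _ s f hm hs hr h0 hcap hA hg hG
    exfalso
    have h1 := crk_bot_le s f hg
    omega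
  | succ t ih =>
    intro hND m G ι _ _ s f hm hs hr h0 hcap hA hg hG
    rcases Nat.lt_or_ge m 2 with hm1 | hm2
    · obtain rfl : m = 1 := by omega
      have hcyc : ¬ IsAddCyclic G := by
        intro hc
        have h1 := crk_cyc hc
        omega
      have h1 := hG ⊤ (by rw [crk_top]; omega)
      rw [crk_top, pow_zero, mul_one, AddSubgroup.card_top] at h1
      have h2 := hLB G ι s f hcyc h0 hcap hA hg (by omega)
      rw [hs] at h2
      rw [Nat.sub_self, pow_zero, one_mul]
      exact h2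
    · obtain ⟨M, rfl⟩ : ∃ M, m = M + 2 := ⟨m - 2, by omega⟩
      have e1 : M + 2 - 1 = M + 1 := by omega
      rw [e1]
      by_cases hdrop : ∃ i ∈ s, f i ∉ gen (s.erase i) f
      · obtain ⟨i, hi, hd⟩ := hdrop
        have h2 : (FS s f).card = 2 * (FS (s.erase i) f).card := (all_Ba1 G ι f).2.2.2.1 s i hi hd
        have ht : (s.erase i).card = t := by rw [card_erase_of_mem hi, hs]; rfl
        obtain ⟨H, _, _, φ, f1, hφ, hr', hf1, hc, hg1⟩ := res (s.erase i) f _ rfl
        have hz : φ.range ⊔ AddSubgroup.zmultiples (f i) = ⊤ := by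
          rw [eq_top_iff, ← hg, hr']
          conv_lhs => unfold gen
          rw [AddSubgroup.closure_le]
          rintro _ ⟨k, hk, rfl⟩
          by_cases hki : k = i
          · subst hki
            exact AddSubgroup.mem_sup_right (AddSubgroup.mem_zmultiples _)
          · exact AddSubgroup.mem_sup_left (P1_mem_gen (mem_erase.2 ⟨hki, mem_coe.1 hk⟩))
        have hrk : crk (⊥ : AddSubgroup G) ≤ crk (⊥ : AddSubgroup H) + 1 := by
          have h3 := crk_sub φ (f i) hz ⊥
          rwa [AddSubgroup.map_bot] at h3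
        have h3 := ih (fun t' ht' => hND t' (by omega)) (M + 1) H ι (s.erase i) f1 (by omega) ht (by omega)
          (ne_res φ _ f f1 hf1 (fun k hk => h0 k (erase_subset _ _ hk)))
          (cap_restr φ 2 _ f f1 hf1 (cap_erase 2 s _ f (erase_subset _ _) hcap))
          (aper_res φ hφ _ f f1 hf1 ((all_Ba1 G ι f).2.1 s (s.erase i) (erase_subset _ _) hA)) hg1 (by
            intro L hL
            rw [hc]
            have h4 := crk_sub φ (f i) hz L
            have h5 := hG (L.map φ) (by omega)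
            have h6 : Nat.card (L.map φ) = Nat.card L := AddSubgroup.card_map_of_injective hφ
            rw [h6, h2] at h5
            have h7 : Nat.card L * 2 ^ crk (L.map φ) ≤ 2 * (Nat.card L * 2 ^ crk L) := by
              calc Nat.card L * 2 ^ crk (L.map φ) ≤ Nat.card L * 2 ^ (crk L + 1) :=
                    Nat.mul_le_mul_left _ (Nat.pow_le_pow_right (by norm_num) h4)
                _ = 2 * (Nat.card L * 2 ^ crk L) := by ring
            omega)
        rw [hc, Nat.add_sub_cancel] at h3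
        have e2 : t + 3 - (M + 1) = t + 1 + 3 - (M + 2) := by omega
        rw [e2] at h3
        rw [h2, pow_succ]
        have h4 : 2 ^ M * 2 * U (t + 1 + 3 - (M + 2)) = 2 * (2 ^ M * U (t + 1 + 3 - (M + 2))) := by ring
        omega
      · push Not at hdrop
        have hge : ∀ i ∈ s, gen (s.erase i) f = ⊤ := by
          intro i hi
          rw [← hg]
          exact (all_Ba1 G ι f).2.2.2.2.2.1 s i hi (hdrop i hi)
        have h1 := hND (t + 1) le_rfl (M + 2) G ι s f (by omega) hs hr h0 hcap hA hg hge (GT_GR hG)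
        have e3 : M + 2 - 2 = M := by omega
        rw [e3] at h1
        have hbt : (⊥ : AddSubgroup G) ≠ ⊤ := by
          intro h
          rw [h, crk_top] at hr
          omega
        have hte : crk (⊥ : AddSubgroup G) + 1 ≤ t + 1 := by
          have h3 := crk_nodrop hbt hge hg
          have h4 : (s.filter fun i => f i ∉ (⊥ : AddSubgroup G)).card ≤ t + 1 := by
            rw [← hs]
            exact card_filter_le _ _
          omega
        have h2 := U_23 (t + 1 + 2 - (M + 2)) (by omega)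
        have e4 : t + 1 + 2 - (M + 2) + 1 = t + 1 + 3 - (M + 2) := by omega
        rw [e4] at h2
        calc 2 ^ (M + 1) * U (t + 1 + 3 - (M + 2)) = 2 ^ M * (2 * U (t + 1 + 3 - (M + 2))) := by ring
          _ ≤ 2 ^ M * (3 * U (t + 1 + 2 - (M + 2))) := Nat.mul_le_mul_left _ h2
          _ = 3 * (2 ^ M * U (t + 1 + 2 - (M + 2))) := by ring
          _ ≤ _ := Nat.mul_le_mul_left _ h1

end Pool.Agent.SNR
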