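import Pool.Agent.SNR.WSt2
import Pool.Agent.SNR.WRk
import Pool.Agent.SNR.WD
import Pool.Agent.SNR.WV
import Pool.Agent.SNA.Al
import Pool.Agent.SBN.LB

/-!
# SNR, module WMain (helper48): cap 2, no drop, rank larger than the level `m ≥ 2`

`thm_NDw`: `2 ^ (m - 2) * U (t + 2 - m) ≤ |T|`.
-/

set_option autoImplicit false

noncomputable section

open Finset Pool.Agent.Helper64.Rho
open scoped Classical Pointwise

namespace Pool.Agent.SNR

open Pool.Agent.SDG Pool.Agent.SNW Pool.Agent.SBN

theorem PQ_U (τ : ℕ) (h : 4 ≤ τ) : U (τ - 1) ≤ Pool.Agent.SNA.PQ 0 (τ - 3) := by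
  obtain ⟨x, rfl⟩ : ∃ x, τ = x + 3 := ⟨τ - 3, by omega⟩
  have e1 : x + 3 - 1 = x + 2 := by omega
  rw [e1, Nat.add_sub_cancel]
  unfold Pool.Agent.SNA.PQ
  by_cases h3 : x = 3
  · subst h3
    simp [U]
  by_cases h4 : x = 4
  · subst h4
    simp [U]
  by_cases h5 : x = 5
  · subst h5
    simp [U]
  rw [if_neg h3, if_neg h4, if_neg h5]
  have h6 := U_cf x
  rcases Nat.even_or_odd' x with ⟨b, rfl | rfl⟩
  · have e2 : 2 * b + 2 = 2 * (b + 1) := by ring
    rw [U_even] at h6
    rw [e2, U_even]
    nlinarith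
  · have e2 : 2 * b + 1 + 2 = 2 * (b + 1) + 1 := by ring
    rw [U_odd] at h6
    rw [e2, U_odd]
    nlinarith

section
variable {G : Type} [AddCommGroup G] [Finite G] {ι : Type}

/-- two different members in a class with at least three members, and a third one -/
theorem two_lifts (s : Finset ι) (f : ι → G) (R : AddSubgroup G) {H : Type} [AddCommGroup H]
    (π : G →+ H) (hk : ∀ x, π x = 0 ↔ x ∈ R) (hcap : Cap 2 s f) (x : H)
    (hx : 3 ≤ ((s.filter fun i => f i ∉ R).filter fun i => π (f i) = x ∨ π (f i) = -x).card) :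
    ∃ i ∈ s.filter (fun i => f i ∉ R), ∃ i' ∈ s.filter (fun i => f i ∉ R), i ≠ i' ∧
      ((f i - f i' ∈ R ∧ f i ≠ f i') ∨ (f i + f i' ∈ R ∧ f i ≠ - f i')) ∧
      ∃ c ∈ s.filter (fun i => f i ∉ R), c ≠ i ∧ c ≠ i' ∧ (π (f i') = π (f c) ∨ π (f i') = - π (f c)) := by
  obtain ⟨C, hC⟩ : ∃ C, C = (s.filter fun i => f i ∉ R).filter fun i => π (f i) = x ∨ π (f i) = -x := ⟨_, rfl⟩
  rw [← hC] at hx
  have hCm : ∀ k ∈ C, k ∈ s.filter (fun i => f i ∉ R) ∧ (π (f k) = x ∨ π (f k) = -x) := by
    intro k hk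
    rw [hC] at hk
    exact mem_filter.1 hk
  obtain ⟨a, ha⟩ : C.Nonempty := by
    rw [← card_pos]
    omega
  obtain ⟨b, hb, hba, hba'⟩ : ∃ b ∈ C, f b ≠ f a ∧ f b ≠ - f a := by
    by_contra hcon
    push Not at hcon
    have h1 : C ⊆ s.filter fun i => f i = f a ∨ f i = - f a := by
      intro k hk
      refine mem_filter.2 ⟨(mem_filter.1 (hCm k hk).1).1, ?_⟩
      by_cases h2 : f k = f a
      · exact Or.inl h2
      · exact Or.inr (hcon k hk h2)
    have h2 := (card_le_card h1).trans (hcap (f a))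
    omega
  have hab : a ≠ b := fun h => hba (by rw [h])
  obtain ⟨c, hc⟩ : ((C.erase a).erase b).Nonempty := by
    rw [← card_pos, card_erase_of_mem (mem_erase.2 ⟨fun h => hab h.symm, hb⟩), card_erase_of_mem ha]
    omega
  obtain ⟨hcb, hc2⟩ := mem_erase.1 hc
  obtain ⟨hca, hcC⟩ := mem_erase.1 hc2
  refine ⟨a, (hCm a ha).1, b, (hCm b hb).1, hab, ?_, c, (hCm c hcC).1, hca, hcb, ?_⟩
  · have h1 : π (f a) = π (f b) ∨ π (f a) = - π (f b) := by
      rcases (hCm a ha).2 with h3 | h3 <;> rcases (hCm b hb).2 with h4 | h4 <;> rw [h3, h4]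
      · exact Or.inl rfl
      · exact Or.inr (by rw [neg_neg])
      · exact Or.inr rfl
      · exact Or.inl rfl
    rcases h1 with h1 | h1
    · left
      refine ⟨?_, fun h => hba h.symm⟩
      rw [← hk, map_sub, h1, sub_self]
    · right
      refine ⟨?_, fun h => hba' ?_⟩
      · rw [← hk, map_add, h1, neg_add_cancel]
      · rw [h, neg_neg]
  · rcases (hCm b hb).2 with h3 | h3 <;> rcases (hCm c hcC).2 with h4 | h4 <;> rw [h3, h4]
    · exact Or.inl rfl
    · exact Or.inr (by rw [neg_neg])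
    · exact Or.inr rfl
    · exact Or.inl rfl

/-- removing two members of a class with a third member -/
theorem gen_pair (s : Finset ι) (f : ι → G) (hge : ∀ i ∈ s, gen (s.erase i) f = ⊤) (i i' c : ι)
    (hi : i ∈ s) (hi' : i' ∈ s) (hii : i ≠ i') (hc : c ∈ s) (hci : c ≠ i) (hci' : c ≠ i')
    (h : f i' = f c ∨ f i' = - f c) : gen ((s.erase i).erase i') f = ⊤ := by
  rw [← hge i hi]
  refine (all_Ba1 G ι f).2.2.2.2.2.1 _ i' (mem_erase.2 ⟨hii.symm, hi'⟩) ?_
  have h1 : f c ∈ gen ((s.erase i).erase i') f :=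
    P1_mem_gen (mem_erase.2 ⟨hci', mem_erase.2 ⟨hci, hc⟩⟩)
  rcases h with h | h
  · rw [h]
    exact h1
  · rw [h]
    exact AddSubgroup.neg_mem _ h1

/-- a subgroup `R` with `rank (G / R) + 2 ≤ rank G` is not cyclic -/
theorem noncyc_of_crk (R : AddSubgroup G) (h : crk R + 2 ≤ crk (⊥ : AddSubgroup G)) :
    ¬ IsAddCyclic R := by
  intro hc
  obtain ⟨g, hg⟩ := hc.exists_zsmul_surjective
  have h1 : (⊥ : AddSubgroup G) ⊔ AddSubgroup.zmultiples (g : G) = R := by
    rw [bot_sup_eq]
    apply le_antisymm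
    · rw [AddSubgroup.zmultiples_le]
      exact g.2
    · intro x hx
      obtain ⟨k, hk⟩ := hg ⟨x, hx⟩
      rw [AddSubgroup.mem_zmultiples_iff]
      exact ⟨k, by simpa using congrArg Subtype.val hk⟩
  have h2 := crk_sup_le (⊥ : AddSubgroup G) (g : G)
  rw [h1] at h2
  omega

/-- the members in a candidate generate a smaller group -/
theorem Cd_two {H : Type} [AddCommGroup H] [Finite H] {s : Finset ι} {f : ι → G}
    {P : AddSubgroup G} {π : G →+ H} (hk : ∀ x, π x = 0 ↔ x ∈ P)
    (hC : Cd s f P) (h0 : ∀ i ∈ s, f i ≠ 0) (hA : Aper (FS s f))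
    (hne : gen (s.filter fun i => f i ∈ P) f ≠ P) :
    2 * ((FS (s.filter fun i => f i ∉ P) (fun i => π (f i))).card *
      (FS (s.filter fun i => f i ∈ P) f).card) ≤ (FS s f).card := by
  obtain ⟨j, hj⟩ : ∃ j, ∀ k ∈ s, lam (FS s f) (f k) ≤ j :=
    ⟨∑ k ∈ s, lam (FS s f) (f k), fun k hk =>
      single_le_sum (f := fun k => lam (FS s f) (f k)) (fun _ _ => Nat.zero_le _) hk⟩
  have hfil : (s.filter fun i => f i ∈ gen (s.filter fun i => f i ∈ P) f) =
      s.filter fun i => f i ∈ P := P1_filter s f P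
  have hLgen : gen (s.filter fun i => f i ∈ gen (s.filter fun i => f i ∈ P) f) f =
      gen (s.filter fun i => f i ∈ P) f := by rw [hfil]
  have hLP : gen (s.filter fun i => f i ∈ P) f ≤ P := P1_gen_le s f P
  obtain ⟨hP1, hP2⟩ := all_Pc G ι s f (gen (s.filter fun i => f i ∈ P) f) j h0 hA hLgen
    (fun i hi _ => hj i hi)
  rw [hfil, ← Cd_st hC, ← q_card s f hk] at hP2
  have hdvd : Nat.card (gen (s.filter fun i => f i ∈ P) f) ∣ Nat.card P :=
    AddSubgroup.card_dvd_of_le hLP
  have hne2 : Nat.card (gen (s.filter fun i => f i ∈ P) f) ≠ Nat.card P := by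
    intro h
    apply hne
    apply SetLike.coe_injective
    exact Set.eq_of_subset_of_ncard_le (fun x hx => hLP hx) h.ge (Set.toFinite _)
  obtain ⟨c, hc⟩ := hdvd
  obtain ⟨l, hl⟩ : ∃ l, l = Nat.card (gen (s.filter fun i => f i ∈ P) f) := ⟨_, rfl⟩
  have hPpos : 0 < Nat.card P := Nat.card_pos
  rw [← hl] at hc hne2 hP2
  have hc2 : 2 ≤ c := by
    rcases Nat.lt_or_ge c 2 with h | h
    · exfalso
      interval_cases c
      · omega
      · apply hne2
        rw [hc, mul_one]
    · exact h
  have hl0 : 0 < l := by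
    rcases Nat.eq_zero_or_pos l with h | h
    · rw [h, zero_mul] at hc
      omega
    · exact h
  refine Nat.le_of_mul_le_mul_left ?_ hl0
  obtain ⟨Z, hZ⟩ : ∃ Z, Z = (FS (s.filter fun i => f i ∉ P) (fun i => π (f i))).card *
      (FS (s.filter fun i => f i ∈ P) f).card := ⟨_, rfl⟩
  rw [← hZ]
  rw [mul_assoc, ← hZ, hc] at hP2
  calc l * (2 * Z) = l * 2 * Z := by ring
    _ ≤ l * c * Z := Nat.mul_le_mul_right _ (Nat.mul_le_mul_left _ hc2)
    _ ≤ _ := hP2

end

/-! ### the theorem -/

theorem thm_NDwSt (hLB : St_LB) (hND2 : St_ND2) (hWA : St_WA) (hWA2 : St_WA2) (hWB : St_WB) (hWC : St_WC)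
    (hWP : St_WPair) (hWR : St_WRow) (t : ℕ) : NDwSt t := by
  induction t using Nat.strong_induction_on with
  | _ t ih =>
  intro m G ι _ _ s f hm hs hrk h0 hcap hA hg hge hG
  rcases Nat.lt_or_ge m 3 with hm2 | hm3
  · obtain rfl : m = 2 := by omega
    have h1 := hND2 G ι s f hrk h0 hcap hA hg hge hG
    rw [hs] at h1
    rw [Nat.sub_self, pow_zero, one_mul, Nat.add_sub_cancel]
    exact h1
  obtain ⟨M, rfl⟩ : ∃ M, m = M + 3 := ⟨m - 3, by omega⟩
  have e1 : M + 3 - 2 = M + 1 := by omega
  rw [e1]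
  have hbt : (⊥ : AddSubgroup G) ≠ ⊤ := by
    intro h
    rw [h, crk_top] at hrk
    omega
  have hcard : ∀ i ∈ s, (s.erase i).card = t - 1 := by
    intro i hi
    rw [card_erase_of_mem hi, hs]
  have hAe : ∀ i, Aper (FS (s.erase i) f) := fun i =>
    (all_Ba1 G ι f).2.1 s (s.erase i) (erase_subset _ _) hA
  have h0e : ∀ i, ∀ k ∈ s.erase i, f k ≠ 0 := fun i k hk => h0 k (erase_subset _ _ hk)
  have hce : ∀ i, Cap 2 (s.erase i) f := fun i => cap_erase 2 s _ f (erase_subset _ _) hcap
  have hmono : ∀ i, (FS (s.erase i) f).card ≤ (FS s f).card := fun i =>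
    card_le_card (FS_mono (erase_subset _ _) f)
  by_contra hcon
  push Not at hcon
  have hte : crk (⊥ : AddSubgroup G) + 1 ≤ t := by
    have h3 := crk_nodrop hbt hge hg
    have h4 : (s.filter fun i => f i ∉ (⊥ : AddSubgroup G)).card ≤ t := by
      rw [← hs]
      exact card_filter_le _ _
    omega
  obtain ⟨p, hp⟩ : ∃ p, p = 2 ^ M := ⟨_, rfl⟩
  have hp0 : 1 ≤ p := hp ▸ Nat.one_le_two_pow
  have p1 : 2 ^ (M + 1) = 2 * p := by rw [hp]; ring
  have p2 : 2 ^ (M + 2) = 4 * p := by rw [hp]; ring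
  obtain ⟨X, hX⟩ : ∃ X, X = (FS s f).card := ⟨_, rfl⟩
  obtain ⟨τ, hτ⟩ : ∃ τ, τ = t + 2 - (M + 3) := ⟨_, rfl⟩
  rw [← hX, p1, ← hτ] at hcon
  -- the bound for a member less
  have hlow : ∀ z ∈ s, 2 * p * U (τ - 1) ≤ (FS (s.erase z) f).card := by
    intro z hz
    have hGz := GR_mono (le_refl (M + 3)) (hmono z) hG
    rcases nd_tri s f hge z hz with h1 | ⟨w, hw, hd, h1⟩
    · have h2 := ih (t - 1) (by omega) (M + 3) G ι (s.erase z) f hm (hcard z hz) hrk (h0e z) (hce z) (hAe z)
        (hge z hz) h1 hGz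
      rw [e1, p1] at h2
      have e2 : t - 1 + 2 - (M + 3) = τ - 1 := by omega
      rwa [e2] at h2
    · have hc2 : ((s.erase z).erase w).card = t - 2 := by
        rw [card_erase_of_mem hw, hcard z hz]
        omega
      have hsub2 : (s.erase z).erase w ⊆ s := (erase_subset _ _).trans (erase_subset _ _)
      have hA2 : Aper (FS ((s.erase z).erase w) f) := (all_Ba1 G ι f).2.1 _ _ hsub2 hA
      have h02 : ∀ k ∈ (s.erase z).erase w, f k ≠ 0 := fun k hk => h0 k (hsub2 hk)
      have hcap2 : Cap 2 ((s.erase z).erase w) f := cap_erase 2 s _ f hsub2 hcap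
      rcases h1 with h1 | h1
      · exfalso
        obtain ⟨H, _, _, φ, f1, hφ, hr', hf1, hc, hg1⟩ := res ((s.erase z).erase w) f _ rfl
        have hz : φ.range ⊔ AddSubgroup.zmultiples (f w) = ⊤ := by
          rw [eq_top_iff, ← hge z hz, hr']
          conv_lhs => unfold gen
          rw [AddSubgroup.closure_le]
          rintro _ ⟨k, hk, rfl⟩
          by_cases hkw : k = w
          · subst hkw
            exact AddSubgroup.mem_sup_right (AddSubgroup.mem_zmultiples _)
          · exact AddSubgroup.mem_sup_left (P1_mem_gen (mem_erase.2 ⟨hkw, mem_coe.1 hk⟩))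
        have hrk' : crk (⊥ : AddSubgroup G) ≤ crk (⊥ : AddSubgroup H) + 1 := by
          have h3 := crk_sub φ (f w) hz ⊥
          rwa [AddSubgroup.map_bot] at h3
        have h3 := thm_V hLB (t - 2) (fun t' ht' => ih t' (by omega)) (M + 2) H ι ((s.erase z).erase w) f1
          (by omega) hc2 (by omega) (ne_res φ _ f f1 hf1 h02) (cap_restr φ 2 _ f f1 hf1 hcap2)
          (aper_res φ hφ _ f f1 hf1 hA2) hg1 (by
            intro L hL
            rw [hc]
            have h4 := crk_sub φ (f w) hz L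
            have h5 := hG (L.map φ) bot_le (by omega)
            have h6 : Nat.card (L.map φ) = Nat.card L := AddSubgroup.card_map_of_injective hφ
            rw [h6] at h5
            have h7 : Nat.card L * 2 ^ crk (L.map φ) ≤ 2 * (Nat.card L * 2 ^ crk L) := by
              calc Nat.card L * 2 ^ crk (L.map φ) ≤ Nat.card L * 2 ^ (crk L + 1) :=
                    Nat.mul_le_mul_left _ (Nat.pow_le_pow_right (by norm_num) h4)
                _ = 2 * (Nat.card L * 2 ^ crk L) := by ring
            omega)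
        have e4 : M + 2 - 1 = M + 1 := by omega
        have e5 : t - 2 + 3 - (M + 2) = τ := by omega
        rw [hc, e4, p1, e5] at h3
        omega
      · obtain ⟨H, _, _, φ, f1, hφ, hf1, hc, hg1, hG1, hr1⟩ :=
          GR_two (s.erase z) f w hw (hge z hz) hd h1 (M + 3) hGz
        have h3 := Pool.Agent.SNA.thm_A3 (M + 3) (by omega) H ι ((s.erase z).erase w) f1
          (ne_res φ _ f f1 hf1 h02) (cap_restr φ 2 _ f f1 hf1 hcap2) (aper_res φ hφ _ f f1 hf1 hA2) hg1 (by
            rw [hc]
            exact hG1)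
        have e2 : t - 2 + 1 - (M + 3) = τ - 3 := by omega
        rw [hc, hc2, Nat.add_sub_cancel, e2, ← hp] at h3
        have h4 : (FS (s.erase z) f).card = 2 * (FS ((s.erase z).erase w) f).card :=
          (all_Ba1 G ι f).2.2.2.1 _ w hw hd
        rw [h4]
        have h5 := PQ_U τ (by omega)
        calc 2 * p * U (τ - 1) ≤ 2 * p * Pool.Agent.SNA.PQ 0 (τ - 3) := Nat.mul_le_mul_left _ h5
          _ = 2 * (p * Pool.Agent.SNA.PQ 0 (τ - 3)) := by ring
          _ ≤ _ := Nat.mul_le_mul_left _ h3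
  obtain ⟨i1, hi1⟩ : s.Nonempty := by
    rw [← card_pos]
    omega
  have hlX : 2 * p * U (τ - 1) ≤ X := by
    rw [hX]
    exact (hlow i1 hi1).trans (hmono i1)
  obtain ⟨j, hjd⟩ : ∃ j, j = X - 2 * p * U (τ - 1) := ⟨_, rfl⟩
  have hj : ∀ k ∈ s, lam (FS s f) (f k) ≤ j := by
    intro k hk
    have h3 := (all_Ba1 G ι f).2.2.1 s k hk
    have h4 := hlow k hk
    rw [← hX] at h3
    omega
  have hjX : j + 2 * p * U (τ - 1) ≤ X := by omega
  obtain ⟨R, H', _, _, π, hπs, hπk, hRt, hC, q0, qA, qg, qG, hmR, hRr, d2, d3, d4, d6, d7, hek,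
    hcr, hlw, hD⟩ := setup2 h0 hA hg hge hbt (M + 2) _ (by omega) hj hG
  have qnd := q_nodrop s f hπs hπk hge
  have hsubR : (s.filter fun i => f i ∈ R) ⊆ s := filter_subset _ _
  have h0R : ∀ i ∈ s.filter (fun i => f i ∈ R), f i ≠ 0 := fun i hi => h0 i (hsubR hi)
  have hARR : Aper (FS (s.filter fun i => f i ∈ R) f) := (all_Ba1 G ι f).2.1 _ _ hsubR hA
  have hcapR : Cap 2 (s.filter fun i => f i ∈ R) f := cap_erase 2 s _ f hsubR hcap
  have hYc := Pool.Agent.SSX.PAG_all G ι _ f h0R hcapR hARR
  -- two members in a class of the quotient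
  have hN2 : ∀ i i' c : ι, i ∈ s.filter (fun i => f i ∉ R) → i' ∈ s.filter (fun i => f i ∉ R) → i ≠ i' →
      c ∈ s.filter (fun i => f i ∉ R) → c ≠ i → c ≠ i' → (π (f i') = π (f c) ∨ π (f i') = - π (f c)) →
      (∀ k ∈ ((s.filter fun i => f i ∉ R).erase i).erase i', π (f k) ≠ 0) ∧
      Aper (FS (((s.filter fun i => f i ∉ R).erase i).erase i') (fun i => π (f i))) ∧
      gen (((s.filter fun i => f i ∉ R).erase i).erase i') (fun i => π (f i)) = ⊤ ∧
      GR (M + 2) (⊥ : AddSubgroup H')
        (FS (((s.filter fun i => f i ∉ R).erase i).erase i') (fun i => π (f i))).card ∧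
      (((s.filter fun i => f i ∉ R).erase i).erase i').card + 2 = (s.filter fun i => f i ∉ R).card := by
    intro i i' c hi hi' hii hc hci hci' hcc
    have hsub3 : ((s.filter fun i => f i ∉ R).erase i).erase i' ⊆ s.filter fun i => f i ∉ R :=
      (erase_subset _ _).trans (erase_subset _ _)
    refine ⟨fun k hk => q0 k (hsub3 hk), (all_Ba1 H' ι _).2.1 _ _ hsub3 qA, ?_, ?_, ?_⟩
    · exact gen_pair _ (fun i => π (f i)) qnd i i' c hi hi' hii hc hci hci' hcc
    · exact GR_mono le_rfl (card_le_card (FS_mono hsub3 _)) qG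
    · rw [card_erase_of_mem (mem_erase.2 ⟨hii.symm, hi'⟩), card_erase_of_mem hi]
      have h1 : 2 ≤ (s.filter fun i => f i ∉ R).card := by
        have h2 : ({i, i'} : Finset ι).card ≤ (s.filter fun i => f i ∉ R).card := by
          apply card_le_card
          intro k hk
          rcases mem_insert.1 hk with rfl | hk
          · exact hi
          · rw [mem_singleton.1 hk]
            exact hi'
        rwa [card_pair hii] at h2
      omega
  -- numbers
  obtain ⟨e, he⟩ : ∃ e, e = (s.filter fun i => f i ∉ R).card := ⟨_, rfl⟩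
  obtain ⟨k, hk⟩ : ∃ k, k = (s.filter fun i => f i ∈ R).card := ⟨_, rfl⟩
  obtain ⟨y, hy⟩ : ∃ y, y = Nat.card R := ⟨_, rfl⟩
  obtain ⟨Y, hY⟩ : ∃ Y, Y = (FS (s.filter fun i => f i ∈ R) f).card := ⟨_, rfl⟩
  obtain ⟨N, hN⟩ : ∃ N, N = (FS (s.filter fun i => f i ∉ R) (fun i => π (f i))).card := ⟨_, rfl⟩
  rw [← hN, ← hy, ← hY, ← hX] at d2
  rw [← hN, ← hY, ← hX] at d3
  rw [← hk, ← hY] at d4
  rw [← hk] at d6
  rw [← hY, ← hy] at d7
  rw [← he, ← hk, hs] at hek
  rw [← he] at hcr
  rw [← hy, ← hX, p2] at hlw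
  rw [← hk, ← hY] at hYc
  rw [← hX, ← hy, ← hY] at hD
  obtain ⟨E, hE⟩ : ∃ E, E = e - (M + 1) := ⟨_, rfl⟩
  have hEk : E + k = τ := by omega
  have hτ4 : 4 ≤ τ := by omega
  have hcls : ¬ Cap 2 (s.filter fun i => f i ∉ R) (fun i => π (f i)) → ∃ x : H',
      3 ≤ ((s.filter fun i => f i ∉ R).filter fun i => π (f i) = x ∨ π (f i) = -x).card := by
    intro h
    by_contra hcon2
    push Not at hcon2
    apply h
    intro x
    have := hcon2 x
    have h5 : ((s.filter fun i => f i ∉ R).filter fun i => (fun i => π (f i)) i = x ∨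
      (fun i => π (f i)) i = -x).card ≤ 2 := by
      show ((s.filter fun i => f i ∉ R).filter fun i => π (f i) = x ∨ π (f i) = -x).card ≤ 2
      omega
    exact h5
  rcases Nat.lt_or_ge (crk R) (M + 3) with hR1 | hR1
  · have hXy := hlw (by omega)
    have hXy' : X < 4 * p * y := by
      calc X < y * (4 * p) := hXy
        _ = 4 * p * y := by ring
    -- the quotient without drop
    have hN3 : 3 * p * E ≤ N := by
      have h3 := thm_NDIm (M + 2) (by omega) H' ι _ _ q0 qA qg qnd qG
      have e3 : M + 2 - 2 = M := by omega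
      have e4 : e + 1 - (M + 2) = E := by omega
      rw [← he, ← hN, e3, ← hp, e4] at h3
      exact h3
    by_cases hLR : gen (s.filter fun i => f i ∈ R) f = R
    · have hnc := noncyc_of_crk R (by omega)
      have hk2 : 2 ≤ k := by
        by_contra hcon2
        have hk1 : (s.filter fun i => f i ∈ R).card = 1 := by omega
        obtain ⟨i0, hi0⟩ := card_eq_one.1 hk1
        apply hnc
        have h5 : R = AddSubgroup.zmultiples (f i0) := by
          rw [← hLR, hi0]
          unfold gen
          rw [AddSubgroup.zmultiples_eq_closure]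
          simp
        rw [h5]
        infer_instance
      have hY3 : 3 * Y + 1 ≤ 2 * y := by
        have h5 : 6 * p ≤ N := by
          calc 6 * p = 3 * p * 2 := by ring
            _ ≤ 3 * p * E := Nat.mul_le_mul_left _ (by omega)
            _ ≤ N := hN3
        have h6 : 6 * p * Y ≤ N * Y := Nat.mul_le_mul_right _ h5
        have h7 : 2 * p * (3 * Y) < 2 * p * (2 * y) := by
          calc 2 * p * (3 * Y) = 6 * p * Y := by ring
            _ ≤ N * Y := h6
            _ ≤ X := d3
            _ < 4 * p * y := hXy'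
            _ = 2 * p * (2 * y) := by ring
        exact Nat.lt_of_mul_lt_mul_left h7
      have hLs := thm_LBs hLB G ι _ f R hnc h0R hcapR hARR hLR (by
        rw [← hY, ← hy]
        exact hY3)
      rw [← hk, ← hY] at hLs
      by_cases h72 : τ = 7 ∧ k = 2
      · obtain ⟨hτ7, hk2'⟩ := h72
        have hE5 : E = 5 := by omega
        have hY4 : 4 ≤ Y := by
          rw [hk2'] at hLs
          have h5 : U (2 + 2) = 12 := by
            unfold U
            norm_num
          omega
        have hU7 : U 7 = 32 := by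
          unfold U
          norm_num
        rw [hτ7, hU7] at hcon
        by_cases hc2 : Cap 2 (s.filter fun i => f i ∉ R) (fun i => π (f i))
        · have h19 : 19 * p ≤ N := by
            rcases Nat.eq_zero_or_pos M with hM0 | hM0
            · subst hM0
              have h5 := Pool.Agent.SNA.thm_A2 H' ι _ _ q0 hc2 qA qg qG
              have h6 : (s.filter fun i => f i ∉ R).card = 6 := by omega
              rw [h6, ← hN] at h5
              have h7 : pn 6 = 19 := by
                unfold pn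
                simp
              rw [pow_zero] at hp
              omega
            · obtain ⟨M', rfl⟩ : ∃ M', M = M' + 1 := ⟨M - 1, by omega⟩
              have h5 := Pool.Agent.SNA.thm_A3 (M' + 1 + 2) (by omega) H' ι _ _ q0 hc2 qA qg qG
              have e5 : M' + 1 + 2 - 3 = M' := by omega
              have e6 : e + 1 - (M' + 1 + 2) = 5 := by omega
              rw [← he, ← hN, e5, e6] at h5
              have h7 : Pool.Agent.SNA.PQ 0 5 = 38 := by
                unfold Pool.Agent.SNA.PQ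
                simp
              have h8 : p = 2 * 2 ^ M' := by rw [hp]; ring
              rw [h7] at h5
              omega
          have h5 : 19 * p * 4 ≤ N * Y := Nat.mul_le_mul h19 hY4
          omega
        · obtain ⟨x, hx⟩ := hcls hc2
          obtain ⟨i, hi, i', hi', hii, hdiff, c, hc, hci, hci', hcc⟩ :=
            two_lifts s f R π hπk hcap x hx
          obtain ⟨n0, nA, ng, nG, nc⟩ := hN2 i i' c hi hi' hii hc hci hci' hcc
          have h5 := hWP G ι s f R H' π hπs hπk hA i (mem_filter.1 hi).1 i' (mem_filter.1 hi').1 hii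
            (mem_filter.1 hi).2 (mem_filter.1 hi').2 hdiff
          rw [← hN, ← hY, ← hX] at h5
          have h6 := thm_SIm (M + 2) (by omega) H' ι _ _ n0 nA ng nG
          have e7 : M + 2 - 1 = M + 1 := by omega
          rw [e7, p1] at h6
          have h7 : 2 * p * 4 ≤ 2 * p *
              ((((s.filter fun i => f i ∉ R).erase i).erase i').card + 2 - (M + 2)) :=
            Nat.mul_le_mul_left _ (by omega)
          have h8 : 15 * p * 4 ≤ N * Y := Nat.mul_le_mul (by
            rw [hE5] at hN3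
            omega) hY4
          omega
      · exact hWA p E k τ N X Y y j hp0 (by omega) hk2 hEk h72 hYc hLs d7 hXy' hN3 d3 hcon d2 hjX
    · have h5 := Cd_two hπk hC h0 hA hLR
      rw [← hN, ← hY, ← hX] at h5
      exact hWA2 p E k τ N X Y y j hp0 (by omega) d6 hEk hτ4 hYc d4 d7 hXy' hN3 h5 hcon d2 hjX
  · have hE3 : 3 ≤ E := by omega
    by_cases hc2 : Cap 2 (s.filter fun i => f i ∉ R) (fun i => π (f i))
    · have h5 := ih e (by omega) (M + 2) H' ι _ _ (by omega) he.symm (by omega) q0 hc2 qA qg qnd qG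
      have e5 : M + 2 - 2 = M := by omega
      have e6 : e + 2 - (M + 2) = E + 1 := by omega
      rw [e5, ← hp, e6, ← hN] at h5
      have h6 := hWB E k Y hE3 d6 hYc d4
      rw [hEk] at h6
      have h7 : p * (2 * U τ) ≤ p * (U (E + 1) * Y) := Nat.mul_le_mul_left _ h6
      have h8 : p * U (E + 1) * Y ≤ N * Y := Nat.mul_le_mul_right _ h5
      have h9 : p * (2 * U τ) = 2 * p * U τ := by ring
      have h10 : p * (U (E + 1) * Y) = p * U (E + 1) * Y := by ring
      omega
    · obtain ⟨x, hx⟩ := hcls hc2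
      obtain ⟨i, hi, i', hi', hii, hdiff, c, hc, hci, hci', hcc⟩ :=
        two_lifts s f R π hπk hcap x hx
      obtain ⟨n0, nA, ng, nG, nc⟩ := hN2 i i' c hi hi' hii hc hci hci' hcc
      have hr3 := rank_three _ (fun i => π (f i)) qg qnd (by omega) x hx
      rw [← he] at hr3
      have hE5 : 5 ≤ E := by omega
      have hL1 : p * (4 * E - 2) ≤ N := by
        have h5 := thm_LINm (M + 3) (by omega) H' ι _ _ q0 qA qg (by omega) qG
        have e5 : M + 3 - 1 = M + 2 := by omega
        have e6 : 2 * e + 3 - 2 * (M + 3) = 2 * E - 1 := by omega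
        rw [← he, ← hN, e5, p2, e6] at h5
        have h6 : 4 * p * (2 * E - 1) = 2 * (p * (4 * E - 2)) := by
          have : 4 * E - 2 = 2 * (2 * E - 1) := by omega
          rw [this]
          ring
        omega
      have hL2 : p * (4 * E - 10) ≤ (FS (((s.filter fun i => f i ∉ R).erase i).erase i')
          (fun i => π (f i))).card := by
        have h5 := thm_LINm (M + 3) (by omega) H' ι _ _ n0 nA ng (by omega) nG
        have e5 : M + 3 - 1 = M + 2 := by omega
        have e6 : 2 * (((s.filter fun i => f i ∉ R).erase i).erase i').card + 3 - 2 * (M + 3) =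
            2 * E - 5 := by omega
        rw [e5, p2, e6] at h5
        have h6 : 4 * p * (2 * E - 5) = 2 * (p * (4 * E - 10)) := by
          have : 4 * E - 10 = 2 * (2 * E - 5) := by omega
          rw [this]
          ring
        omega
      -- a member of the class
      obtain ⟨a, ha⟩ : ((s.filter fun i => f i ∉ R).filter
          fun i => π (f i) = x ∨ π (f i) = -x).Nonempty := by
        rw [← card_pos]
        omega
      obtain ⟨ha1, ha2⟩ := mem_filter.1 ha
      obtain ⟨μ, Z, hZ1, hZ2, hZ3⟩ := hD a ha1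
      have hZ4 : 4 ≤ Z := by
        have h5 : ((s.filter fun i => f i ∉ R).filter fun i => π (f i) = x ∨ π (f i) = -x) ⊆
            (s.filter fun i => f i ∉ R).filter fun k => π (f k) ∈ AddSubgroup.zmultiples (π (f a)) := by
          intro k hk
          obtain ⟨hk1, hk2⟩ := mem_filter.1 hk
          refine mem_filter.2 ⟨hk1, ?_⟩
          have hx2 : x ∈ AddSubgroup.zmultiples (π (f a)) := by
            rcases ha2 with h6 | h6
            · rw [h6]
              exact AddSubgroup.mem_zmultiples _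
            · rw [h6, AddSubgroup.zmultiples_neg]
              exact AddSubgroup.mem_zmultiples _
          rcases hk2 with h6 | h6
          · rw [h6]
            exact hx2
          · rw [h6]
            exact AddSubgroup.neg_mem _ hx2
        have h6 := card_le_card h5
        omega
      obtain ⟨hτ7, hk12⟩ := hWC p E k τ N X Y y j μ Z hp0 hE5 d6 hEk hYc d4 d7 hL1 d3 hcon d2 hjX hZ4 hZ2 hZ3
      have hU7 : U 7 = 32 := by
        unfold U
        norm_num
      have hU6 : U 6 = 24 := by
        unfold U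
        norm_num
      rw [hτ7, hU7] at hcon
      have e7 : τ - 1 = 6 := by omega
      rw [e7, hU6] at hjX
      rcases hk12 with hk2 | ⟨hk1, hy4⟩
      · have h5 := hWP G ι s f R H' π hπs hπk hA i (mem_filter.1 hi).1 i' (mem_filter.1 hi').1 hii
          (mem_filter.1 hi).2 (mem_filter.1 hi').2 hdiff
        rw [← hN, ← hY, ← hX] at h5
        have hE : E = 5 := by omega
        rw [hE] at hL1 hL2
        have h6 : p * (4 * 5 - 2) * 3 ≤ N * Y := Nat.mul_le_mul hL1 (by omega)
        omega
      · have hE : E = 6 := by omega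
        rw [hE] at hL1 hL2
        by_cases hLR : gen (s.filter fun i => f i ∈ R) f = R
        · have hk1' : (s.filter fun i => f i ∈ R).card = 1 := by omega
          obtain ⟨i0, hi0⟩ := card_eq_one.1 hk1'
          have h5 : R = AddSubgroup.zmultiples (f i0) := by
            rw [← hLR, hi0]
            unfold gen
            rw [AddSubgroup.zmultiples_eq_closure]
            simp
          have hi0s : i0 ∈ s := by
            have : i0 ∈ s.filter fun i => f i ∈ R := by
              rw [hi0]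
              exact mem_singleton_self i0
            exact (mem_filter.1 this).1
          have h6 := hWR G ι s f R H' π hπs hπk hA i0 hi0s h5 hi0 (by omega) i (mem_filter.1 hi).1 i'
            (mem_filter.1 hi').1 hii (mem_filter.1 hi).2 (mem_filter.1 hi').2 hdiff j (hj i0 hi0s)
          rw [← hN, ← hy, ← hX] at h6
          have h7 : 1 * (N - j) ≤ (y - 3) * (N - j) := Nat.mul_le_mul_right _ (by omega)
          omega
        · have h5 := Cd_two hπk hC h0 hA hLR
          rw [← hN, ← hY, ← hX] at h5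
          have h6 : p * (4 * 6 - 2) * 2 ≤ N * Y := Nat.mul_le_mul hL1 (by omega)
          omega

/-- **cap 2, no drop, rank larger than the level** -/
theorem thm_NDw (hLB : St_LB) (hND2 : St_ND2) (hWA : St_WA) (hWA2 : St_WA2) (hWB : St_WB) (hWC : St_WC)
    (hWP : St_WPair) (hWR : St_WRow) : St_NDw := by
  intro m G ι _ _ s f hm hr h0 hc hA hg hge hG
  exact thm_NDwSt hLB hND2 hWA hWA2 hWB hWC hWP hWR s.card m G ι s f hm rfl hr h0 hc hA hg hge hG

end Pool.Agent.SNR
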