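import Pool.Agent.SNR.Gm

/-!
# SNR, module Z2 (helper48): a member outside the group of the others, whose double lies in it

`idx2`: in a subgroup of index two either the rank does not increase or a subgroup of twice the order has the
same rank. `GR_two`: the level is kept by the restriction to a subgroup of index two.
-/

set_option autoImplicit false

noncomputable section

open Finset Pool.Agent.Helper64.Rho
open scoped Classical Pointwise

namespace Pool.Agent.SNR

open Pool.Agent.SDG Pool.Agent.SNW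

/-- every element is twice an element plus a sum of different generators -/
theorem par_cl {H : Type} [AddCommGroup H] (S : Finset H) (y : H)
    (hy : y ∈ AddSubgroup.closure (S : Set H)) :
    ∃ (h : H) (S' : Finset H), S' ⊆ S ∧ y = h + h + ∑ s ∈ S', s := by
  induction hy using AddSubgroup.closure_induction with
  | mem x hx =>
    exact ⟨0, {x}, singleton_subset_iff.2 (mem_coe.1 hx), by simp⟩
  | zero => exact ⟨0, ∅, empty_subset _, by simp⟩
  | add x y _ _ hx hy =>
    obtain ⟨h1, S1, hS1, rfl⟩ := hx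
    obtain ⟨h2, S2, hS2, rfl⟩ := hy
    refine ⟨h1 + h2 + ∑ s ∈ S1 ∩ S2, s, (S1 ∪ S2) \ (S1 ∩ S2), ?_, ?_⟩
    · exact sdiff_subset.trans (union_subset hS1 hS2)
    · have e1 : ∑ s ∈ S1 ∪ S2, s + ∑ s ∈ S1 ∩ S2, s = ∑ s ∈ S1, s + ∑ s ∈ S2, s :=
        sum_union_inter
      have e2 : ∑ s ∈ (S1 ∪ S2) \ (S1 ∩ S2), s + ∑ s ∈ S1 ∩ S2, s = ∑ s ∈ S1 ∪ S2, s :=
        sum_sdiff (inter_subset_left.trans subset_union_left)
      have e3 : h1 + h1 + ∑ s ∈ S1, s + (h2 + h2 + ∑ s ∈ S2, s) =
          h1 + h1 + (h2 + h2) + (∑ s ∈ S1, s + ∑ s ∈ S2, s) := by abel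
      rw [e3, ← e1, ← e2]
      abel
  | neg x _ hx =>
    obtain ⟨h1, S1, hS1, rfl⟩ := hx
    exact ⟨- h1 - ∑ s ∈ S1, s, S1, hS1, by abel⟩

section
variable {G : Type} [AddCommGroup G] [Finite G]

/-- at most twice the order -/
theorem card_sup_two (M : AddSubgroup G) (z : G) (h2 : z + z ∈ M) :
    Nat.card (M ⊔ AddSubgroup.zmultiples z : AddSubgroup G) ≤ 2 * Nat.card M := by
  have h1 : ((M ⊔ AddSubgroup.zmultiples z : AddSubgroup G) : Set G) ⊆
      (M : Set G) ∪ (fun x => x + z) '' (M : Set G) := by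
    intro b hb
    obtain ⟨m, hm, c, hc, rfl⟩ := AddSubgroup.mem_sup.1 (SetLike.mem_coe.1 hb)
    obtain ⟨n, rfl⟩ := AddSubgroup.mem_zmultiples_iff.1 hc
    rcases Int.even_or_odd' n with ⟨k, rfl | rfl⟩
    · left
      have e1 : (2 * k) • z = k • (z + z) := by rw [mul_comm, mul_smul, two_zsmul]
      rw [e1]
      exact M.add_mem hm (M.zsmul_mem h2 k)
    · right
      have e1 : (2 * k + 1) • z = k • (z + z) + z := by
        rw [add_smul, one_smul, mul_comm, mul_smul, two_zsmul]
      refine ⟨m + k • (z + z), M.add_mem hm (M.zsmul_mem h2 k), ?_⟩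
      show m + k • (z + z) + z = m + (2 * k + 1) • z
      rw [e1]
      abel
  have h3 := Set.ncard_le_ncard h1 (Set.toFinite _)
  have h4 := Set.ncard_union_le (M : Set G) ((fun x => x + z) '' (M : Set G))
  have h5 : ((fun x => x + z) '' (M : Set G)).ncard ≤ (M : Set G).ncard :=
    Set.ncard_image_le (Set.toFinite _)
  have h6 : (M : Set G).ncard = Nat.card M := rfl
  have h7 : ((M ⊔ AddSubgroup.zmultiples z : AddSubgroup G) : Set G).ncard =
      Nat.card (M ⊔ AddSubgroup.zmultiples z : AddSubgroup G) := rfl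
  omega

/-- the rank of the quotient by a subgroup of a subgroup of index two -/
theorem idx2 {H : Type} [AddCommGroup H] [Finite H] (φ : H →+ G) (z : G)
    (hz : φ.range ⊔ AddSubgroup.zmultiples z = ⊤) (h2 : z + z ∈ φ.range) (M : AddSubgroup H) :
    crk (M.map φ) ≤ crk M ∨
      ∃ M' : AddSubgroup G, Nat.card M' ≤ 2 * Nat.card (M.map φ) ∧ crk M' ≤ crk M := by
  obtain ⟨S, hS, hg⟩ := exists_crk M
  obtain ⟨y, hy⟩ := AddMonoidHom.mem_range.1 h2
  have hy2 : y ∈ M ⊔ AddSubgroup.closure (S : Set H) := hg ▸ AddSubgroup.mem_top y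
  obtain ⟨m0, hm0, c, hc, rfl⟩ := AddSubgroup.mem_sup.1 hy2
  obtain ⟨h, S', hS', rfl⟩ := par_cl S c hc
  have hrange : ∀ N : AddSubgroup G, M.map φ ≤ N → (∀ s ∈ S, φ s ∈ N) → φ.range ≤ N := by
    intro N hN1 hN2
    have h1 : (M ⊔ AddSubgroup.closure (S : Set H)).map φ = φ.range := by
      rw [hg, ← AddMonoidHom.range_eq_map]
    rw [← h1, AddSubgroup.map_sup]
    apply sup_le hN1
    rw [AddMonoidHom.map_closure, AddSubgroup.closure_le]
    rintro _ ⟨s, hs, rfl⟩
    exact hN2 s (mem_coe.1 hs)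
  obtain ⟨w, hw⟩ : ∃ w, w = z - φ h := ⟨_, rfl⟩
  have hw2 : w + w = φ m0 + φ (∑ s ∈ S', s) := by
    have h1 : w + w = (z + z) - (φ h + φ h) := by rw [hw]; abel
    rw [h1, ← hy, map_add, map_add, map_add]
    abel
  have htop : ∀ N : AddSubgroup G, φ.range ≤ N → w ∈ N → N = ⊤ := by
    intro N hN1 hN2
    rw [eq_top_iff, ← hz]
    apply sup_le hN1
    rw [AddSubgroup.zmultiples_le]
    have h1 : z = w + φ h := by rw [hw]; abel
    rw [h1]
    exact N.add_mem hN2 (hN1 (AddMonoidHom.mem_range.2 ⟨h, rfl⟩))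
  rcases S'.eq_empty_or_nonempty with he | ⟨s0, hs0⟩
  · right
    rw [he, sum_empty, map_zero, add_zero] at hw2
    refine ⟨M.map φ ⊔ AddSubgroup.zmultiples w, card_sup_two _ _ ?_, ?_⟩
    · rw [hw2]
      exact AddSubgroup.mem_map_of_mem φ hm0
    · rw [← hS]
      refine (crk_le (S := S.image φ) ?_).trans card_image_le
      refine htop _ (hrange _ ?_ ?_) ?_
      · exact le_sup_left.trans le_sup_left
      · intro s hs
        exact AddSubgroup.mem_sup_right (AddSubgroup.subset_closure (mem_coe.2 (mem_image_of_mem φ hs)))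
      · exact AddSubgroup.mem_sup_left (AddSubgroup.mem_sup_right (AddSubgroup.mem_zmultiples w))
  · left
    rw [← hS]
    have hcard : (insert w ((S.erase s0).image φ)).card ≤ S.card := by
      have h1 := card_insert_le w ((S.erase s0).image φ)
      have h2 : ((S.erase s0).image φ).card ≤ (S.erase s0).card := card_image_le
      have h3 : (S.erase s0).card = S.card - 1 := card_erase_of_mem (hS' hs0)
      have h4 : 1 ≤ S.card := card_pos.2 ⟨s0, hS' hs0⟩
      omega
    refine (crk_le (S := insert w ((S.erase s0).image φ)) ?_).trans hcard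
    obtain ⟨N, hN⟩ : ∃ N, N = M.map φ ⊔
      AddSubgroup.closure ((insert w ((S.erase s0).image φ) : Finset G) : Set G) := ⟨_, rfl⟩
    rw [← hN]
    have hwN : w ∈ N := by
      rw [hN]
      exact AddSubgroup.mem_sup_right (AddSubgroup.subset_closure (mem_coe.2 (mem_insert_self _ _)))
    have hMN : M.map φ ≤ N := by
      rw [hN]
      exact le_sup_left
    have hsN : ∀ s ∈ S, s ≠ s0 → φ s ∈ N := by
      intro s hs hne
      rw [hN]
      exact AddSubgroup.mem_sup_right (AddSubgroup.subset_closure (mem_coe.2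
        (mem_insert_of_mem (mem_image_of_mem φ (mem_erase.2 ⟨hne, hs⟩)))))
    have hs0N : φ s0 ∈ N := by
      have h1 : φ s0 = (w + w) - φ m0 - φ (∑ s ∈ S'.erase s0, s) := by
        rw [hw2, ← add_sum_erase S' _ hs0, map_add]
        abel
      rw [h1]
      refine N.sub_mem (N.sub_mem (N.add_mem hwN hwN) (hMN (AddSubgroup.mem_map_of_mem φ hm0))) ?_
      rw [map_sum]
      refine N.sum_mem fun s hs => hsN s (hS' (mem_erase.1 hs).2) (mem_erase.1 hs).1
    refine htop _ (hrange _ hMN ?_) hwN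
    intro s hs
    by_cases hne : s = s0
    · rw [hne]
      exact hs0N
    · exact hsN s hs hne

variable {ι : Type}

/-- a member outside the group `L` of the others, `|G / L| = 2`: the level is kept -/
theorem GR_two (s : Finset ι) (f : ι → G) (i : ι) (hi : i ∈ s) (hg : gen s f = ⊤)
    (hd : f i ∉ gen (s.erase i) f) (h2 : f i + f i ∈ gen (s.erase i) f) (m : ℕ)
    (hG : GR m (⊥ : AddSubgroup G) (FS s f).card) :
    ∃ (H : Type) (_ : AddCommGroup H) (_ : Finite H) (φ : H →+ G) (f1 : ι → H),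
      Function.Injective φ ∧ (∀ k ∈ s.erase i, φ (f1 k) = f k) ∧
      (FS (s.erase i) f1).card = (FS (s.erase i) f).card ∧ gen (s.erase i) f1 = ⊤ ∧
      GR m (⊥ : AddSubgroup H) (FS (s.erase i) f).card ∧
      crk (⊥ : AddSubgroup G) ≤ crk (⊥ : AddSubgroup H) + 1 := by
  obtain ⟨H, _, _, φ, f1, hφ, hr, hf1, hc, hg1⟩ := res (s.erase i) f _ rfl
  have hz : φ.range ⊔ AddSubgroup.zmultiples (f i) = ⊤ := by
    rw [eq_top_iff, ← hg, hr]
    conv_lhs => unfold gen
    rw [AddSubgroup.closure_le]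
    rintro _ ⟨k, hk, rfl⟩
    by_cases hki : k = i
    · subst hki
      exact AddSubgroup.mem_sup_right (AddSubgroup.mem_zmultiples _)
    · exact AddSubgroup.mem_sup_left (P1_mem_gen (mem_erase.2 ⟨hki, mem_coe.1 hk⟩))
  have h3 : (FS s f).card = 2 * (FS (s.erase i) f).card := (all_Ba1 G ι f).2.2.2.1 s i hi hd
  refine ⟨H, inferInstance, inferInstance, φ, f1, hφ, hf1, hc, hg1, ?_, ?_⟩
  · intro M _ hM
    have h5 : Nat.card (M.map φ) = Nat.card M := AddSubgroup.card_map_of_injective hφ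
    rcases idx2 φ (f i) hz (hr ▸ h2) M with h4 | ⟨M', hM1, hM2⟩
    · have h6 := hG (M.map φ) bot_le (by omega)
      rw [h5, h3] at h6
      have h7 : Nat.card M * 2 ^ crk (M.map φ) ≤ Nat.card M * 2 ^ crk M :=
        Nat.mul_le_mul_left _ (Nat.pow_le_pow_right (by norm_num) h4)
      omega
    · have h6 := hG M' bot_le (by omega)
      rw [h3] at h6
      rw [h5] at hM1
      have h7 : Nat.card M' * 2 ^ crk M' ≤ 2 * Nat.card M * 2 ^ crk M :=
        Nat.mul_le_mul hM1 (Nat.pow_le_pow_right (by norm_num) hM2)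
      have h8 : 2 * Nat.card M * 2 ^ crk M = 2 * (Nat.card M * 2 ^ crk M) := by ring
      omega
  · have h3 := crk_sub φ (f i) hz ⊥
    rwa [AddSubgroup.map_bot] at h3

end

end Pool.Agent.SNR
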